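import Pool.Agent.ODD.CNC

/-!
# ODR-Brow: the first row at a general parameter

Plan. `ul M i` = unit list. Everything by induction on `M` with `ODD.row_cons_cons` (`List.replicate_succ`, `ODD.zs` is `List.replicate _ false`), the weights
`ODD.vert w (U * 1)`: from `(false, false)` (column, row) one goes to `(false, false)` with `U - w` or to `(true, true)` with `1 - w`; from `(false, true)` only to
`(false, true)` with `1 - w U`. `row_true` first, then `row_false`: the first vertex is the place of the `1` (`i = 0`, rest `row_true`) or not
(`i ≥ 1`, induction hypothesis for `fun l => g (false :: l)`); `Finset.sum_range_succ'`. `ul (M+1) 0 = true :: zs M`, `ul (M+1) (i+1) = false :: ul M i`.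
-/

set_option autoImplicit false

namespace ODR

open ODD

/-- the unit list -/
def ul (M i : ℕ) : List Bool := List.ofFn fun j : Fin M => decide ((j : ℕ) = i)

private theorem brow_zs (M : ℕ) : zs (M + 1) = false :: zs M := by
  unfold zs
  exact List.replicate_succ

private theorem brow_ul0 (M : ℕ) : ul (M + 1) 0 = true :: zs M := by
  unfold ul zs
  rw [List.ofFn_succ]
  simp

private theorem brow_ul1 (M i : ℕ) : ul (M + 1) (i + 1) = false :: ul M i := by
  unfold ul
  rw [List.ofFn_succ]
  simp

theorem row_true {R : Type*} [CommRing R] (d : Dat R) (U : R) (M : ℕ) (g : List Bool → R) :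
    row d U (List.replicate M 1) true (zs M) g = (1 - d.w * U) ^ M * g (zs M) := by
  induction M generalizing g with
  | zero => simp [zs]
  | succ M ih =>
    rw [brow_zs, List.replicate_succ, row_cons_cons, Fintype.sum_bool, Fintype.sum_bool,
      Fintype.sum_bool, ih (fun l => g (false :: l))]
    simp only [vert, mul_one, zero_mul, zero_add, add_zero]
    ring

theorem row_false {R : Type*} [CommRing R] (d : Dat R) (U : R) (M : ℕ) (g : List Bool → R) :
    row d U (List.replicate M 1) false (zs M) g =
      ∑ i ∈ Finset.range M, (U - d.w) ^ i * (1 - d.w) * (1 - d.w * U) ^ (M - 1 - i) *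
        g (ul M i) := by
  induction M generalizing g with
  | zero => simp [zs]
  | succ M ih =>
    rw [brow_zs, List.replicate_succ, row_cons_cons, Fintype.sum_bool, Fintype.sum_bool,
      Fintype.sum_bool, ih (fun l => g (false :: l)), row_true d U M (fun l => g (true :: l)),
      Finset.sum_range_succ', brow_ul0, Finset.mul_sum]
    simp only [vert, mul_one, zero_mul, zero_add, add_zero, pow_zero, one_mul,
      Nat.add_sub_cancel, Nat.sub_zero]
    rw [add_comm]
    congr 1
    · refine Finset.sum_congr rfl fun i hi => ?_
      have hi2 := Finset.mem_range.1 hi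
      rw [brow_ul1, pow_succ, show M - (i + 1) = M - 1 - i by omega]
      ring
    · ring

end ODR
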