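import Pool.Agent.ODD.CNC
import Pool.Agent.ODR.Brow

/-!
# ODR-Bpsi: the state sum at parameters `1` with one spin `1` on the top

Plan. As `ODD.ev_count`, `ODD.od_count` (module `ODD/CNC`, whose private lemmas are to be copied with a general top `c`): `ODD.psi_one` for `d = dO w s`, `c = fun j => decide (j = i)`
(`ul M i = List.ofFn c`), `ODD.wt (dO w s) a` is `1 - s w^2` (`a = 0`), `eps` (`a = 1`), `-s eps` (otherwise); the entries of a matrix in `Sset` are `-1, 0, 1`; product over the
diagonal in dual numbers: `snd` is `(1 - s w^2)^(M-1)` times `1` or `-s` if exactly one diagonal entry is nonzero (`1` or `-1`), `0` if two or more are nonzero or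
none; `fst` is `(1 - s w^2)^M` if all are `0`, else `0`.
-/

set_option autoImplicit false

namespace ODR

open ODD

/-- number of symmetric matrices with top `1` in column `i` and exactly one nonzero diagonal
entry, equal to `e` -/
noncomputable def cU (M i : ℕ) (e : ℤ) : ℕ :=
  Nat.card {A : Matrix (Fin M) (Fin M) ℤ //
    A ∈ Sset M (fun j => if (j : ℕ) = i then 1 else 0) ∧
      ∃ k, A k k = e ∧ ∀ j, j ≠ k → A j j = 0}

/-- number of symmetric matrices with zero diagonal -/
noncomputable def cZ (M : ℕ) : ℕ :=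
  Nat.card {A : Matrix (Fin M) (Fin M) ℤ // A ∈ Sset M 0 ∧ ∀ i, A i i = 0}

private theorem bp_card_sum {α : Type*} (S : Set α) (hS : S.Finite) (p : α → Prop) :
    (Nat.card {A : α // A ∈ S ∧ p A} : ℂ) =
      ∑ A ∈ hS.toFinset, @ite ℂ (p A) (Classical.propDecidable _) 1 0 := by
  classical
  have h1 : {A : α | A ∈ S ∧ p A} = ((hS.toFinset.filter p : Finset α) : Set α) := by
    ext A; simp
  have h2 : Nat.card {A : α // A ∈ S ∧ p A} = (hS.toFinset.filter p).card := by
    have : {A : α // A ∈ S ∧ p A} = ↥{A : α | A ∈ S ∧ p A} := rfl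
    rw [this, h1, Nat.card_eq_fintype_card]
    simp
  rw [h2, Finset.card_filter]
  push_cast
  refine Finset.sum_congr rfl fun A _ => ?_
  congr

private theorem bp_snd_am (x : ℂ) (y : DualNumber ℂ) :
    (algebraMap ℂ (DualNumber ℂ) x * y).snd = x * y.snd := by
  rw [← Algebra.smul_def, TrivSqZeroExt.snd_smul, smul_eq_mul]

private theorem bp_snd_am1 (x : ℂ) : (algebraMap ℂ (DualNumber ℂ) x).snd = 0 := by
  have h := bp_snd_am x 1
  rw [mul_one] at h
  rw [h]
  simp

private theorem bp_prod_snd (w s : ℂ) (N : ℕ) (A : Matrix (Fin N) (Fin N) ℤ)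
    (hA : ∀ i, A i i = 0 ∨ A i i = 1 ∨ A i i = -1) :
    (∏ i, wt (dO w s) (A i i)).snd = (1 - s * w ^ 2) ^ (N - 1) *
      (@ite ℂ (∃ i, A i i = 1 ∧ ∀ j, j ≠ i → A j j = 0) (Classical.propDecidable _) 1 0 -
        s * @ite ℂ (∃ i, A i i = -1 ∧ ∀ j, j ≠ i → A j j = 0) (Classical.propDecidable _)
          1 0) := by
  classical
  have w0 : wt (dO w s) 0 = algebraMap ℂ (DualNumber ℂ) (1 - s * w ^ 2) := by
    simp only [wt, dO, if_true]
    rw [sub_eq_add_neg (1 : ℂ), map_add, map_one]
  have w1 : wt (dO w s) 1 = DualNumber.eps := by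
    simp [wt, dO]
  have w2 : wt (dO w s) (-1) = algebraMap ℂ (DualNumber ℂ) (-s) * DualNumber.eps := by
    simp [wt, dO]
  by_cases h1 : ∃ i, A i i ≠ 0
  · obtain ⟨i, hi⟩ := h1
    rw [← Finset.mul_prod_erase Finset.univ _ (Finset.mem_univ i)]
    by_cases h2 : ∀ j, j ≠ i → A j j = 0
    · have h3 : ∏ x ∈ Finset.univ.erase i, wt (dO w s) (A x x) =
          algebraMap ℂ (DualNumber ℂ) ((1 - s * w ^ 2) ^ (N - 1)) := by
        rw [Finset.prod_congr rfl (g := fun _ => algebraMap ℂ (DualNumber ℂ) (1 - s * w ^ 2))]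
        · rw [Finset.prod_const, Finset.card_erase_of_mem (Finset.mem_univ i), Finset.card_univ,
            Fintype.card_fin, map_pow]
        · intro j hj
          rw [h2 j (Finset.ne_of_mem_erase hj), w0]
      rw [h3, mul_comm, bp_snd_am]
      congr 1
      rcases hA i with h | h | h
      · exact absurd h hi
      · rw [h, w1, if_pos ⟨i, h, h2⟩, if_neg]
        · simp
        · rintro ⟨k, hk, -⟩
          by_cases hki : k = i
          · rw [hki, h] at hk; norm_num at hk
          · rw [h2 k hki] at hk; norm_num at hk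
      · rw [h, w2, bp_snd_am, if_neg, if_pos ⟨i, h, h2⟩]
        · simp
        · rintro ⟨k, hk, -⟩
          by_cases hki : k = i
          · rw [hki, h] at hk; norm_num at hk
          · rw [h2 k hki] at hk; norm_num at hk
    · push Not at h2
      obtain ⟨j, hji, hj⟩ := h2
      have hE : ∀ k, A k k ≠ 0 → ∃ x : ℂ, wt (dO w s) (A k k) =
          algebraMap ℂ (DualNumber ℂ) x * DualNumber.eps := by
        intro k hk
        rcases hA k with h | h | h
        · exact absurd h hk
        · exact ⟨1, by rw [h, w1, map_one, one_mul]⟩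
        · exact ⟨-s, by rw [h, w2]⟩
      obtain ⟨x, hx⟩ := hE i hi
      obtain ⟨y, hy⟩ := hE j hj
      rw [← Finset.mul_prod_erase (Finset.univ.erase i) _
        (Finset.mem_erase.2 ⟨hji, Finset.mem_univ j⟩), hx, hy]
      have hz : ∀ P : DualNumber ℂ, algebraMap ℂ (DualNumber ℂ) x * DualNumber.eps *
          (algebraMap ℂ (DualNumber ℂ) y * DualNumber.eps * P) = 0 := by
        intro P
        have : algebraMap ℂ (DualNumber ℂ) x * DualNumber.eps *
          (algebraMap ℂ (DualNumber ℂ) y * DualNumber.eps * P) =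
          (DualNumber.eps * DualNumber.eps) * (algebraMap ℂ (DualNumber ℂ) x *
            algebraMap ℂ (DualNumber ℂ) y * P) := by ring
        rw [this, DualNumber.eps_mul_eps, zero_mul]
      rw [hz, if_neg, if_neg]
      · simp
      · rintro ⟨k, hk, hk'⟩
        by_cases hki : k = i
        · exact hj (hk' j (by rw [hki]; exact hji))
        · exact hi (hk' i (Ne.symm hki))
      · rintro ⟨k, hk, hk'⟩
        by_cases hki : k = i
        · exact hj (hk' j (by rw [hki]; exact hji))
        · exact hi (hk' i (Ne.symm hki))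
  · push Not at h1
    rw [if_neg, if_neg]
    · rw [Finset.prod_congr rfl (g := fun _ => algebraMap ℂ (DualNumber ℂ) (1 - s * w ^ 2))
        (fun j _ => by rw [h1 j, w0]), Finset.prod_const, ← map_pow, bp_snd_am1]
      simp
    · rintro ⟨k, hk, -⟩
      rw [h1 k] at hk; norm_num at hk
    · rintro ⟨k, hk, -⟩
      rw [h1 k] at hk; norm_num at hk

private theorem bp_diag_vals (N : ℕ) (c : Fin N → ℤ) (hc : ∀ j, c j = 0 ∨ c j = 1)
    (A : Matrix (Fin N) (Fin N) ℤ) (hA : A ∈ Sset N c)
    (i : Fin N) : A i i = 0 ∨ A i i = 1 ∨ A i i = -1 := by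
  have h1 := hA.2.1 i i
  have hsplit : ∑ j ∈ Finset.Iic i, A i j = A i i + ∑ j ∈ Finset.Iio i, A i j := by
    rw [← Finset.Iio_insert, Finset.sum_insert (by simp)]
  have h2 : c i + ∑ j ∈ Finset.Iio i, A i j = 0 ∨ c i + ∑ j ∈ Finset.Iio i, A i j = 1 := by
    by_cases hi : (i : ℕ) = 0
    · have : Finset.Iio i = ∅ := by
        ext j
        simp only [Finset.mem_Iio, Finset.notMem_empty, iff_false, not_lt, Fin.le_def]
        omega
      rw [this, Finset.sum_empty, add_zero]
      exact hc i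
    · have h3 := hA.2.1 i ⟨i - 1, by omega⟩
      have : Finset.Iio i = Finset.Iic (⟨i - 1, by omega⟩ : Fin N) := by
        ext j
        simp only [Finset.mem_Iio, Finset.mem_Iic, Fin.lt_def, Fin.le_def]
        omega
      rw [this]
      exact h3
  rw [hsplit] at h1
  omega

private theorem bp_prod_fst (w s : ℂ) (N : ℕ) (A : Matrix (Fin N) (Fin N) ℤ)
    (hA : ∀ i, A i i = 0 ∨ A i i = 1 ∨ A i i = -1) :
    (∏ i, wt (dO w s) (A i i)).fst = (1 - s * w ^ 2) ^ N *
      (@ite ℂ (∀ i, A i i = 0) (Classical.propDecidable _) 1 0) := by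
  classical
  have hf : (∏ i, wt (dO w s) (A i i)).fst = ∏ i, (wt (dO w s) (A i i)).fst := by
    have := map_prod (TrivSqZeroExt.fstHom ℂ ℂ ℂ).toRingHom
      (fun i => wt (dO w s) (A i i)) Finset.univ
    exact this
  have w0 : (wt (dO w s) 0).fst = 1 - s * w ^ 2 := by
    simp [wt, dO, sub_eq_add_neg, DualNumber, TrivSqZeroExt.algebraMap_eq_inl]
  have w1 : (wt (dO w s) 1).fst = 0 := by
    simp [wt, dO]
  have w2 : (wt (dO w s) (-1)).fst = 0 := by
    simp [wt, dO]
  rw [hf]
  by_cases h : ∀ i, A i i = 0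
  · rw [if_pos h, Finset.prod_congr rfl (fun i _ => by rw [h i, w0]), Finset.prod_const,
      Finset.card_univ, Fintype.card_fin, mul_one]
  · rw [if_neg h, mul_zero]
    push Not at h
    obtain ⟨i, hi⟩ := h
    refine Finset.prod_eq_zero (Finset.mem_univ i) ?_
    rcases hA i with h1 | h1 | h1
    · exact absurd h1 hi
    · rw [h1, w1]
    · rw [h1, w2]

private theorem bp_fst_am (x : ℂ) (y : DualNumber ℂ) :
    (algebraMap ℂ (DualNumber ℂ) x * y).fst = x * y.fst := by
  rw [← Algebra.smul_def, TrivSqZeroExt.fst_smul, smul_eq_mul]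

theorem psi_ul (w s : ℂ) (M i : ℕ) (hM : 1 ≤ M) :
    (Psi (dO w s) (List.replicate M 1) (ul M i)).snd =
      (1 - w) ^ (M * (M - 1) / 2) * (1 - s * w ^ 2) ^ (M - 1) *
        ((cU M i 1 : ℂ) - s * (cU M i (-1) : ℂ)) := by
  classical
  have hc01 : ∀ j : Fin M, (if (j : ℕ) = i then (1 : ℤ) else 0) = 0 ∨
      (if (j : ℕ) = i then (1 : ℤ) else 0) = 1 := by
    intro j
    split_ifs
    · exact Or.inr rfl
    · exact Or.inl rfl
  have h0 : (fun j : Fin M => b2z (decide ((j : ℕ) = i))) =
      fun j : Fin M => if (j : ℕ) = i then (1 : ℤ) else 0 := by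
    funext j
    by_cases h : (j : ℕ) = i
    · rw [if_pos h, decide_eq_true h]; rfl
    · rw [if_neg h, decide_eq_false h]; rfl
  have hfin : (Sset M (fun j : Fin M => if (j : ℕ) = i then (1 : ℤ) else 0)).Finite :=
    Sset_finite M _ hc01
  have hw : (1 : DualNumber ℂ) - (dO w s).w = algebraMap ℂ (DualNumber ℂ) (1 - w) := by
    rw [map_sub, map_one]; rfl
  unfold ul cU
  rw [psi_one, h0, hw, ← map_pow, bp_snd_am, bp_card_sum _ hfin, bp_card_sum _ hfin,
    finsum_mem_eq_finite_toFinset_sum _ hfin, TrivSqZeroExt.snd_sum, mul_assoc]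
  congr 1
  rw [Finset.mul_sum, ← Finset.sum_sub_distrib, Finset.mul_sum]
  refine Finset.sum_congr rfl fun A hA => ?_
  rw [bp_prod_snd w s M A (bp_diag_vals M _ hc01 A ((Set.Finite.mem_toFinset hfin).1 hA))]

theorem psi_zs (w s : ℂ) (M : ℕ) :
    (Psi (dO w s) (List.replicate M 1) (zs M)).fst =
      (1 - w) ^ (M * (M - 1) / 2) * (1 - s * w ^ 2) ^ M * (cZ M : ℂ) := by
  classical
  have hz : zs M = List.ofFn (fun _ : Fin M => false) := by
    simp [zs, List.ofFn_const]
  have h0 : (fun _ : Fin M => b2z false) = 0 := rfl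
  have hfin : (Sset M (0 : Fin M → ℤ)).Finite := Sset_finite M 0 fun j => Or.inl rfl
  have hw : (1 : DualNumber ℂ) - (dO w s).w = algebraMap ℂ (DualNumber ℂ) (1 - w) := by
    rw [map_sub, map_one]; rfl
  unfold cZ
  rw [hz, psi_one, h0, hw, ← map_pow, bp_fst_am, bp_card_sum _ hfin,
    finsum_mem_eq_finite_toFinset_sum _ hfin, TrivSqZeroExt.fst_sum, mul_assoc]
  congr 1
  rw [Finset.mul_sum]
  refine Finset.sum_congr rfl fun A hA => ?_
  rw [bp_prod_fst w s M A (bp_diag_vals M _ (fun j => Or.inl rfl) A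
    ((Set.Finite.mem_toFinset hfin).1 hA))]

end ODR
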