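import Pool.Agent.ODD.Stmt

/-!
# PROJECT ODR (MP_d12cfa_co): refined enumeration of odd order OSASMs, definitions

Paper proof: /team-store/odd_refined_h22.md. First part: polynomials over the complex numbers
(algebra layer). Second part: the objects of the final statement.
-/

set_option autoImplicit false

namespace ODR

open Polynomial

/-- `X^K P(1 - 1/X)` for a polynomial `P` of degree at most `K` -/
noncomputable def chk (K : ℕ) (P : ℂ[X]) : ℂ[X] :=
  ∑ k ∈ Finset.range (K + 1), C (P.coeff k) * (X ^ (K - k) * (X - 1) ^ k)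

/-- the sum of `(1-X)^L P` (weight `K + L`) over the cyclic group generated by `t ↦ 1 - 1/t` -/
noncomputable def cyc (K L : ℕ) (P : ℂ[X]) : ℂ[X] :=
  (1 - X) ^ L * P + C ((-1) ^ (K + L)) * chk K P + X ^ L * chk K (chk K P)

/-- beta binomial polynomials -/
noncomputable def gN (N : ℕ) : ℂ[X] :=
  ∑ k ∈ Finset.range (N + 1), C ((((N + k).choose N * (2 * N - k).choose N : ℕ) : ℂ)) * X ^ k

/-! ## the final statement -/

/-- even order off-diagonally symmetric alternating sign matrices (zero diagonal) -/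
def IsEven (m : ℕ) (A : Matrix (Fin (2 * m)) (Fin (2 * m)) ℤ) : Prop :=
  (∀ i j, A i j = -1 ∨ A i j = 0 ∨ A i j = 1) ∧
  (∀ i k, (∑ j ∈ Finset.Iic k, A i j) = 0 ∨ (∑ j ∈ Finset.Iic k, A i j) = 1) ∧
  (∀ i, (∑ j, A i j) = 1) ∧
  (∀ j k, (∑ i ∈ Finset.Iic k, A i j) = 0 ∨ (∑ i ∈ Finset.Iic k, A i j) = 1) ∧
  (∀ j, (∑ i, A i j) = 1) ∧
  (∀ i j, A i j = A j i) ∧ ∀ i, A i i = 0

/-- number of even order OSASMs of order `2 m` -/
noncomputable def Neven (m : ℕ) : ℕ :=
  Nat.card {A : Matrix (Fin (2 * m)) (Fin (2 * m)) ℤ // IsEven m A}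

/-- number of OSASMs of order `2 n + 1` whose nonzero diagonal entry is `e` and whose first row
has its `1` in the column `i` (columns `0, ..., 2 n`) -/
noncomputable def Nref (n : ℕ) (e : ℤ) (i : ℕ) : ℕ :=
  Nat.card {A : Matrix (Fin (2 * n + 1)) (Fin (2 * n + 1)) ℤ //
    ODD.IsOSASM n A ∧ (∃ d, A d d = e) ∧ ∃ j : Fin (2 * n + 1), (j : ℕ) = i ∧ A 0 j = 1}

/-- differences -/
noncomputable def dd (n i : ℕ) : ℚ := (Nref n 1 i : ℚ) - Nref n (-1) i

/-- sums -/
noncomputable def ss (n i : ℕ) : ℚ := (Nref n 1 i : ℚ) + Nref n (-1) i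

/-- the difference of the total numbers -/
noncomputable def del (n : ℕ) : ℚ := (ODD.Npos n : ℚ) - ODD.Nneg n

/-- generating polynomial of the differences -/
noncomputable def Dp (n : ℕ) : ℚ[X] :=
  C (dd n 0) + ∑ i ∈ Finset.range (2 * n), C (dd n (i + 1)) * X ^ i

/-- generating polynomial of the sums -/
noncomputable def Sp (n : ℕ) : ℚ[X] :=
  C (ss n 0) + (2 * X - 1) * ∑ i ∈ Finset.range (2 * n), C (ss n (i + 1)) * X ^ i

/-- beta binomial polynomials over the rational numbers -/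
noncomputable def gq (N : ℕ) : ℚ[X] :=
  ∑ k ∈ Finset.range (N + 1), C ((((N + k).choose N * (2 * N - k).choose N : ℕ) : ℚ)) * X ^ k

noncomputable def nu (k : ℕ) : ℚ :=
  (del (k - 1) / ((4 * k).choose (2 * k) : ℕ) - 2 * del k / ((6 * k + 1).choose (2 * k) : ℕ)) /
    Neven k

noncomputable def al (n : ℕ) : ℚ := -2 * (ODD.Nall n : ℚ) / ((6 * n + 1).choose (2 * n) : ℕ)

noncomputable def be (n : ℕ) : ℚ :=
  -(2 * (ODD.Nall (n - 1) : ℚ) + 2 * al n * ((4 * n).choose (2 * n) : ℕ)) /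
    ((4 * n + 2).choose (2 * n + 1) : ℕ)

end ODR
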