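import Pool.Agent.ODD.Count
import Pool.Agent.ODR.Defs
import Pool.Agent.ODR.Bpsi

/-!
# ODR-Bcnt: the refined numbers count matrices

The first row of a matrix of `Sset (2n+1) 0` has entries `0` or `1` (they are partial sums of
columns) with total `1`: it is a unit vector. If the `1` is in column `i + 1`, then `A 0 0 = 0`
and `A ↦ A.submatrix Fin.succ Fin.succ` is a bijection onto the matrices in `Sset (2n) (e_i)`
with exactly one nonzero diagonal entry.
-/

set_option autoImplicit false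

namespace ODR

open ODD

private theorem Bcnt_sum_succ {N : ℕ} (f : Fin (N + 1) → ℤ) (k : Fin N) :
    ∑ j ∈ Finset.Iic k.succ, f j = f 0 + ∑ j ∈ Finset.Iic k, f j.succ := by
  have h1 : ∑ j ∈ Finset.Iic k.succ, f j = ∑ j, if j ≤ k.succ then f j else 0 := by
    rw [← Finset.sum_filter]
    congr 1
    ext j
    simp
  have h2 : ∑ j ∈ Finset.Iic k, f j.succ = ∑ j, if j ≤ k then f j.succ else 0 := by
    rw [← Finset.sum_filter]
    congr 1
    ext j
    simp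
  rw [h1, h2, Fin.sum_univ_succ]
  simp

private theorem Bcnt_sum_zero {N : ℕ} (f : Fin (N + 1) → ℤ) :
    ∑ j ∈ Finset.Iic (0 : Fin (N + 1)), f j = f 0 := by
  have h1 : Finset.Iic (0 : Fin (N + 1)) = {0} := by
    ext j
    simp
  rw [h1, Finset.sum_singleton]

/-- the unit vector -/
private def Bcnt_u (N i : ℕ) : Fin N → ℤ := fun j => if (j : ℕ) = i then 1 else 0

private theorem Bcnt_u01 (N i : ℕ) (j : Fin N) : Bcnt_u N i j = 0 ∨ Bcnt_u N i j = 1 := by
  unfold Bcnt_u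
  split_ifs
  · right; rfl
  · left; rfl

private theorem Bcnt_u_sum (N i : ℕ) (hi : i < N) : ∑ j, Bcnt_u N i j = 1 := by
  rw [Finset.sum_eq_single (⟨i, hi⟩ : Fin N)]
  · exact if_pos rfl
  · intro j _ hj
    exact if_neg fun h => hj (Fin.ext h)
  · intro h
    exact absurd (Finset.mem_univ _) h

private theorem Bcnt_u_part (N i : ℕ) (k : Fin N) :
    (∑ j ∈ Finset.Iic k, Bcnt_u N i j) = 0 ∨ (∑ j ∈ Finset.Iic k, Bcnt_u N i j) = 1 := by
  by_cases hi : i < N
  · by_cases hk : (⟨i, hi⟩ : Fin N) ≤ k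
    · right
      rw [Finset.sum_eq_single (⟨i, hi⟩ : Fin N)]
      · exact if_pos rfl
      · intro j _ hj
        exact if_neg fun h => hj (Fin.ext h)
      · intro h
        exact absurd (Finset.mem_Iic.2 hk) h
    · left
      refine Finset.sum_eq_zero fun j hj => if_neg fun h => hk ?_
      have h1 : (⟨i, hi⟩ : Fin N) = j := Fin.ext h.symm
      rw [h1]
      exact Finset.mem_Iic.1 hj
  · left
    refine Finset.sum_eq_zero fun j _ => if_neg fun h => hi ?_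
    rw [← h]
    exact j.2

/-- the matrix with first diagonal entry `0`, first line `a` and remaining minor `A` -/
private def Bcnt_bm {N : ℕ} (a : Fin N → ℤ) (A : Matrix (Fin N) (Fin N) ℤ) :
    Matrix (Fin (N + 1)) (Fin (N + 1)) ℤ :=
  fun i j => (Fin.cons (Fin.cons 0 a : Fin (N + 1) → ℤ)
    (fun i => (Fin.cons (a i) (A i) : Fin (N + 1) → ℤ)) : Fin (N + 1) → Fin (N + 1) → ℤ) i j

private theorem Bcnt_zz {N : ℕ} (a : Fin N → ℤ) (A : Matrix (Fin N) (Fin N) ℤ) :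
    Bcnt_bm a A 0 0 = 0 := rfl

private theorem Bcnt_zs {N : ℕ} (a : Fin N → ℤ) (A : Matrix (Fin N) (Fin N) ℤ)
    (j : Fin N) : Bcnt_bm a A 0 j.succ = a j := rfl

private theorem Bcnt_sz {N : ℕ} (a : Fin N → ℤ) (A : Matrix (Fin N) (Fin N) ℤ)
    (i : Fin N) : Bcnt_bm a A i.succ 0 = a i := rfl

private theorem Bcnt_ss {N : ℕ} (a : Fin N → ℤ) (A : Matrix (Fin N) (Fin N) ℤ)
    (i j : Fin N) : Bcnt_bm a A i.succ j.succ = A i j := rfl

private theorem Bcnt_mem {N : ℕ} (i : ℕ) (hi : i < N) {A : Matrix (Fin N) (Fin N) ℤ}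
    (hA : A ∈ Sset N (Bcnt_u N i)) : Bcnt_bm (Bcnt_u N i) A ∈ Sset (N + 1) 0 := by
  obtain ⟨A1, A2, A3⟩ := hA
  refine ⟨fun i j => ?_, fun i k => ?_, fun i => ?_⟩
  · refine Fin.cases ?_ (fun i => ?_) i <;> refine Fin.cases ?_ (fun j => ?_) j
    · rfl
    · rw [Bcnt_zs, Bcnt_sz]
    · rw [Bcnt_zs, Bcnt_sz]
    · rw [Bcnt_ss, Bcnt_ss, A1]
  · rw [Pi.zero_apply, zero_add]
    refine Fin.cases ?_ (fun i => ?_) i <;> refine Fin.cases ?_ (fun k => ?_) k
    · rw [Bcnt_sum_zero, Bcnt_zz]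
      left
      rfl
    · rw [Bcnt_sum_succ, Bcnt_zz, zero_add]
      simp only [Bcnt_zs]
      exact Bcnt_u_part N _ k
    · rw [Bcnt_sum_zero, Bcnt_sz]
      exact Bcnt_u01 N _ i
    · rw [Bcnt_sum_succ, Bcnt_sz]
      simp only [Bcnt_ss]
      exact A2 i k
  · rw [Pi.zero_apply, zero_add]
    refine Fin.cases ?_ (fun i => ?_) i
    · rw [Fin.sum_univ_succ, Bcnt_zz, zero_add]
      simp only [Bcnt_zs]
      exact Bcnt_u_sum N _ hi
    · rw [Fin.sum_univ_succ, Bcnt_sz]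
      simp only [Bcnt_ss]
      exact A3 i

/-- the first line is a unit vector -/
private theorem Bcnt_first {N : ℕ} {A : Matrix (Fin (N + 1)) (Fin (N + 1)) ℤ}
    (hA : A ∈ Sset (N + 1) 0) (i : ℕ) {j : Fin (N + 1)} (hj : (j : ℕ) = i + 1)
    (h : A 0 j = 1) : A 0 0 = 0 ∧ ∀ k : Fin N, A 0 k.succ = Bcnt_u N i k := by
  obtain ⟨A1, A2, A3⟩ := hA
  have h0 : ∀ k : Fin (N + 1), 0 ≤ A 0 k := by
    intro k
    have h1 := A2 k 0
    rw [Bcnt_sum_zero, Pi.zero_apply, A1 k 0] at h1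
    omega
  have h2 := A3 0
  rw [Pi.zero_apply, zero_add, ← Finset.add_sum_erase _ _ (Finset.mem_univ j), h] at h2
  have h3 : ∑ k ∈ Finset.univ.erase j, A 0 k = 0 := by omega
  have h4 := (Finset.sum_eq_zero_iff_of_nonneg fun k _ => h0 k).1 h3
  have h5 : ∀ k : Fin (N + 1), k ≠ j → A 0 k = 0 := fun k hk =>
    h4 k (Finset.mem_erase.2 ⟨hk, Finset.mem_univ k⟩)
  refine ⟨h5 0 fun e => ?_, fun k => ?_⟩
  · rw [← e] at hj
    simp at hj
  · unfold Bcnt_u
    split_ifs with hk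
    · have : k.succ = j := by
        apply Fin.ext
        rw [Fin.val_succ, hj, hk]
      rw [this, h]
    · refine h5 _ fun e => hk ?_
      rw [← e, Fin.val_succ] at hj
      omega

private theorem Bcnt_parts {N : ℕ} {A : Matrix (Fin (N + 1)) (Fin (N + 1)) ℤ}
    (hA : A ∈ Sset (N + 1) 0) (i : ℕ) (h : ∀ k : Fin N, A 0 k.succ = Bcnt_u N i k) :
    A.submatrix Fin.succ Fin.succ ∈ Sset N (Bcnt_u N i) := by
  obtain ⟨A1, A2, A3⟩ := hA
  have h' : ∀ k : Fin N, A k.succ 0 = Bcnt_u N i k := by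
    intro k
    rw [A1 k.succ 0]
    exact h k
  refine ⟨fun i j => A1 _ _, fun l k => ?_, fun l => ?_⟩
  · have h1 := A2 l.succ k.succ
    rw [Bcnt_sum_succ, Pi.zero_apply, h' l, zero_add] at h1
    exact h1
  · have h1 := A3 l.succ
    rw [Fin.sum_univ_succ, Pi.zero_apply, h' l, zero_add] at h1
    exact h1

private theorem Bcnt_eq {N : ℕ} {A : Matrix (Fin (N + 1)) (Fin (N + 1)) ℤ}
    (hA : A ∈ Sset (N + 1) 0) (i : ℕ) (h0 : A 0 0 = 0)
    (h : ∀ k : Fin N, A 0 k.succ = Bcnt_u N i k) :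
    Bcnt_bm (Bcnt_u N i) (A.submatrix Fin.succ Fin.succ) = A := by
  ext l j
  refine Fin.cases ?_ (fun l => ?_) l <;> refine Fin.cases ?_ (fun j => ?_) j
  · rw [Bcnt_zz, h0]
  · rw [Bcnt_zs, h]
  · rw [Bcnt_sz, hA.1, h]
  · rw [Bcnt_ss]
    rfl

theorem nref_succ (n i : ℕ) (hi : i < 2 * n) (e : ℤ) (he : e = 1 ∨ e = -1) :
    Nref n e (i + 1) = cU (2 * n) i e := by
  refine Nat.card_congr
    { toFun := fun A => ⟨A.1.submatrix Fin.succ Fin.succ, ?_, ?_⟩
      invFun := fun B => ⟨Bcnt_bm (Bcnt_u (2 * n) i) B.1, ?_, ?_, ?_⟩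
      left_inv := ?_
      right_inv := ?_ }
  · obtain ⟨A, h1, h2, j, hj, h3⟩ := A
    have hS := ((isOSASM_iff n A).1 h1).1
    exact Bcnt_parts hS i (Bcnt_first hS i hj h3).2
  · obtain ⟨A, h1, ⟨f, hf⟩, j, hj, h3⟩ := A
    obtain ⟨hS, d, h5, h6⟩ := (isOSASM_iff n A).1 h1
    have h00 := (Bcnt_first hS i hj h3).1
    have hfd : f = d := by
      by_contra hne
      have := h6 f hne
      omega
    have hd : d ≠ 0 := by
      intro hd
      rw [hd] at h5
      exact h5 h00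
    obtain ⟨k, hk⟩ := Fin.exists_succ_eq.2 hd
    refine ⟨k, ?_, ?_⟩
    · show A k.succ k.succ = e
      rw [hk, ← hfd, hf]
    · intro l hl
      show A l.succ l.succ = 0
      refine h6 l.succ ?_
      rw [← hk]
      exact fun h => hl (Fin.succ_injective _ h)
  · obtain ⟨B, hB, k, hk, hk2⟩ := B
    rw [isOSASM_iff]
    refine ⟨Bcnt_mem i hi hB, k.succ, ?_, ?_⟩
    · show B k k ≠ 0
      rw [hk]
      omega
    · intro l
      refine Fin.cases ?_ (fun l => ?_) l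
      · intro _
        rfl
      · intro hl
        rw [Bcnt_ss]
        exact hk2 l fun h => hl (by rw [h])
  · obtain ⟨B, hB, k, hk, hk2⟩ := B
    exact ⟨k.succ, hk⟩
  · refine ⟨Fin.succ ⟨i, hi⟩, rfl, ?_⟩
    rw [Bcnt_zs]
    exact if_pos rfl
  · rintro ⟨A, h1, h2, j, hj, h3⟩
    have hS := ((isOSASM_iff n A).1 h1).1
    have hf := Bcnt_first hS i hj h3
    exact Subtype.ext (Bcnt_eq hS i hf.1 hf.2)
  · rintro ⟨B, h1⟩
    exact Subtype.ext rfl

end ODR
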