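import Pool.Agent.ODD.Count
import Pool.Agent.ODR.Defs
import Pool.Agent.ODR.Bpsi

/-!
# ODR-Bcz: the matrices with zero diagonal

If `A 0 0 = 1` then the other entries of the first line are `0` or `1` by symmetry with sum `0`,
so they vanish, and removing the first line is a bijection onto the matrices of `Sset (2n) 0`
with zero diagonal.
-/

set_option autoImplicit false

namespace ODR

open ODD

private theorem Bcz_sum_succ {N : ℕ} (f : Fin (N + 1) → ℤ) (k : Fin N) :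
    ∑ j ∈ Finset.Iic k.succ, f j = f 0 + ∑ j ∈ Finset.Iic k, f j.succ := by
  have h1 : ∑ j ∈ Finset.Iic k.succ, f j = ∑ j, if j ≤ k.succ then f j else 0 := by
    rw [← Finset.sum_filter]
    congr 1
    ext j
    simp
  have h2 : ∑ j ∈ Finset.Iic k, f j.succ = ∑ j, if j ≤ k then f j.succ else 0 := by
    rw [← Finset.sum_filter]
    congr 1
    ext j
    simp
  rw [h1, h2, Fin.sum_univ_succ]
  simp

private theorem Bcz_sum_zero {N : ℕ} (f : Fin (N + 1) → ℤ) :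
    ∑ j ∈ Finset.Iic (0 : Fin (N + 1)), f j = f 0 := by
  have h1 : Finset.Iic (0 : Fin (N + 1)) = {0} := by
    ext j
    simp
  rw [h1, Finset.sum_singleton]

/-- the matrix with first diagonal entry `1`, first line `0` and remaining minor `A` -/
private def Bcz_bm {N : ℕ} (A : Matrix (Fin N) (Fin N) ℤ) :
    Matrix (Fin (N + 1)) (Fin (N + 1)) ℤ :=
  fun i j => (Fin.cons (Fin.cons 1 (fun _ => 0) : Fin (N + 1) → ℤ)
    (fun i => (Fin.cons 0 (A i) : Fin (N + 1) → ℤ)) : Fin (N + 1) → Fin (N + 1) → ℤ) i j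

private theorem Bcz_zz {N : ℕ} (A : Matrix (Fin N) (Fin N) ℤ) : Bcz_bm A 0 0 = 1 := rfl

private theorem Bcz_zs {N : ℕ} (A : Matrix (Fin N) (Fin N) ℤ) (j : Fin N) :
    Bcz_bm A 0 j.succ = 0 := rfl

private theorem Bcz_sz {N : ℕ} (A : Matrix (Fin N) (Fin N) ℤ) (i : Fin N) :
    Bcz_bm A i.succ 0 = 0 := rfl

private theorem Bcz_ss {N : ℕ} (A : Matrix (Fin N) (Fin N) ℤ) (i j : Fin N) :
    Bcz_bm A i.succ j.succ = A i j := rfl

private theorem Bcz_mem {N : ℕ} {A : Matrix (Fin N) (Fin N) ℤ} (hA : A ∈ Sset N 0) :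
    Bcz_bm A ∈ Sset (N + 1) 0 := by
  obtain ⟨A1, A2, A3⟩ := hA
  refine ⟨fun i j => ?_, fun i k => ?_, fun i => ?_⟩
  · refine Fin.cases ?_ (fun i => ?_) i <;> refine Fin.cases ?_ (fun j => ?_) j
    · rfl
    · rw [Bcz_zs, Bcz_sz]
    · rw [Bcz_zs, Bcz_sz]
    · rw [Bcz_ss, Bcz_ss, A1]
  · rw [Pi.zero_apply, zero_add]
    refine Fin.cases ?_ (fun i => ?_) i <;> refine Fin.cases ?_ (fun k => ?_) k
    · rw [Bcz_sum_zero, Bcz_zz]
      right
      rfl
    · rw [Bcz_sum_succ, Bcz_zz]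
      simp only [Bcz_zs, Finset.sum_const_zero]
      right
      rfl
    · rw [Bcz_sum_zero, Bcz_sz]
      left
      rfl
    · rw [Bcz_sum_succ, Bcz_sz]
      simp only [Bcz_ss]
      have h5 := A2 i k
      rw [Pi.zero_apply] at h5
      exact h5
  · rw [Pi.zero_apply, zero_add]
    refine Fin.cases ?_ (fun i => ?_) i
    · rw [Fin.sum_univ_succ, Bcz_zz]
      simp only [Bcz_zs, Finset.sum_const_zero]
      rfl
    · rw [Fin.sum_univ_succ, Bcz_sz]
      simp only [Bcz_ss]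
      have h5 := A3 i
      rw [Pi.zero_apply] at h5
      exact h5

/-- if the first entry is `1`, the other entries of the first line vanish -/
private theorem Bcz_first {N : ℕ} {A : Matrix (Fin (N + 1)) (Fin (N + 1)) ℤ}
    (hA : A ∈ Sset (N + 1) 0) (h : A 0 0 = 1) (j : Fin N) : A 0 j.succ = 0 := by
  obtain ⟨A1, A2, A3⟩ := hA
  have h0 : ∀ j : Fin N, 0 ≤ A 0 j.succ := by
    intro j
    have h1 := A2 j.succ 0
    rw [Bcz_sum_zero, Pi.zero_apply, A1 j.succ 0] at h1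
    omega
  have h2 := A3 0
  rw [Fin.sum_univ_succ, Pi.zero_apply, h] at h2
  have h3 : ∑ j : Fin N, A 0 j.succ = 0 := by omega
  exact (Finset.sum_eq_zero_iff_of_nonneg fun j _ => h0 j).1 h3 j (Finset.mem_univ j)

private theorem Bcz_parts {N : ℕ} {A : Matrix (Fin (N + 1)) (Fin (N + 1)) ℤ}
    (hA : A ∈ Sset (N + 1) 0) (h : A 0 0 = 1) :
    A.submatrix Fin.succ Fin.succ ∈ Sset N 0 := by
  have hf := Bcz_first hA h
  obtain ⟨A1, A2, A3⟩ := hA
  have hf' : ∀ i : Fin N, A i.succ 0 = 0 := by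
    intro i
    rw [A1 i.succ 0]
    exact hf i
  refine ⟨fun i j => A1 _ _, fun i k => ?_, fun i => ?_⟩
  · have h1 := A2 i.succ k.succ
    rw [Bcz_sum_succ, Pi.zero_apply, hf' i, zero_add] at h1
    rw [Pi.zero_apply]
    exact h1
  · have h1 := A3 i.succ
    rw [Fin.sum_univ_succ, Pi.zero_apply, hf' i, zero_add] at h1
    rw [Pi.zero_apply]
    exact h1

private theorem Bcz_eq {N : ℕ} {A : Matrix (Fin (N + 1)) (Fin (N + 1)) ℤ}
    (hA : A ∈ Sset (N + 1) 0) (h : A 0 0 = 1) :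
    Bcz_bm (A.submatrix Fin.succ Fin.succ) = A := by
  have hf := Bcz_first hA h
  ext i j
  refine Fin.cases ?_ (fun i => ?_) i <;> refine Fin.cases ?_ (fun j => ?_) j
  · rw [Bcz_zz, h]
  · rw [Bcz_zs, hf]
  · rw [Bcz_sz, hA.1, hf]
  · rw [Bcz_ss]
    rfl

theorem nref_zero (n : ℕ) : Nref n 1 0 = cZ (2 * n) := by
  refine Nat.card_congr
    { toFun := fun A => ⟨A.1.submatrix Fin.succ Fin.succ, ?_, ?_⟩
      invFun := fun B => ⟨Bcz_bm B.1, ?_, ?_, ?_⟩
      left_inv := ?_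
      right_inv := ?_ }
  · obtain ⟨A, h1, h2, j, hj, h3⟩ := A
    have hj0 : j = 0 := Fin.ext hj
    rw [hj0] at h3
    exact Bcz_parts ((isOSASM_iff n A).1 h1).1 h3
  · obtain ⟨A, h1, h2, j, hj, h3⟩ := A
    have hj0 : j = 0 := Fin.ext hj
    rw [hj0] at h3
    obtain ⟨h4, d, h5, h6⟩ := (isOSASM_iff n A).1 h1
    have hd : d = 0 := by
      by_contra hne
      have := h6 0 (fun e => hne e.symm)
      omega
    intro i
    refine h6 i.succ ?_
    rw [hd]
    exact Fin.succ_ne_zero i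
  · rw [isOSASM_iff]
    refine ⟨Bcz_mem B.2.1, 0, ?_, ?_⟩
    · rw [Bcz_zz]
      exact one_ne_zero
    · intro i
      refine Fin.cases ?_ (fun i => ?_) i
      · intro h
        exact absurd rfl h
      · intro _
        rw [Bcz_ss]
        exact B.2.2 i
  · exact ⟨0, rfl⟩
  · exact ⟨0, rfl, rfl⟩
  · rintro ⟨A, h1, h2, j, hj, h3⟩
    have hj0 : j = 0 := Fin.ext hj
    rw [hj0] at h3
    exact Subtype.ext (Bcz_eq ((isOSASM_iff n A).1 h1).1 h3)
  · rintro ⟨B, h1⟩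
    exact Subtype.ext rfl

theorem nref_zero_neg (n : ℕ) : Nref n (-1) 0 = 0 := by
  have he : IsEmpty {A : Matrix (Fin (2 * n + 1)) (Fin (2 * n + 1)) ℤ //
      ODD.IsOSASM n A ∧ (∃ d, A d d = -1) ∧ ∃ j : Fin (2 * n + 1), (j : ℕ) = 0 ∧ A 0 j = 1} := by
    refine ⟨?_⟩
    rintro ⟨A, h1, ⟨e, he⟩, j, hj, h3⟩
    have hj0 : j = 0 := Fin.ext hj
    rw [hj0] at h3
    obtain ⟨h4, d, h5, h6⟩ := (isOSASM_iff n A).1 h1
    have hd : d = 0 := by
      by_contra hne
      have := h6 0 (fun e => hne e.symm)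
      omega
    have hed : e = 0 := by
      by_contra hne
      have := h6 e (fun h => hne (h.trans hd))
      omega
    rw [hed] at he
    omega
  unfold Nref
  exact Nat.card_of_isEmpty

private theorem Bcz_even_iff (m : ℕ) (A : Matrix (Fin (2 * m)) (Fin (2 * m)) ℤ) :
    IsEven m A ↔ A ∈ Sset (2 * m) 0 ∧ ∀ i, A i i = 0 := by
  constructor
  · rintro ⟨-, h2, h3, -, -, h6, h7⟩
    refine ⟨⟨h6, ?_, ?_⟩, h7⟩
    · intro i k
      simpa using h2 i k
    · intro i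
      simpa using h3 i
  · rintro ⟨⟨h1, h2, h3⟩, h7⟩
    have h2' : ∀ i k, (∑ j ∈ Finset.Iic k, A i j) = 0 ∨ (∑ j ∈ Finset.Iic k, A i j) = 1 := by
      intro i k
      simpa using h2 i k
    have h3' : ∀ i, (∑ j, A i j) = 1 := by
      intro i
      simpa using h3 i
    refine ⟨fun i j => entry_of_partial (A i) (h2' i) j, h2', h3', ?_, ?_, h1, h7⟩
    · intro j k
      have e : ∑ i ∈ Finset.Iic k, A i j = ∑ i ∈ Finset.Iic k, A j i :=
        Finset.sum_congr rfl fun i _ => h1 i j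
      rw [e]
      exact h2' j k
    · intro j
      have e : ∑ i, A i j = ∑ i, A j i := Finset.sum_congr rfl fun i _ => h1 i j
      rw [e]
      exact h3' j

theorem neven_eq (m : ℕ) : Neven m = cZ (2 * m) :=
  Nat.card_congr (Equiv.subtypeEquivRight fun A => Bcz_even_iff m A)

/-- the partner of `i` -/
private def Bcz_s (m : ℕ) (i : Fin (2 * m)) : Fin (2 * m) :=
  ⟨if (i : ℕ) % 2 = 0 then i + 1 else i - 1, by
    have h := i.2
    split_ifs <;> omega⟩

private theorem Bcz_s_val (m : ℕ) (i : Fin (2 * m)) :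
    ((Bcz_s m i : Fin (2 * m)) : ℕ) = if (i : ℕ) % 2 = 0 then (i : ℕ) + 1 else i - 1 := rfl

private theorem Bcz_s_symm (m : ℕ) (i j : Fin (2 * m)) (h : j = Bcz_s m i) : i = Bcz_s m j := by
  have h1 : (j : ℕ) = if (i : ℕ) % 2 = 0 then (i : ℕ) + 1 else i - 1 := by
    rw [h, Bcz_s_val]
  apply Fin.ext
  rw [Bcz_s_val]
  split_ifs at h1 ⊢ <;> omega

private theorem Bcz_s_ne (m : ℕ) (i : Fin (2 * m)) : i ≠ Bcz_s m i := by
  intro h
  have h1 : (i : ℕ) = if (i : ℕ) % 2 = 0 then (i : ℕ) + 1 else i - 1 := by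
    have h2 := congrArg (fun x : Fin (2 * m) => (x : ℕ)) h
    exact h2
  split_ifs at h1 <;> omega

private theorem Bcz_ex (m : ℕ) :
    (fun i j => if j = Bcz_s m i then (1 : ℤ) else 0 :
      Matrix (Fin (2 * m)) (Fin (2 * m)) ℤ) ∈ Sset (2 * m) 0 := by
  refine ⟨fun i j => ?_, fun i k => ?_, fun i => ?_⟩
  · show (if j = Bcz_s m i then (1 : ℤ) else 0) = if i = Bcz_s m j then (1 : ℤ) else 0
    by_cases h : j = Bcz_s m i
    · rw [if_pos h, if_pos (Bcz_s_symm m i j h)]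
    · rw [if_neg h, if_neg fun h' => h (Bcz_s_symm m j i h')]
  · rw [Pi.zero_apply, zero_add]
    show (∑ j ∈ Finset.Iic k, if j = Bcz_s m i then (1 : ℤ) else 0) = 0 ∨
      (∑ j ∈ Finset.Iic k, if j = Bcz_s m i then (1 : ℤ) else 0) = 1
    rw [Finset.sum_ite_eq']
    split_ifs
    · right; rfl
    · left; rfl
  · rw [Pi.zero_apply, zero_add]
    show (∑ j, if j = Bcz_s m i then (1 : ℤ) else 0) = 1
    rw [Finset.sum_ite_eq', if_pos (Finset.mem_univ _)]

theorem neven_pos (m : ℕ) : 0 < Neven m := by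
  rw [neven_eq]
  have hfin : Finite {A : Matrix (Fin (2 * m)) (Fin (2 * m)) ℤ //
      A ∈ Sset (2 * m) 0 ∧ ∀ i, A i i = 0} :=
    ((Sset_finite (2 * m) 0 (fun j => Or.inl rfl)).subset fun A hA => hA.1).to_subtype
  have hne : Nonempty {A : Matrix (Fin (2 * m)) (Fin (2 * m)) ℤ //
      A ∈ Sset (2 * m) 0 ∧ ∀ i, A i i = 0} :=
    ⟨⟨_, Bcz_ex m, fun i => if_neg (Bcz_s_ne m i)⟩⟩
  unfold cZ
  exact Nat.card_pos

end ODR
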