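import Pool.Agent.ODR.Defs

/-!
# ODR-GVal: coefficients and values of `g_N`

Plan. `g_N(t)` is the coefficient of `x^N` in `((1 - t x)(1 - x))^(-N-1)`. `gN_one`: `∑_{k ≤ N} C(N+k,N) C(2N-k,N) = C(3N+1,N)` (Vandermonde for
`C(N+k,k)`: Mathlib `Nat.sum_range_choose..`, `Finset.Nat.antidiagonal` and `PowerSeries.mk_one_pow_eq_mk_choose_add`:
`(1-x)^(-d-1) = ∑ C(d+n,d) x^n`; so the product of two copies with `d = N` is the one with `d = 2N+1`, coefficient of `x^N`: `C(3N+1, 2N+1)`).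
`gN_neg_even`, `gN_neg_odd`: coefficient of `x^N` in `(1+x)^(-N-1) (1-x)^(-N-1) = (1-x^2)^(-N-1)`; for the odd case also by the symmetry `k ↦ N - k`.
`gN_deriv`: `∑ k c_k = ∑ (N - k) c_k`.
-/

set_option autoImplicit false

namespace ODR

open Polynomial

private theorem gval_pow (d : ℕ) : (PowerSeries.mk 1 : PowerSeries ℂ) ^ (d + 1) =
    PowerSeries.mk fun n => ((Nat.choose (d + n) d : ℕ) : ℂ) :=
  PowerSeries.mk_one_pow_eq_mk_choose_add ℂ d

private noncomputable def gval_G (d : ℕ) : PowerSeries ℂ :=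
  PowerSeries.mk fun n => if Even n then ((Nat.choose (d + n / 2) d : ℕ) : ℂ) else 0

private noncomputable def gval_B : PowerSeries ℂ :=
  PowerSeries.rescale (-1 : ℂ) (PowerSeries.mk 1 : PowerSeries ℂ)

private theorem gval_B_pow (d : ℕ) : gval_B ^ (d + 1) =
    PowerSeries.mk fun n => (-1 : ℂ) ^ n * ((Nat.choose (d + n) d : ℕ) : ℂ) := by
  rw [gval_B, ← map_pow, gval_pow]
  ext n
  rw [PowerSeries.coeff_rescale, PowerSeries.coeff_mk, PowerSeries.coeff_mk]

private theorem gval_A_mul : (PowerSeries.mk 1 : PowerSeries ℂ) * (1 - PowerSeries.X) = 1 :=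
  PowerSeries.mk_one_mul_one_sub_eq_one ℂ

private theorem gval_B_mul : gval_B * (1 + PowerSeries.X) = 1 := by
  have h1 := congrArg (PowerSeries.rescale (-1 : ℂ)) gval_A_mul
  rw [map_mul, map_sub, map_one, PowerSeries.rescale_X, map_neg, map_one] at h1
  rw [gval_B]
  linear_combination h1

private theorem gval_G_succ (d : ℕ) :
    gval_G (d + 1) * (1 - PowerSeries.X ^ 2) = gval_G d := by
  ext n
  rw [mul_sub, mul_one, map_sub, PowerSeries.coeff_mul_X_pow']
  simp only [gval_G, PowerSeries.coeff_mk]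
  by_cases hn : 2 ≤ n
  · obtain ⟨m, rfl⟩ := Nat.exists_eq_add_of_le hn
    rw [if_pos hn]
    have h1 : Even (2 + m) ↔ Even m := by
      rw [Nat.even_add]
      simp
    have h2 : 2 + m - 2 = m := by omega
    rw [h2]
    by_cases hm : Even m
    · rw [if_pos (h1.2 hm), if_pos hm, if_pos (h1.2 hm)]
      have h3 : (2 + m) / 2 = m / 2 + 1 := by omega
      rw [h3]
      have h4 : d + 1 + (m / 2 + 1) = (d + (m / 2 + 1)) + 1 := by ring
      have h5 : d + 1 + m / 2 = d + (m / 2 + 1) := by ring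
      rw [h4, h5, Nat.choose_succ_succ]
      push_cast
      ring
    · rw [if_neg (fun h => hm (h1.1 h)), if_neg hm, if_neg (fun h => hm (h1.1 h)), sub_zero]
  · rw [if_neg hn, sub_zero]
    have h6 : n = 0 ∨ n = 1 := by omega
    rcases h6 with rfl | rfl
    · simp
    · simp

private theorem gval_G_zero : gval_G 0 * (1 - PowerSeries.X ^ 2) = 1 := by
  ext n
  rw [mul_sub, mul_one, map_sub, PowerSeries.coeff_mul_X_pow', PowerSeries.coeff_one]
  simp only [gval_G, PowerSeries.coeff_mk]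
  by_cases hn : 2 ≤ n
  · obtain ⟨m, rfl⟩ := Nat.exists_eq_add_of_le hn
    rw [if_pos hn]
    have h1 : Even (2 + m) ↔ Even m := by
      rw [Nat.even_add]
      simp
    have h2 : 2 + m - 2 = m := by omega
    rw [h2, if_neg (by omega : ¬ (2 + m = 0))]
    by_cases hm : Even m
    · rw [if_pos (h1.2 hm), if_pos hm, Nat.choose_zero_right, Nat.choose_zero_right, sub_self]
    · rw [if_neg (fun h => hm (h1.1 h)), if_neg hm, sub_zero]
  · rw [if_neg hn, sub_zero]
    have h6 : n = 0 ∨ n = 1 := by omega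
    rcases h6 with rfl | rfl
    · simp
    · simp

private theorem gval_ne : (1 - PowerSeries.X ^ 2 : PowerSeries ℂ) ≠ 0 := by
  intro h
  have h1 := gval_G_zero
  rw [h, mul_zero] at h1
  exact zero_ne_one h1

private theorem gval_AB (d : ℕ) :
    gval_B ^ (d + 1) * (PowerSeries.mk 1 : PowerSeries ℂ) ^ (d + 1) = gval_G d := by
  have hAB : gval_B * (PowerSeries.mk 1 : PowerSeries ℂ) * (1 - PowerSeries.X ^ 2) = 1 := by
    have h1 : gval_B * (PowerSeries.mk 1 : PowerSeries ℂ) * (1 - PowerSeries.X ^ 2) =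
        (gval_B * (1 + PowerSeries.X)) *
          ((PowerSeries.mk 1 : PowerSeries ℂ) * (1 - PowerSeries.X)) := by ring
    rw [h1, gval_A_mul, gval_B_mul, mul_one]
  induction d with
  | zero =>
    apply mul_right_cancel₀ gval_ne
    rw [gval_G_zero, zero_add, pow_one, pow_one, hAB]
  | succ d ih =>
    apply mul_right_cancel₀ gval_ne
    rw [gval_G_succ, ← ih]
    have h2 : gval_B ^ (d + 1 + 1) * (PowerSeries.mk 1 : PowerSeries ℂ) ^ (d + 1 + 1) *
        (1 - PowerSeries.X ^ 2) =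
        gval_B ^ (d + 1) * (PowerSeries.mk 1 : PowerSeries ℂ) ^ (d + 1) *
          (gval_B * (PowerSeries.mk 1 : PowerSeries ℂ) * (1 - PowerSeries.X ^ 2)) := by ring
    rw [h2, hAB, mul_one]

private theorem gval_sum (N : ℕ) :
    ∑ k ∈ Finset.range (N + 1), (-1 : ℂ) ^ k *
      (((N + k).choose N * (2 * N - k).choose N : ℕ) : ℂ) =
      if Even N then ((Nat.choose (N + N / 2) N : ℕ) : ℂ) else 0 := by
  have h1 := congrArg (PowerSeries.coeff N) (gval_AB N)
  rw [gval_B_pow, gval_pow, PowerSeries.coeff_mul,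
    Finset.Nat.sum_antidiagonal_eq_sum_range_succ_mk] at h1
  simp only [gval_G, PowerSeries.coeff_mk] at h1
  rw [← h1]
  refine Finset.sum_congr rfl fun k hk => ?_
  have hk1 : k ≤ N := Nat.lt_succ_iff.1 (Finset.mem_range.1 hk)
  have h2 : N + (N - k) = 2 * N - k := by omega
  rw [h2, Nat.cast_mul, mul_assoc]

private theorem gval_sum_one (N : ℕ) :
    ∑ k ∈ Finset.range (N + 1),
      (((N + k).choose N * (2 * N - k).choose N : ℕ) : ℂ) =
      ((Nat.choose (3 * N + 1) N : ℕ) : ℂ) := by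
  have h0 : (PowerSeries.mk 1 : PowerSeries ℂ) ^ (N + 1) *
      (PowerSeries.mk 1 : PowerSeries ℂ) ^ (N + 1) =
      (PowerSeries.mk 1 : PowerSeries ℂ) ^ ((2 * N + 1) + 1) := by
    rw [← pow_add]
    ring_nf
  have h1 := congrArg (PowerSeries.coeff N) h0
  rw [gval_pow, gval_pow, PowerSeries.coeff_mul,
    Finset.Nat.sum_antidiagonal_eq_sum_range_succ_mk] at h1
  simp only [PowerSeries.coeff_mk] at h1
  have h3 : 2 * N + 1 + N = 3 * N + 1 := by ring
  have h4 : (3 * N + 1).choose (2 * N + 1) = (3 * N + 1).choose N := by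
    rw [← Nat.choose_symm_of_eq_add (show 3 * N + 1 = N + (2 * N + 1) by ring)]
  rw [h3, h4] at h1
  rw [← h1]
  refine Finset.sum_congr rfl fun k hk => ?_
  have hk1 : k ≤ N := Nat.lt_succ_iff.1 (Finset.mem_range.1 hk)
  have h2 : N + (N - k) = 2 * N - k := by omega
  rw [h2, Nat.cast_mul]

private theorem gval_eval (N : ℕ) (x : ℂ) : (gN N).eval x =
    ∑ k ∈ Finset.range (N + 1), (((N + k).choose N * (2 * N - k).choose N : ℕ) : ℂ) * x ^ k := by
  rw [gN, eval_finsetSum]
  refine Finset.sum_congr rfl fun k _ => ?_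
  rw [eval_mul, eval_C, eval_pow, eval_X]

theorem gN_coeff (N k : ℕ) (hk : k ≤ N) :
    (gN N).coeff k = (((N + k).choose N * (2 * N - k).choose N : ℕ) : ℂ) := by
  rw [gN, finsetSum_coeff]
  simp only [coeff_C_mul_X_pow]
  rw [Finset.sum_ite_eq, if_pos (Finset.mem_range.2 (Nat.lt_succ_of_le hk))]

theorem gN_natDegree (N : ℕ) : (gN N).natDegree ≤ N := by
  rw [gN]
  refine natDegree_sum_le_of_forall_le _ _ fun k hk => ?_
  exact (natDegree_C_mul_X_pow_le _ _).trans (Nat.lt_succ_iff.1 (Finset.mem_range.1 hk))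

theorem gN_zero_coeff (N : ℕ) : (gN N).coeff 0 = ((2 * N).choose N : ℕ) := by
  rw [gN_coeff N 0 (Nat.zero_le N), Nat.add_zero, Nat.choose_self, one_mul, Nat.sub_zero]

theorem gN_pal (N k : ℕ) (hk : k ≤ N) : (gN N).coeff (N - k) = (gN N).coeff k := by
  rw [gN_coeff N k hk, gN_coeff N (N - k) (Nat.sub_le N k)]
  have h1 : N + (N - k) = 2 * N - k := by omega
  have h2 : 2 * N - (N - k) = N + k := by omega
  rw [h1, h2, Nat.mul_comm]

theorem gN_one (N : ℕ) : (gN N).eval 1 = ((3 * N + 1).choose N : ℕ) := by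
  rw [gval_eval, ← gval_sum_one]
  simp only [one_pow, mul_one]

theorem gN_neg_even (n : ℕ) : (gN (2 * n)).eval (-1) = ((3 * n).choose n : ℕ) := by
  rw [gval_eval]
  have h1 := gval_sum (2 * n)
  rw [if_pos (even_two_mul n)] at h1
  have h2 : 2 * n + 2 * n / 2 = 3 * n := by omega
  have h3 : (3 * n).choose (2 * n) = (3 * n).choose n := by
    rw [← Nat.choose_symm_of_eq_add (show 3 * n = n + 2 * n by ring)]
  rw [h2, h3] at h1
  rw [← h1]
  exact Finset.sum_congr rfl fun k _ => mul_comm _ _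

theorem gN_neg_odd (n : ℕ) : (gN (2 * n + 1)).eval (-1) = 0 := by
  rw [gval_eval]
  have h1 := gval_sum (2 * n + 1)
  rw [if_neg (by rw [Nat.not_even_iff_odd]; exact odd_two_mul_add_one n)] at h1
  rw [← h1]
  exact Finset.sum_congr rfl fun k _ => mul_comm _ _

theorem gN_deriv (N : ℕ) : 2 * (derivative (gN N)).eval 1 = N * (gN N).eval 1 := by
  have h1 : (derivative (gN N)).eval 1 = ∑ k ∈ Finset.range (N + 1),
      (k : ℂ) * (gN N).coeff k := by
    have h2 : derivative (gN N) = ∑ k ∈ Finset.range (N + 1),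
        C ((((N + k).choose N * (2 * N - k).choose N : ℕ) : ℂ) * k) * X ^ (k - 1) := by
      rw [gN, derivative_sum]
      exact Finset.sum_congr rfl fun k _ => derivative_C_mul_X_pow _ _
    rw [h2, eval_finsetSum]
    refine Finset.sum_congr rfl fun k hk => ?_
    rw [eval_mul, eval_C, eval_pow, eval_X, one_pow, mul_one,
      gN_coeff N k (Nat.lt_succ_iff.1 (Finset.mem_range.1 hk)), mul_comm]
  have h3 : (gN N).eval 1 = ∑ k ∈ Finset.range (N + 1), (gN N).coeff k := by
    rw [gval_eval]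
    refine Finset.sum_congr rfl fun k hk => ?_
    rw [one_pow, mul_one, gN_coeff N k (Nat.lt_succ_iff.1 (Finset.mem_range.1 hk))]
  have h4 : ∑ k ∈ Finset.range (N + 1), (k : ℂ) * (gN N).coeff k =
      ∑ k ∈ Finset.range (N + 1), ((N : ℂ) - k) * (gN N).coeff k := by
    rw [← Finset.sum_range_reflect]
    refine Finset.sum_congr rfl fun k hk => ?_
    have hk1 : k ≤ N := Nat.lt_succ_iff.1 (Finset.mem_range.1 hk)
    have h5 : N + 1 - 1 - k = N - k := by omega
    rw [h5, gN_pal N k hk1, Nat.cast_sub hk1]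
  have h6 : (N : ℂ) * ∑ k ∈ Finset.range (N + 1), (gN N).coeff k =
      ∑ k ∈ Finset.range (N + 1), (k : ℂ) * (gN N).coeff k +
        ∑ k ∈ Finset.range (N + 1), ((N : ℂ) - k) * (gN N).coeff k := by
    rw [← Finset.sum_add_distrib, Finset.mul_sum]
    exact Finset.sum_congr rfl fun k _ => by ring
  rw [h1, h3, h6, ← h4, two_mul]

end ODR
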