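import Pool.Agent.ODR.Chk
import Pool.Agent.ODD.MOM

/-!
# ODR-Lac: lacunary polynomials, uniqueness of the Pade forms

Plan. `lac` by induction on `m`, or with `ODD.mom` (module `Pool.Agent.ODD.MOM`, may be imported: if `G = (X-1)^k H` and `P` has degree
at most `k` then `sum_e G_e P(e) = P_k k! H(1)`). Induction: `m = 0`: `Ω` empty. `m + 1`: let `e0` be an element of `Ω` (if empty, trivial); write
`G = X^(e) G'` with `e` the smallest exponent (`X^e` is coprime to `X - 1`, so `(X-1)^(m+1) ∣ G'`); `derivative G'` has at most `m` exponents (the constant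
term is lost) and is divisible by `(X-1)^m`, so it is `0`, `G'` is constant and vanishes at `1`.
`pad_uniq`: `G = (1-X)^(2N+1) P = A - X^(2N+1) B` has exponents in `range (N+1) ∪ Icc (2N+1) (3N+1)` (`2N+2` numbers), and `P.eval 1 = 0` gives
`(X-1)^(2N+2) ∣ G`; so `G = 0`, `P = 0`, and `A = X^(2N+1) B` with `natDegree A ≤ N` gives `A = B = 0`. `uniq` is `pad_uniq` with `A = - C (..) * chk N P`,
`B = chk N (chk N P)`.
-/

set_option autoImplicit false

namespace ODR

open Polynomial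

theorem lac (m : ℕ) (Ω : Finset ℕ) (hΩ : Ω.card ≤ m) (G : ℂ[X])
    (hG : ∀ e, e ∉ Ω → G.coeff e = 0) (hd : (X - 1) ^ m ∣ G) : G = 0 := by
  by_contra hne
  obtain ⟨e0, he0⟩ : ∃ e, G.coeff e ≠ 0 := by
    by_contra hcon
    apply hne
    ext e
    rw [coeff_zero]
    by_contra h1
    exact hcon ⟨e, h1⟩
  have hmem : e0 ∈ Ω := by
    by_contra h1
    exact he0 (hG e0 h1)
  obtain ⟨H, hH⟩ := hd
  have hpos : 0 < Ω.card := Finset.card_pos.2 ⟨e0, hmem⟩
  have hdeg : (∏ e ∈ Ω.erase e0, (X - C (e : ℂ))).natDegree = Ω.card - 1 := by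
    rw [natDegree_prod_of_monic _ _ (fun e _ => monic_X_sub_C _)]
    simp only [natDegree_X_sub_C]
    rw [Finset.sum_const, smul_eq_mul, mul_one, Finset.card_erase_of_mem hmem]
  have hlt : (∏ e ∈ Ω.erase e0, (X - C (e : ℂ))).natDegree < m := by omega
  have key := ODD.mom m G H hH (∏ e ∈ Ω.erase e0, (X - C (e : ℂ))) hlt.le (G.natDegree + 1)
    (Nat.lt_succ_self _)
  rw [coeff_eq_zero_of_natDegree_lt hlt, zero_mul, zero_mul] at key
  rw [Finset.sum_eq_single e0] at key
  · rcases mul_eq_zero.1 key with h1 | h1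
    · exact he0 h1
    · rw [eval_prod, Finset.prod_eq_zero_iff] at h1
      obtain ⟨e, he, h2⟩ := h1
      rw [eval_sub, eval_X, eval_C, sub_eq_zero] at h2
      exact (Finset.ne_of_mem_erase he) (Nat.cast_injective h2).symm
  · intro e _ hee
    by_cases h1 : e ∈ Ω
    · have h2 : (∏ e' ∈ Ω.erase e0, (X - C (e' : ℂ))).eval (e : ℂ) = 0 := by
        rw [eval_prod]
        refine Finset.prod_eq_zero (Finset.mem_erase.2 ⟨hee, h1⟩) ?_
        rw [eval_sub, eval_X, eval_C, sub_self]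
      rw [h2, mul_zero]
    · rw [hG e h1, zero_mul]
  · intro h1
    exfalso
    exact h1 (Finset.mem_range.2 (Nat.lt_succ_of_le (le_natDegree_of_ne_zero he0)))

theorem pad_uniq (N : ℕ) (P A B : ℂ[X]) (hA : A.natDegree ≤ N) (hB : B.natDegree ≤ N)
    (h : (1 - X) ^ (2 * N + 1) * P = A - X ^ (2 * N + 1) * B) (h1 : P.eval 1 = 0) :
    P = 0 ∧ A = 0 ∧ B = 0 := by
  have hdvd : (X - 1) ^ (2 * N + 2) ∣ (1 - X) ^ (2 * N + 1) * P := by
    have h2 : (X - 1 : ℂ[X]) ∣ P := by
      have h3 := dvd_iff_isRoot.2 h1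
      rwa [C_1] at h3
    have h4 : (X - 1 : ℂ[X]) ^ (2 * N + 1) ∣ (1 - X) ^ (2 * N + 1) := by
      refine pow_dvd_pow_of_dvd ?_ _
      refine ⟨-1, ?_⟩
      ring
    have h5 : (X - 1 : ℂ[X]) ^ (2 * N + 2) = (X - 1) ^ (2 * N + 1) * (X - 1) := pow_succ _ _
    rw [h5]
    exact mul_dvd_mul h4 h2
  have hco : ∀ e, (A - X ^ (2 * N + 1) * B).coeff e =
      A.coeff e - (if 2 * N + 1 ≤ e then B.coeff (e - (2 * N + 1)) else 0) := by
    intro e
    rw [coeff_sub, coeff_X_pow_mul']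
  have hz : (1 - X) ^ (2 * N + 1) * P = 0 := by
    refine lac (2 * N + 2) (Finset.range (N + 1) ∪ Finset.Icc (2 * N + 1) (3 * N + 1)) ?_ _ ?_ hdvd
    · refine (Finset.card_union_le _ _).trans ?_
      rw [Finset.card_range, Nat.card_Icc]
      omega
    · intro e he
      rw [Finset.mem_union, Finset.mem_range, Finset.mem_Icc] at he
      have he1 : ¬ e < N + 1 := fun h6 => he (Or.inl h6)
      have he2 : ¬ (2 * N + 1 ≤ e ∧ e ≤ 3 * N + 1) := fun h6 => he (Or.inr h6)
      rw [h, hco, coeff_eq_zero_of_natDegree_lt (by omega)]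
      split_ifs with h7
      · rw [coeff_eq_zero_of_natDegree_lt (by omega), sub_zero]
      · rw [sub_zero]
  have hne : (1 - X : ℂ[X]) ≠ 0 := by
    intro h6
    have h7 := congrArg (eval 0) h6
    rw [eval_sub, eval_one, eval_X, eval_zero, sub_zero] at h7
    exact one_ne_zero h7
  have hA0 : A = 0 := by
    ext e
    rw [coeff_zero]
    by_cases he : e ≤ N
    · have h6 := hco e
      rw [← h, hz, coeff_zero, if_neg (by omega), sub_zero] at h6
      exact h6.symm
    · exact coeff_eq_zero_of_natDegree_lt (by omega)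
  refine ⟨?_, hA0, ?_⟩
  · rcases mul_eq_zero.1 hz with h6 | h6
    · exact absurd h6 (pow_ne_zero _ hne)
    · exact h6
  · rw [hz, hA0, zero_sub] at h
    rcases mul_eq_zero.1 (neg_eq_zero.1 h.symm) with h6 | h6
    · exact absurd h6 (pow_ne_zero _ X_ne_zero)
    · exact h6

theorem uniq (N : ℕ) (P : ℂ[X]) (h : cyc N (2 * N + 1) P = 0) (h1 : P.eval 1 = 0) : P = 0 := by
  have h2 : (1 - X) ^ (2 * N + 1) * P =
      -(C ((-1) ^ (N + (2 * N + 1))) * chk N P) - X ^ (2 * N + 1) * chk N (chk N P) := by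
    rw [cyc] at h
    linear_combination h
  refine (pad_uniq N P _ _ ?_ (chk_natDegree N _) h2 h1).1
  rw [natDegree_neg]
  exact (natDegree_C_mul_le _ _).trans (chk_natDegree N P)

end ODR
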