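import Pool.Agent.ODR.Defs

/-!
# ODR-PadG: `(1-X)^(2N+1) g_N` has no coefficients between `N + 1` and `2 N`

Plan. The coefficient of `X^k` in `(1-X)^(2N+1) g_N` is `∑_i (-1)^i C(2N+1, i) C(N+k-i, N) C(2N-k+i, N)` over `i ≤ 2N+1` with `0 ≤ k - i ≤ N`.
For `N < k ≤ 2N` the two binomials are the values of the polynomials `p(i) = ∏_{j<N} (N+k-i-j) / N!`, `q(i) = ∏_{j<N} (2N-k+i-j) / N!`, and these polynomials
vanish for the missing `i`: `p(i) = 0` for `k < i ≤ 2N+1` (`0 ≤ N+k-i < N`), `q(i) = 0` for `0 ≤ i < k - N`. So the coefficient is the `(2N+1)`-st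
finite difference of a polynomial of degree `2N`, which is `0`: `Finset.sum_range_choose_mul_..`, in Mathlib for instance
`Polynomial.sum_range_choose_mul_eval..`/`fwdDiff_iter_eq_zero_of_degree_lt` (search `fwdDiff`), or
`∑_i (-1)^i C(n,i) P(i) = 0` by induction. A power series proof is also possible.
The rest (`A` = part of degree `≤ N`, `- X^(2N+1) B` = part of degree `≥ 2N+1`, total degree `3N+1`): put `A = ∑_{k ≤ N} coeff k X^k`,
`B = -∑_{k ≤ N} coeff (2N+1+k) X^k`.
-/

set_option autoImplicit false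

namespace ODR

open Polynomial

private theorem padg_coeff (N k : ℕ) : (gN N).coeff k =
    if k ≤ N then ((((N + k).choose N * (2 * N - k).choose N : ℕ) : ℂ)) else 0 := by
  rw [gN, finsetSum_coeff]
  simp only [coeff_C_mul, coeff_X_pow]
  by_cases h : k ≤ N
  · rw [if_pos h, Finset.sum_eq_single k]
    · rw [if_pos rfl, mul_one]
    · intro b _ hb
      rw [if_neg (Ne.symm hb), mul_zero]
    · intro hk
      exact absurd (Finset.mem_range.2 (Nat.lt_succ_of_le h)) hk
  · rw [if_neg h]
    refine Finset.sum_eq_zero fun b hb => ?_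
    have := Finset.mem_range.1 hb
    rw [if_neg (by omega), mul_zero]

private theorem padg_bin (n i : ℕ) : (((1 - X) ^ n : ℂ[X])).coeff i = (-1) ^ i * (n.choose i : ℂ) := by
  have h : ((1 - X) ^ n : ℂ[X]) = ∑ m ∈ Finset.range (n + 1), C ((-1) ^ m * (n.choose m : ℂ)) * X ^ m := by
    rw [sub_eq_neg_add, add_pow]
    refine Finset.sum_congr rfl fun m _ => ?_
    rw [one_pow, mul_one, neg_pow, C_mul, C_pow, C_neg, C_1, map_natCast]
    ring
  rw [h, finsetSum_coeff]
  simp only [coeff_C_mul, coeff_X_pow]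
  by_cases hi : i ≤ n
  · rw [Finset.sum_eq_single i]
    · rw [if_pos rfl, mul_one]
    · intro b _ hb
      rw [if_neg (Ne.symm hb), mul_zero]
    · intro hk
      exact absurd (Finset.mem_range.2 (Nat.lt_succ_of_le hi)) hk
  · rw [Nat.choose_eq_zero_of_lt (not_le.1 hi), Nat.cast_zero, mul_zero]
    refine Finset.sum_eq_zero fun b hb => ?_
    have := Finset.mem_range.1 hb
    rw [if_neg (by omega), mul_zero]

/-- the interpolating polynomial -/
private noncomputable def padgR (N : ℕ) : ℂ[X] :=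
  (descPochhammer ℂ N).comp (X + C (N : ℂ)) * (descPochhammer ℂ N).comp (C (2 * N : ℂ) - X)

private theorem padg_deg (N : ℕ) : (padgR N).natDegree < 2 * N + 1 := by
  have h1 : ((descPochhammer ℂ N).comp (X + C (N : ℂ))).natDegree ≤ N := by
    rw [natDegree_comp, descPochhammer_natDegree, natDegree_X_add_C, mul_one]
  have h2 : ((descPochhammer ℂ N).comp (C (2 * N : ℂ) - X)).natDegree ≤ N := by
    rw [natDegree_comp, descPochhammer_natDegree]
    have h3 : (C (2 * N : ℂ) - X).natDegree ≤ 1 := by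
      refine (natDegree_sub_le _ _).trans ?_
      rw [natDegree_C, natDegree_X]
      simp
    calc N * (C (2 * N : ℂ) - X).natDegree ≤ N * 1 := Nat.mul_le_mul_left _ h3
      _ = N := mul_one N
  have h3 := natDegree_mul_le (p := (descPochhammer ℂ N).comp (X + C (N : ℂ)))
    (q := (descPochhammer ℂ N).comp (C (2 * N : ℂ) - X))
  rw [padgR]
  omega

private theorem padg_eval (N a b : ℕ) (z : ℂ) (h1 : z + N = a) (h2 : 2 * N - z = b) :
    (padgR N).eval z = (N.factorial : ℂ) ^ 2 * ((a.choose N * b.choose N : ℕ) : ℂ) := by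
  have e1 : (z + (N : ℂ)) = (a : ℂ) := h1
  rw [padgR, eval_mul, eval_comp, eval_comp, eval_add, eval_X, eval_C, eval_sub, eval_C, eval_X, e1, h2,
    descPochhammer_eval_eq_descFactorial, descPochhammer_eval_eq_descFactorial,
    Nat.descFactorial_eq_factorial_mul_choose, Nat.descFactorial_eq_factorial_mul_choose]
  push_cast
  ring

private theorem padg_mid (N k : ℕ) (hk : N < k) (hk2 : k ≤ 2 * N) :
    ((1 - X) ^ (2 * N + 1) * gN N).coeff k = 0 := by
  have hF : ((N.factorial : ℂ)) ^ 2 ≠ 0 := by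
    exact pow_ne_zero _ (Nat.cast_ne_zero.2 (Nat.factorial_ne_zero N))
  have h0 := congrFun (fwdDiff_iter_eq_zero_of_degree_lt (padg_deg N)) ((k : ℂ) - (2 * N + 1 : ℕ))
  rw [fwdDiff_iter_eq_sum_shift, ← Finset.sum_range_reflect, Pi.zero_apply] at h0
  have h1 : ((N.factorial : ℂ)) ^ 2 * ((1 - X) ^ (2 * N + 1) * gN N).coeff k = 0 := by
    rw [coeff_mul, Finset.Nat.sum_antidiagonal_eq_sum_range_succ
      (fun i j => ((1 - X) ^ (2 * N + 1) : ℂ[X]).coeff i * (gN N).coeff j) k]
    have h2 : ∑ i ∈ Finset.range (2 * N + 1 + 1), ((N.factorial : ℂ)) ^ 2 *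
        (if i ≤ k then (-1) ^ i * ((2 * N + 1).choose i : ℂ) * (gN N).coeff (k - i) else 0) = 0 := by
      refine Eq.trans (Finset.sum_congr rfl fun i hi => ?_) h0
      have hi' := Finset.mem_range.1 hi
      have e1 : 2 * N + 1 + 1 - 1 - i = 2 * N + 1 - i := by omega
      have e2 : 2 * N + 1 - (2 * N + 1 - i) = i := by omega
      have e3 : (2 * N + 1).choose (2 * N + 1 - i) = (2 * N + 1).choose i :=
        Nat.choose_symm (by omega)
      rw [e1, e2, e3]
      have e4 : (padgR N).eval ((k : ℂ) - (2 * N + 1 : ℕ) + (2 * N + 1 - i) • (1 : ℂ)) =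
          (N.factorial : ℂ) ^ 2 * (((N + k - i).choose N * (2 * N + i - k).choose N : ℕ) : ℂ) := by
        refine padg_eval N _ _ _ ?_ ?_
        · rw [nsmul_eq_mul, Nat.cast_sub (by omega : i ≤ 2 * N + 1), Nat.cast_sub (by omega : i ≤ N + k)]
          push_cast
          ring
        · rw [nsmul_eq_mul, Nat.cast_sub (by omega : i ≤ 2 * N + 1), Nat.cast_sub (by omega : k ≤ 2 * N + i)]
          push_cast
          ring
      rw [e4, zsmul_eq_mul]
      push_cast
      by_cases hik : i ≤ k
      · rw [if_pos hik, padg_coeff]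
        by_cases hN : k - i ≤ N
        · have e5 : N + (k - i) = N + k - i := by omega
          have e6 : 2 * N - (k - i) = 2 * N + i - k := by omega
          rw [if_pos hN, e5, e6]
          push_cast
          ring
        · have e7 : (2 * N + i - k).choose N = 0 := Nat.choose_eq_zero_of_lt (by omega)
          rw [if_neg hN, e7]
          push_cast
          ring
      · have e7 : (N + k - i).choose N = 0 := Nat.choose_eq_zero_of_lt (by omega)
        rw [if_neg hik, e7]
        push_cast
        ring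
    rw [← h2, Finset.mul_sum]
    have hsub : Finset.range (k + 1) ⊆ Finset.range (2 * N + 1 + 1) := by
      intro x hx
      rw [Finset.mem_range] at hx ⊢
      omega
    rw [← Finset.sum_subset hsub]
    · refine Finset.sum_congr rfl fun i hi => ?_
      have hi' := Finset.mem_range.1 hi
      rw [if_pos (by omega), padg_bin]
    · intro i _ hi
      rw [Finset.mem_range] at hi
      rw [if_neg (by omega), mul_zero]
  exact (mul_eq_zero.1 h1).resolve_left hF

theorem pad_g (N : ℕ) : ∃ A B : ℂ[X], A.natDegree ≤ N ∧ B.natDegree ≤ N ∧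
    (1 - X) ^ (2 * N + 1) * gN N = A - X ^ (2 * N + 1) * B := by
  obtain ⟨F, hF⟩ : ∃ F, F = (1 - X) ^ (2 * N + 1) * gN N := ⟨_, rfl⟩
  have hco : ∀ (c : ℕ → ℂ) (k : ℕ), (∑ j ∈ Finset.range (N + 1), C (c j) * X ^ j).coeff k =
      if k ≤ N then c k else 0 := by
    intro c k
    rw [finsetSum_coeff]
    simp only [coeff_C_mul, coeff_X_pow]
    by_cases h : k ≤ N
    · rw [if_pos h, Finset.sum_eq_single k]
      · rw [if_pos rfl, mul_one]
      · intro b _ hb
        rw [if_neg (Ne.symm hb), mul_zero]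
      · intro hk
        exact absurd (Finset.mem_range.2 (Nat.lt_succ_of_le h)) hk
    · rw [if_neg h]
      refine Finset.sum_eq_zero fun b hb => ?_
      have := Finset.mem_range.1 hb
      rw [if_neg (by omega), mul_zero]
  have hdeg : ∀ c : ℕ → ℂ, (∑ j ∈ Finset.range (N + 1), C (c j) * X ^ j).natDegree ≤ N := by
    intro c
    rw [natDegree_le_iff_coeff_eq_zero]
    intro k hk
    rw [hco, if_neg (by omega)]
  have hFd : F.natDegree ≤ 3 * N + 1 := by
    have h1 : (gN N).natDegree ≤ N := by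
      rw [natDegree_le_iff_coeff_eq_zero]
      intro k hk
      rw [padg_coeff, if_neg (by omega)]
    have h2 : (((1 - X) ^ (2 * N + 1) : ℂ[X])).natDegree ≤ 2 * N + 1 := by
      rw [natDegree_le_iff_coeff_eq_zero]
      intro k hk
      rw [padg_bin, Nat.choose_eq_zero_of_lt (by omega), Nat.cast_zero, mul_zero]
    have h3 := natDegree_mul_le (p := ((1 - X) ^ (2 * N + 1) : ℂ[X])) (q := gN N)
    rw [hF]
    omega
  refine ⟨∑ j ∈ Finset.range (N + 1), C (F.coeff j) * X ^ j,
    ∑ j ∈ Finset.range (N + 1), C (-F.coeff (2 * N + 1 + j)) * X ^ j, hdeg _, hdeg _, ?_⟩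
  rw [← hF]
  ext k
  rw [coeff_sub, hco, coeff_X_pow_mul', hco]
  rcases Nat.lt_or_ge N k with h | h
  · rw [if_neg (by omega)]
    rcases Nat.lt_or_ge (2 * N) k with h2 | h2
    · rw [if_pos (by omega)]
      by_cases h3 : k - (2 * N + 1) ≤ N
      · rw [if_pos h3]
        have e : 2 * N + 1 + (k - (2 * N + 1)) = k := by omega
        rw [e]
        ring
      · rw [if_neg h3, coeff_eq_zero_of_natDegree_lt (by omega)]
        ring
    · rw [if_neg (by omega), hF, padg_mid N k h h2]
      ring
  · rw [if_pos h, if_neg (by omega)]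
    ring

end ODR
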