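import Pool.Agent.ODR.Chk
import Pool.Agent.ODR.Lac
import Pool.Agent.ODR.PadG
import Pool.Agent.ODR.GVal

/-!
# ODR-CycG: `g_N` satisfies the three term relation

Plan. `pad_g`: `(1-X)^(2N+1) g = A - X^(2N+1) B`. Substitute `t ↦ 1 - 1/t` and multiply by `t^(3N+1)` (`chk_eval`, `t ≠ 0, 1`, `poly_ext`):
`(1-X)^(2N+1) * chk N B = chk N g - X^(2N+1) * chk N A`  (`chk_pad`, stated for general `P A B`; note `(t-1)^(2N+1) = -(1-t)^(2N+1)`).
By `pad_uniq` (difference of the two relations scaled so that the value of the first polynomial at `1` is `0`; `(gN N).eval 1 ≠ 0` by `gN_one`):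
with `c = (chk N B).eval 1 / (gN N).eval 1`: `chk N B = c g`, `chk N g = c A`, `chk N A = c B`. Constant coefficients: `(chk N g).coeff 0 = (-1)^N (gN N).coeff N`
(only `k = N` has a constant term) `= (-1)^N C(2N,N)` and `A.coeff 0 = (gN N).coeff 0 = C(2N,N)` (`N ≥ 0`, compare the constant coefficients in `pad_g`,
`2N+1 > 0`). So `c = (-1)^N`, `A = (-1)^N chk N g`, `B = chk N (chk N g)` and the relation is `cyc N (2N+1) g = 0` (`(-1)^(N + (2N+1)) = -(-1)^N`).
`cyc_uniq`: `uniq` for `P - C λ * gN N`.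
-/

set_option autoImplicit false

namespace ODR

open Polynomial

theorem chk_pad (N : ℕ) (P A B : ℂ[X]) (hP : P.natDegree ≤ N) (hA : A.natDegree ≤ N)
    (hB : B.natDegree ≤ N) (h : (1 - X) ^ (2 * N + 1) * P = A - X ^ (2 * N + 1) * B) :
    (1 - X) ^ (2 * N + 1) * chk N B = chk N P - X ^ (2 * N + 1) * chk N A := by
  apply poly_ext
  intro t ht ht1
  have hs := congrArg (Polynomial.eval (1 - 1 / t)) h
  simp only [eval_mul, eval_pow, eval_sub, eval_one, eval_X] at hs ⊢
  rw [chk_eval N P hP t ht, chk_eval N A hA t ht, chk_eval N B hB t ht]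
  have h1 : t ^ (2 * N + 1) * (1 - (1 - 1 / t)) ^ (2 * N + 1) = 1 := by
    rw [← mul_pow]
    have : t * (1 - (1 - 1 / t)) = 1 := by
      field_simp
      ring
    rw [this, one_pow]
  have h2 : t ^ (2 * N + 1) * (1 - 1 / t) ^ (2 * N + 1) = (t - 1) ^ (2 * N + 1) := by
    rw [← mul_pow]
    have : t * (1 - 1 / t) = t - 1 := by
      field_simp
    rw [this]
  have h3 : (1 - t) ^ (2 * N + 1) = -(t - 1) ^ (2 * N + 1) := by
    have : (1 - t) = -(t - 1) := by ring
    rw [this, Odd.neg_pow ⟨N, rfl⟩]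
  rw [h3]
  linear_combination -(t ^ (3 * N + 1)) * hs + t ^ N * P.eval (1 - 1 / t) * h1
    + t ^ N * B.eval (1 - 1 / t) * h2

private lemma cycg_chk_zero (N : ℕ) (P : ℂ[X]) :
    (chk N P).eval 0 = (-1) ^ N * P.coeff N := by
  unfold chk
  rw [eval_finsetSum, Finset.sum_eq_single N]
  · simp only [eval_mul, eval_C, eval_pow, eval_X, eval_sub, eval_one, Nat.sub_self, pow_zero]
    ring
  · intro k hk hkN
    have h1 : N - k ≠ 0 := by
      have := Finset.mem_range.1 hk
      omega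
    simp only [eval_mul, eval_C, eval_pow, eval_X, eval_sub, eval_one]
    rw [zero_pow h1]
    ring
  · intro h
    exact absurd (Finset.self_mem_range_succ N) h

private lemma cycg_one_ne (N : ℕ) : (gN N).eval 1 ≠ 0 := by
  rw [gN_one]
  have h : 0 < (3 * N + 1).choose N := Nat.choose_pos (by omega)
  exact_mod_cast h.ne'

private lemma cycg_zero_ne (N : ℕ) : (gN N).coeff 0 ≠ 0 := by
  rw [gN_zero_coeff]
  have h : 0 < (2 * N).choose N := Nat.choose_pos (by omega)
  exact_mod_cast h.ne'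

private lemma cycg_deg {N : ℕ} {A B : ℂ[X]} (c : ℂ) (hA : A.natDegree ≤ N)
    (hB : B.natDegree ≤ N) : (A - C c * B).natDegree ≤ N :=
  (natDegree_sub_le _ _).trans (max_le hA ((natDegree_C_mul_le c B).trans hB))

theorem cyc_g (N : ℕ) : cyc N (2 * N + 1) (gN N) = 0 := by
  obtain ⟨A, B, hA, hB, h⟩ := pad_g N
  have h' := chk_pad N (gN N) A B (gN_natDegree N) hA hB h
  have hu := cycg_one_ne N
  obtain ⟨c, hc⟩ : ∃ c : ℂ, c = (chk N B).eval 1 / (gN N).eval 1 := ⟨_, rfl⟩
  have hcu : c * (gN N).eval 1 = (chk N B).eval 1 := by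
    rw [hc, div_mul_cancel₀ _ hu]
  obtain ⟨e1, e2, e3⟩ := pad_uniq N (chk N B - C c * gN N) (chk N (gN N) - C c * A)
    (chk N A - C c * B) (cycg_deg c (chk_natDegree N _) hA) (cycg_deg c (chk_natDegree N _) hB)
    (by linear_combination h' - C c * h)
    (by rw [eval_sub, eval_mul, eval_C, hcu, sub_self])
  have e2' : chk N (gN N) = C c * A := sub_eq_zero.1 e2
  have e3' : chk N A = C c * B := sub_eq_zero.1 e3
  have hc1 : c = (-1) ^ N := by
    have h0 := congrArg (Polynomial.eval 0) h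
    simp only [eval_mul, eval_pow, eval_sub, eval_one, eval_X, sub_zero, one_pow, one_mul] at h0
    rw [zero_pow (Nat.succ_ne_zero (2 * N)), zero_mul, sub_zero] at h0
    have h1 := congrArg (Polynomial.eval 0) e2'
    rw [cycg_chk_zero, eval_mul, eval_C, ← h0, ← coeff_zero_eq_eval_zero] at h1
    have h2 := gN_pal N 0 (Nat.zero_le N)
    rw [Nat.sub_zero] at h2
    rw [h2] at h1
    exact (mul_right_cancel₀ (cycg_zero_ne N) h1).symm
  have hcc : c * c = 1 := by
    rw [hc1, ← mul_pow]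
    norm_num
  have hs : ((-1 : ℂ)) ^ (N + (2 * N + 1)) = -c := by
    rw [hc1, pow_add, Odd.neg_one_pow (⟨N, rfl⟩ : Odd (2 * N + 1))]
    ring
  unfold cyc
  rw [hs, e2', chk_C_mul, e3', ← mul_assoc (C c) (C c) B, ← C_mul, hcc, C_1, C_neg]
  have h5 : C c * C c = (1 : ℂ[X]) := by
    rw [← C_mul, hcc, C_1]
  linear_combination h - A * h5

theorem cyc_uniq (N : ℕ) (P : ℂ[X]) (h : cyc N (2 * N + 1) P = 0) :
    P = C (P.eval 1 / (gN N).eval 1) * gN N := by
  have h1 : P - C (P.eval 1 / (gN N).eval 1) * gN N = 0 := by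
    apply uniq N
    · rw [cyc_sub, cyc_C_mul, h, cyc_g, mul_zero, sub_zero]
    · rw [eval_sub, eval_mul, eval_C, div_mul_cancel₀ _ (cycg_one_ne N), sub_self]
  exact sub_eq_zero.1 h1

end ODR
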