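import Pool.Agent.ODR.Chk
import Pool.Agent.ODR.CycG
import Pool.Agent.ODR.GVal

/-!
# ODR-Drec: recursion

Plan. `D_base`: `cyc 2 5 (C (e/2) * X) = C e * ((X^2-X+1)^2 * (X (1-X)))` (direct computation: `chk 2 X = X (X-1) * 1`, i.e. `chk 2 X = X^(2-1) (X-1)`; `ring`),
so `P - C (e/2) * X` is `λ gN 2` by `cyc_uniq` (`2 * 2 + 1 = 5`), `gN 2 = 6 + 9 X + 6 X^2`; compare the constant coefficients.
`D_rec`: let `λ = P.eval 1 / (gN (2n)).eval 1`, `B = (1-X)^2 * (C e * P') - X^2 * (C e' * (P - C λ * gN (2n)))`. `B.eval 1 = 0`; `B` is palindromic of degree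
`2n+4` (`B.coeff (2n+4-k) = B.coeff k`), so `2 B'(1) = (2n+4) B(1) = 0` and `(1-X)^2 ∣ B`: `B = (1-X)^2 * Q`, `natDegree Q ≤ 2n+2`. (Another way: `B = (1-X) B1`,
`B1` antipalindromic of odd degree `2n+3`, so `B1.eval 1 = 0`.) Then `cyc (2n+2) (4n+5) Q = cyc (2n+4) (4n+3) ((1-X)^2 * Q)` (`cyc_shift`) and
`(1-X)^2 Q = B`: `cyc (2n+4) (4n+3) ((1-X)^2 * C e * P') = cyc (2n+2) (4n+5) (C e * P')`, and `cyc (2n+4) (4n+3) (X^2 * R) = (X (1-X))^2 * cyc (2n) (4n+1) R`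
for `natDegree R ≤ 2 n`: `X^2 (1-X)^2 R` with `cyc (2n+6) (4n+1)` (`cyc_shift` with `j = 2` and twice `cyc_T`; `2n+6 = (2n+4)+2`). With
`R = C e' * (P - C λ * gN (2n))` (`cyc_g` for `gN (2n)`) both sides give `e e' (X^2-X+1)^2 (X(1-X))^(2n+1)`, so `cyc (2n+2) (4n+5) Q = 0`, `Q = κ gN (2n+2)` by
`cyc_uniq` (`2 (2n+2) + 1 = 4n+5`), `κ` from the constant coefficients (`B.coeff 0 = e P'.coeff 0`).
-/

set_option autoImplicit false

namespace ODR

open Polynomial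

private theorem drec_chkX : chk 2 (X : ℂ[X]) = X * (X - 1) := by
  unfold chk
  rw [Finset.sum_range_succ, Finset.sum_range_succ, Finset.sum_range_succ, Finset.sum_range_zero]
  simp only [coeff_X_zero, coeff_X_one]
  have h2 : (X : ℂ[X]).coeff 2 = 0 := by
    rw [coeff_X]
    norm_num
  rw [h2]
  simp

private theorem drec_chkX2 : chk 2 (X * (X - 1) : ℂ[X]) = 1 - X := by
  unfold chk
  rw [Finset.sum_range_succ, Finset.sum_range_succ, Finset.sum_range_succ, Finset.sum_range_zero]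
  have h0 : (X * (X - 1) : ℂ[X]).coeff 0 = 0 := by
    rw [coeff_X_mul_zero]
  have h1 : (X * (X - 1) : ℂ[X]).coeff 1 = -1 := by
    rw [coeff_X_mul, coeff_sub, coeff_X_zero, coeff_one_zero]
    norm_num
  have h2 : (X * (X - 1) : ℂ[X]).coeff 2 = 1 := by
    rw [coeff_X_mul, coeff_sub, coeff_X_one, coeff_one]
    norm_num
  rw [h0, h1, h2]
  simp only [C_0, C_1, C_neg, zero_mul, zero_add, one_mul, neg_mul]
  ring

theorem D_base (P : ℂ[X]) (e : ℂ)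
    (h : cyc 2 5 P = C e * ((X ^ 2 - X + 1) ^ 2 * (X * (1 - X)))) :
    P = C (e / 2) * X + C (P.coeff 0 / 6) * gN 2 := by
  have hX : cyc 2 5 (X : ℂ[X]) = C 2 * ((X ^ 2 - X + 1) ^ 2 * (X * (1 - X))) := by
    unfold cyc
    rw [drec_chkX, drec_chkX2]
    have h1 : ((-1 : ℂ)) ^ (2 + 5) = -1 := by norm_num
    rw [h1]
    have h2 : (C (2 : ℂ) : ℂ[X]) = 2 := by
      rw [show (2 : ℂ) = ((2 : ℕ) : ℂ) by norm_num, C_eq_natCast]
      norm_num
    rw [h2]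
    simp only [C_neg, C_1]
    ring
  have h1 : cyc 2 (2 * 2 + 1) (P - C (e / 2) * X) = 0 := by
    rw [show (2 * 2 + 1 : ℕ) = 5 by norm_num, cyc_sub, h, cyc_C_mul, hX,
      ← mul_assoc (C (e / 2)) (C 2), ← C_mul, div_mul_cancel₀ e (two_ne_zero), sub_self]
  have hl := cyc_uniq 2 (P - C (e / 2) * X) h1
  generalize (P - C (e / 2) * X).eval 1 / (gN 2).eval 1 = l at hl
  have hc := congrArg (fun Q : ℂ[X] => Q.coeff 0) hl
  simp only [coeff_sub, coeff_C_mul, coeff_X_zero, mul_zero, sub_zero] at hc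
  rw [gN_zero_coeff] at hc
  have hch : ((2 * 2 : ℕ).choose 2 : ℕ) = 6 := by decide
  rw [hch] at hc
  have hl6 : l = P.coeff 0 / 6 := by
    rw [hc]
    push_cast
    field_simp
  rw [← hl6, ← hl]
  ring

private theorem drec_pal (K : ℕ) (P : ℂ[X]) (hP : P.natDegree ≤ K)
    (hs : ∀ k, k ≤ K → P.coeff (K - k) = P.coeff k) :
    2 * (derivative P).eval 1 = K * P.eval 1 := by
  have h1 : P.eval 1 = ∑ k ∈ Finset.range (K + 1), P.coeff k := by
    rw [eval_eq_sum_range' (Nat.lt_succ_of_le hP)]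
    apply Finset.sum_congr rfl
    intro k _
    rw [one_pow, mul_one]
  have h2 : (derivative P).eval 1 = ∑ k ∈ Finset.range (K + 1), P.coeff k * (k : ℂ) := by
    rw [derivative_eval, sum_over_range' _ _ (K + 1) (Nat.lt_succ_of_le hP)]
    · apply Finset.sum_congr rfl
      intro k _
      rw [one_pow, mul_one]
    · intro k
      rw [zero_mul, zero_mul]
  have h3 : ∑ k ∈ Finset.range (K + 1), P.coeff k * (k : ℂ)
      = ∑ k ∈ Finset.range (K + 1), P.coeff k * ((K : ℂ) - k) := by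
    rw [← Finset.sum_range_reflect]
    apply Finset.sum_congr rfl
    intro k hk
    have hk' : k ≤ K := Nat.lt_succ_iff.1 (Finset.mem_range.1 hk)
    rw [show K + 1 - 1 - k = K - k by omega, hs k hk', Nat.cast_sub hk']
  have h4 : ∑ k ∈ Finset.range (K + 1), P.coeff k * ((K : ℂ) - k)
      = K * ∑ k ∈ Finset.range (K + 1), P.coeff k
        - ∑ k ∈ Finset.range (K + 1), P.coeff k * (k : ℂ) := by
    rw [Finset.mul_sum, ← Finset.sum_sub_distrib]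
    apply Finset.sum_congr rfl
    intro k _
    ring
  rw [h2, h1]
  linear_combination h3 + h4

private theorem drec_fac (R : ℂ[X]) (h0 : R.eval 1 = 0) (h1 : (derivative R).eval 1 = 0) :
    ∃ S : ℂ[X], R = (1 - X) ^ 2 * S := by
  obtain ⟨S, hS⟩ := dvd_iff_isRoot.2 (show IsRoot R 1 from h0)
  have hS1 : S.eval 1 = 0 := by
    rw [hS, derivative_mul, eval_add, eval_mul, eval_mul] at h1
    simpa using h1
  obtain ⟨S', hS'⟩ := dvd_iff_isRoot.2 (show IsRoot S 1 from hS1)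
  refine ⟨S', ?_⟩
  rw [hS, hS', C_1]
  ring

theorem D_rec (n : ℕ) (hn : 1 ≤ n) (P P' : ℂ[X]) (hP : P.natDegree ≤ 2 * n)
    (hP' : P'.natDegree ≤ 2 * n + 2) (e e' : ℂ)
    (h : cyc (2 * n) (4 * n + 1) P =
      C e * ((X ^ 2 - X + 1) ^ 2 * (X * (1 - X)) ^ (2 * n - 1)))
    (h' : cyc (2 * n + 2) (4 * n + 5) P' =
      C e' * ((X ^ 2 - X + 1) ^ 2 * (X * (1 - X)) ^ (2 * n + 1)))
    (hs : ∀ k, k ≤ 2 * n → P.coeff (2 * n - k) = P.coeff k)
    (hs' : ∀ k, k ≤ 2 * n + 2 → P'.coeff (2 * n + 2 - k) = P'.coeff k) :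
    (1 - X) ^ 2 * (C e * P') =
      X ^ 2 * (C e' * (P - C (P.eval 1 / (gN (2 * n)).eval 1) * gN (2 * n))) +
        C (e * P'.coeff 0 / ((4 * n + 4).choose (2 * n + 2) : ℕ)) *
          ((1 - X) ^ 2 * gN (2 * n + 2)) := by
  obtain ⟨m, rfl⟩ : ∃ m, n = m + 1 := ⟨n - 1, by omega⟩
  obtain ⟨l, hl⟩ : ∃ l : ℂ, l = P.eval 1 / (gN (2 * (m + 1))).eval 1 := ⟨_, rfl⟩
  rw [← hl]
  obtain ⟨R, hR⟩ : ∃ R : ℂ[X], R = P - C l * gN (2 * (m + 1)) := ⟨_, rfl⟩
  rw [← hR]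
  have hg1 : (gN (2 * (m + 1))).eval 1 ≠ 0 := by
    rw [gN_one]
    exact Nat.cast_ne_zero.2 (Nat.choose_pos (by omega)).ne'
  have hR1 : R.eval 1 = 0 := by
    rw [hR, eval_sub, eval_mul, eval_C, hl, div_mul_cancel₀ _ hg1, sub_self]
  have hRd : R.natDegree ≤ 2 * (m + 1) := by
    rw [hR]
    have h1 : (C l * gN (2 * (m + 1))).natDegree ≤ 2 * (m + 1) :=
      le_trans (natDegree_C_mul_le _ _) (gN_natDegree _)
    exact le_trans (natDegree_sub_le _ _) (max_le hP h1)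
  have hRs : ∀ k, k ≤ 2 * (m + 1) → R.coeff (2 * (m + 1) - k) = R.coeff k := by
    intro k hk
    rw [hR, coeff_sub, coeff_sub, coeff_C_mul, coeff_C_mul, hs k hk, gN_pal _ k hk]
  have hR2 : (derivative R).eval 1 = 0 := by
    have h1 := drec_pal _ R hRd hRs
    rw [hR1, mul_zero] at h1
    exact (mul_eq_zero.1 h1).resolve_left two_ne_zero
  obtain ⟨S, hS⟩ := drec_fac R hR1 hR2
  have hSd : S.natDegree ≤ 2 * m := by
    by_cases hS0 : S = 0
    · rw [hS0, natDegree_zero]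
      exact Nat.zero_le _
    · have h1X : ((1 : ℂ[X]) - X) ≠ 0 := by
        intro h0
        have h2 := congrArg (fun Q : ℂ[X] => Q.coeff 0) h0
        simp at h2
      have h2 : ((1 : ℂ[X]) - X).natDegree = 1 := by
        rw [show ((1 : ℂ[X]) - X) = -(X - C 1) by rw [C_1]; ring, natDegree_neg, natDegree_X_sub_C]
      have h3 : R.natDegree = 2 + S.natDegree := by
        rw [hS, natDegree_mul (pow_ne_zero 2 h1X) hS0, natDegree_pow, h2]
      omega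
  -- the cyclic sum of `X ^ 2 * S`
  have hXSd : (X ^ 2 * S).natDegree ≤ 2 * (m + 1) + 2 := by
    refine le_trans natDegree_mul_le ?_
    rw [natDegree_X_pow]
    omega
  have c1 : cyc (2 * (m + 1) + 2 + 2) (4 * (m + 1) + 3) ((1 - X) ^ 2 * (X ^ 2 * S))
      = cyc (2 * (m + 1) + 2) (4 * (m + 1) + 3 + 2) (X ^ 2 * S) :=
    cyc_shift _ _ 2 _ hXSd
  have c2 : cyc (2 * m + 3 + 3) (4 * (m + 1) + 3) (X * (1 - X) * (X * (1 - X) * S))
      = X * (1 - X) * cyc (2 * m + 3) (4 * (m + 1) + 3) (X * (1 - X) * S) := by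
    apply cyc_T
    refine le_trans natDegree_mul_le ?_
    have h1 : (X * (1 - X) : ℂ[X]).natDegree ≤ 2 := by
      refine le_trans natDegree_mul_le ?_
      have h2 : ((1 : ℂ[X]) - X).natDegree ≤ 1 := by
        refine le_trans (natDegree_sub_le _ _) (max_le ?_ ?_)
        · rw [natDegree_one]
          exact Nat.zero_le _
        · rw [natDegree_X]
      rw [natDegree_X]
      omega
    omega
  have c3 : cyc (2 * m + 3) (4 * (m + 1) + 3) (X * (1 - X) * S)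
      = X * (1 - X) * cyc (2 * m) (4 * (m + 1) + 3) S := cyc_T _ _ _ hSd
  have c4 : cyc (2 * m + 2) (4 * (m + 1) + 1) ((1 - X) ^ 2 * S)
      = cyc (2 * m) (4 * (m + 1) + 1 + 2) S := cyc_shift _ _ 2 _ hSd
  have c5 : cyc (2 * (m + 1)) (4 * (m + 1) + 1) R
      = C e * ((X ^ 2 - X + 1) ^ 2 * (X * (1 - X)) ^ (2 * (m + 1) - 1)) := by
    have h1 := cyc_g (2 * (m + 1))
    rw [show 2 * (2 * (m + 1)) + 1 = 4 * (m + 1) + 1 by ring] at h1
    rw [hR, cyc_sub, cyc_C_mul, h1, h, mul_zero, sub_zero]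
  have c6 : cyc (2 * m) (4 * (m + 1) + 3) S
      = C e * ((X ^ 2 - X + 1) ^ 2 * (X * (1 - X)) ^ (2 * m + 1)) := by
    have h1 : cyc (2 * m + 2) (4 * (m + 1) + 1) ((1 - X) ^ 2 * S)
        = C e * ((X ^ 2 - X + 1) ^ 2 * (X * (1 - X)) ^ (2 * m + 1)) := by
      rw [← hS, show 2 * m + 2 = 2 * (m + 1) by ring, c5,
        show 2 * (m + 1) - 1 = 2 * m + 1 by omega]
    rw [c4] at h1
    exact h1
  have c7 : cyc (2 * (m + 1) + 2) (4 * (m + 1) + 5) (X ^ 2 * S)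
      = C e * ((X ^ 2 - X + 1) ^ 2 * (X * (1 - X)) ^ (2 * (m + 1) + 1)) := by
    have h1 : cyc (2 * (m + 1) + 2) (4 * (m + 1) + 5) (X ^ 2 * S)
        = cyc (2 * (m + 1) + 2 + 2) (4 * (m + 1) + 3) ((1 - X) ^ 2 * (X ^ 2 * S)) := c1.symm
    rw [h1, show 2 * (m + 1) + 2 + 2 = 2 * m + 3 + 3 by ring,
      show ((1 : ℂ[X]) - X) ^ 2 * (X ^ 2 * S) = X * (1 - X) * (X * (1 - X) * S) by ring,
      c2, c3, c6, show 2 * (m + 1) + 1 = (2 * m + 1) + 2 by ring, pow_add _ (2 * m + 1) 2]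
    ring
  obtain ⟨Q, hQ⟩ : ∃ Q : ℂ[X], Q = C e * P' - C e' * (X ^ 2 * S) := ⟨_, rfl⟩
  have hQ0 : cyc (2 * (m + 1) + 2) (2 * (2 * (m + 1) + 2) + 1) Q = 0 := by
    rw [show 2 * (2 * (m + 1) + 2) + 1 = 4 * (m + 1) + 5 by ring, hQ, cyc_sub, cyc_C_mul,
      cyc_C_mul, h', c7]
    ring
  have hκ := cyc_uniq (2 * (m + 1) + 2) Q hQ0
  generalize Q.eval 1 / (gN (2 * (m + 1) + 2)).eval 1 = κ at hκ
  have hc : e * P'.coeff 0 = κ * ((4 * (m + 1) + 4).choose (2 * (m + 1) + 2) : ℕ) := by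
    have h1 := congrArg (fun Q : ℂ[X] => Q.coeff 0) hκ
    simp only [hQ, coeff_sub, coeff_C_mul] at h1
    rw [gN_zero_coeff, show 2 * (2 * (m + 1) + 2) = 4 * (m + 1) + 4 by ring] at h1
    have h2 : (X ^ 2 * S : ℂ[X]).coeff 0 = 0 := by
      rw [mul_coeff_zero, coeff_X_pow]
      norm_num
    rw [h2, mul_zero, sub_zero] at h1
    exact h1
  have hch : (((4 * (m + 1) + 4).choose (2 * (m + 1) + 2) : ℕ) : ℂ) ≠ 0 :=
    Nat.cast_ne_zero.2 (Nat.choose_pos (by omega)).ne'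
  have hκ2 : e * P'.coeff 0 / ((4 * (m + 1) + 4).choose (2 * (m + 1) + 2) : ℕ) = κ := by
    rw [hc, mul_div_assoc, div_self hch, mul_one]
  rw [hκ2]
  have hfin : C e * P' = C e' * (X ^ 2 * S) + C κ * gN (2 * (m + 1) + 2) := by
    rw [← hκ, hQ]
    ring
  rw [hfin, hS]
  ring

end ODR
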