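import Pool.Agent.ODR.Defs
import Pool.Agent.ODR.GVal

/-!
# ODR-Dsum: closed form of the recursion

Plan. Induction on `n`. `n = 1`: `hbase` (empty sum, `2 * 1 - 2 = 0`, `(4 * 1).choose (2 * 1) = 6`). Step: multiply `hrec n` by `(1-X)^(2n-2)` and use the
induction hypothesis for `(1-X)^(2n-2) * P n`; `2 (n+1) - 2 = (2n-2) + 2`, `2 (n+1) - 1 = 2n - 1 + 2`, `2(n+1) - 2k = (2n - 2k) + 2` for `k ≤ n - 1`; the term `k = n` of
the new sum comes from `C (del (n-1) / C(4n,2n)) * (1-X)^(2n-2) * gN (2n)` and from the term with `2 del n / (gN (2n)).eval 1` (`gN_one`: `C(6n+1,2n)`).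
Cancel `e n ≠ 0`. `nuC k` is the coefficient.
-/

set_option autoImplicit false

namespace ODR

open Polynomial

noncomputable def nuC (e del : ℕ → ℂ) (k : ℕ) : ℂ :=
  (del (k - 1) / ((4 * k).choose (2 * k) : ℕ) - 2 * del k / ((6 * k + 1).choose (2 * k) : ℕ)) / e k

private theorem dsum_sum (c : ℕ → ℂ) (m : ℕ) :
    ∑ k ∈ Finset.Icc 1 (m + 1),
      C (c k) * (X ^ (2 * (m + 1 + 1) - 2 * k) * (1 - X) ^ (2 * k - 2) * gN (2 * k)) =
    X ^ 2 * ∑ k ∈ Finset.Icc 1 m,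
      C (c k) * (X ^ (2 * (m + 1) - 2 * k) * (1 - X) ^ (2 * k - 2) * gN (2 * k)) +
    C (c (m + 1)) * (X ^ 2 * (1 - X) ^ (2 * m) * gN (2 * (m + 1))) := by
  rw [Finset.sum_Icc_succ_top (by omega : 1 ≤ m + 1), Finset.mul_sum]
  have h1 : 2 * (m + 1 + 1) - 2 * (m + 1) = 2 := by omega
  have h2 : 2 * (m + 1) - 2 = 2 * m := by omega
  rw [h1, h2]
  congr 1
  refine Finset.sum_congr rfl fun k hk => ?_
  have hk1 := Finset.mem_Icc.1 hk
  have h3 : 2 * (m + 1 + 1) - 2 * k = 2 + (2 * (m + 1) - 2 * k) := by omega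
  rw [h3, pow_add]
  ring

theorem D_closed (P : ℕ → ℂ[X]) (e del : ℕ → ℂ) (he : ∀ n, 1 ≤ n → e n ≠ 0)
    (hbase : P 1 = C (e 1 / 2) * X + C (del 0 / 6) * gN 2)
    (hrec : ∀ n, 1 ≤ n → (1 - X) ^ 2 * (C (e n) * P (n + 1)) =
      X ^ 2 * (C (e (n + 1)) * (P n - C (2 * del n / (gN (2 * n)).eval 1) * gN (2 * n))) +
        C (e n * del n / ((4 * n + 4).choose (2 * n + 2) : ℕ)) *
          ((1 - X) ^ 2 * gN (2 * n + 2))) (n : ℕ) (hn : 1 ≤ n) :
    (1 - X) ^ (2 * n - 2) * P n =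
      C (e n) * (C (1 / 2) * X ^ (2 * n - 1) + ∑ k ∈ Finset.Icc 1 (n - 1),
        C (nuC e del k) * (X ^ (2 * n - 2 * k) * (1 - X) ^ (2 * k - 2) * gN (2 * k))) +
      C (del (n - 1) / ((4 * n).choose (2 * n) : ℕ)) * ((1 - X) ^ (2 * n - 2) * gN (2 * n)) := by
  obtain ⟨m, rfl⟩ : ∃ m, n = m + 1 := ⟨n - 1, by omega⟩
  clear hn
  induction m with
  | zero =>
    have h1 : (4 * 1).choose (2 * 1) = 6 := by decide
    rw [zero_add, h1, hbase]
    simp only [Nat.mul_one, Nat.sub_self, pow_zero, one_mul, Nat.add_one_sub_one, pow_one]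
    rw [Finset.Icc_eq_empty (by omega), Finset.sum_empty, add_zero, ← mul_assoc, ← C_mul]
    have h2 : e 1 * (1 / 2) = e 1 / 2 := by ring
    rw [h2]
    norm_num
  | succ m ih =>
    have hm := hrec (m + 1) (by omega)
    have h0 : e (m + 1) ≠ 0 := he (m + 1) (by omega)
    have hC : (C (e (m + 1)) : ℂ[X]) ≠ 0 := by
      rw [Ne, C_eq_zero]
      exact h0
    apply mul_left_cancel₀ hC
    have e1 : 2 * (m + 1 + 1) - 2 = 2 * m + 2 := by omega
    have e2 : 2 * (m + 1) - 2 = 2 * m := by omega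
    have e3 : m + 1 + 1 - 1 = m + 1 := by omega
    have e4 : m + 1 - 1 = m := by omega
    have e5 : 2 * (m + 1 + 1) - 1 = 2 * m + 3 := by omega
    have e6 : 2 * (m + 1) - 1 = 2 * m + 1 := by omega
    have e7 : 4 * (m + 1) + 4 = 4 * (m + 1 + 1) := by ring
    have e8 : 2 * (m + 1) + 2 = 2 * (m + 1 + 1) := by ring
    have e9 : 3 * (2 * (m + 1)) + 1 = 6 * (m + 1) + 1 := by ring
    rw [e7, e8, gN_one, e9] at hm
    rw [e2, e4, e6] at ih
    rw [e1, e3, e5, dsum_sum]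
    have hnu : (C (e (m + 1)) : ℂ[X]) * C (nuC e del (m + 1)) =
        C (del m / ((4 * (m + 1)).choose (2 * (m + 1)) : ℕ)) -
          C (2 * del (m + 1) / ((6 * (m + 1) + 1).choose (2 * (m + 1)) : ℕ)) := by
      rw [← C_mul, ← C_sub, nuC, e4, mul_div_cancel₀ _ h0]
    have hlast : (C (e (m + 1) * del (m + 1) /
        ((4 * (m + 1 + 1)).choose (2 * (m + 1 + 1)) : ℕ)) : ℂ[X]) =
        C (e (m + 1)) * C (del (m + 1) / ((4 * (m + 1 + 1)).choose (2 * (m + 1 + 1)) : ℕ)) := by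
      rw [← C_mul, mul_div_assoc]
    rw [hlast] at hm
    have p1 : (1 - X : ℂ[X]) ^ (2 * m + 2) = (1 - X) ^ (2 * m) * (1 - X) ^ 2 := pow_add _ _ _
    have p2 : (X : ℂ[X]) ^ (2 * m + 3) = X ^ (2 * m + 1) * X ^ 2 := by ring
    rw [p1, p2]
    linear_combination (1 - X) ^ (2 * m) * hm + X ^ 2 * C (e (m + 1 + 1)) * ih -
      C (e (m + 1 + 1)) * X ^ 2 * (1 - X) ^ (2 * m) * gN (2 * (m + 1)) * hnu

end ODR
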