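import Pool.Agent.ODR.Bpsi
import Pool.Agent.ODR.Defs

/-!
# ODR-Dc: the two generating polynomials over the complex numbers
-/

set_option autoImplicit false

namespace ODR

open Polynomial

/-- `Dp n` over the complex numbers (through `cZ`, `cU`) -/
noncomputable def Dc (n : ℕ) : ℂ[X] :=
  C (cZ (2 * n) : ℂ) + ∑ i ∈ Finset.range (2 * n),
    C ((cU (2 * n) i 1 : ℂ) - (cU (2 * n) i (-1) : ℂ)) * X ^ i

/-- `Sp n` over the complex numbers (through `cZ`, `cU`) -/
noncomputable def Sc (n : ℕ) : ℂ[X] :=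
  C (cZ (2 * n) : ℂ) + (2 * X - 1) * ∑ i ∈ Finset.range (2 * n),
    C ((cU (2 * n) i 1 : ℂ) + (cU (2 * n) i (-1) : ℂ)) * X ^ i

theorem Dc_natDegree (n : ℕ) (hn : 1 ≤ n) : (Dc n).natDegree ≤ 2 * n - 1 := by
  unfold Dc
  refine (natDegree_add_le _ _).trans (max_le ?_ ?_)
  · rw [natDegree_C]; omega
  · refine natDegree_sum_le_of_forall_le _ _ fun i hi => ?_
    refine (natDegree_C_mul_X_pow_le _ _).trans ?_
    have := Finset.mem_range.1 hi
    omega

theorem Sc_natDegree (n : ℕ) (hn : 1 ≤ n) : (Sc n).natDegree ≤ 2 * n := by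
  unfold Sc
  refine (natDegree_add_le _ _).trans (max_le ?_ ?_)
  · rw [natDegree_C]; omega
  · have h1 : (2 * X - 1 : ℂ[X]).natDegree ≤ 1 := by
      have h : (2 * X - 1 : ℂ[X]) = C 2 * X + C (-1) := by
        simp [sub_eq_add_neg, C_ofNat]
      rw [h]
      exact natDegree_linear_le
    have h2 : (∑ i ∈ Finset.range (2 * n),
        C ((cU (2 * n) i 1 : ℂ) + (cU (2 * n) i (-1) : ℂ)) * X ^ i : ℂ[X]).natDegree ≤
        2 * n - 1 := by
      refine natDegree_sum_le_of_forall_le _ _ fun i hi => ?_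
      refine (natDegree_C_mul_X_pow_le _ _).trans ?_
      have := Finset.mem_range.1 hi
      omega
    refine natDegree_mul_le.trans ?_
    omega

end ODR
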