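import Pool.Agent.ODR.Bod
import Pool.Agent.ODR.Dc
import Pool.Agent.ODD.FIN

/-!
# ODR-End: values of the polynomials at `0` and `1`

Plan. `ODD.exists_w`. Values at `1`: `od_refined` (`M = 2 n`) at `U = 1` against `ODD.od_count w s (2 n + 1)` (`1 :: replicate (2n) 1 = replicate (2n+1) 1`):
`(1-w)^i (1-w)^(M-1-i) = (1-w)^(M-1)`, exponents `2n(2n-1)/2 + 2n = (2n+1)(2n)/2`; cancel `1 - w`, `1 - s w^2` (nonzero). Gives
`cZ + ∑ (cU i 1 - s cU i (-1)) = cP n - s cM n` for `s = 1, -1`.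
Values at `0`: `od_refined` at `U = w` (only `i = 0` survives): `(1-w)^(M(M-1)/2) (1-s w^2)^(M-1) ((1-s w^2)(1-w^2)^M cZ + (w-s w^2)(1-w)(1-w^2)^(M-1) c0)`, against
`ODD.Od_c1 w s hw hs w 1` (`w * 1 = w`; list `replicate (2n-1) 1`): `(1-w)(w-s w^2)(1-s w^2)((1-w^2)(1-w))^(M-1) Od(1^(M-1))` and `ODD.od_count` for `2n - 1 = 2 (n-1) + 1`.
So `(1-s w^2)(1-w^2) cZ + (w-s w^2)(1-w) c0 = (w-s w^2)(1-w) (cP (n-1) - s cM (n-1))`; `s = 1`: `(1-w^2)^2 = w (1-w)^2`; `s = -1`: `(1+w^2)(1-w^2) = 1-w`, `(w+w^2)(1-w) = -(1-w)`.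
-/

set_option autoImplicit false

namespace ODR

open ODD Polynomial

private theorem end_ex1 (k : ℕ) :
    (2 * (k + 1)) * (2 * (k + 1) - 1) / 2 = (k + 1) * (2 * k + 1) := by
  have h : 2 * (k + 1) - 1 = 2 * k + 1 := by omega
  rw [h, mul_assoc, Nat.mul_div_cancel_left _ (by norm_num)]

private theorem end_ex2 (k : ℕ) :
    (2 * (k + 1) + 1) * (2 * (k + 1) + 1 - 1) / 2 = (k + 1) * (2 * k + 1) + 2 * (k + 1) := by
  have h : (2 * (k + 1) + 1) * (2 * (k + 1) + 1 - 1) =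
      2 * ((k + 1) * (2 * k + 1) + 2 * (k + 1)) := by
    rw [Nat.add_sub_cancel]
    ring
  rw [h, Nat.mul_div_cancel_left _ (by norm_num)]

private theorem end_ex3 (k : ℕ) :
    (2 * k + 1) * (2 * k + 1 - 1) / 2 = k * (2 * k + 1) := by
  have h : (2 * k + 1) * (2 * k + 1 - 1) = 2 * (k * (2 * k + 1)) := by
    rw [Nat.add_sub_cancel]
    ring
  rw [h, Nat.mul_div_cancel_left _ (by norm_num)]

private theorem end_w1 {w : ℂ} (hw : w ^ 2 + w + 1 = 0) : 1 - w ≠ 0 := by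
  intro h
  have h1 : w = 1 := by linear_combination -h
  rw [h1] at hw
  norm_num at hw

private theorem end_w0 {w : ℂ} (hw : w ^ 2 + w + 1 = 0) : w ≠ 0 := by
  intro h
  rw [h] at hw
  norm_num at hw

private theorem end_s {w s : ℂ} (hw : w ^ 2 + w + 1 = 0) (hs : s ^ 2 = 1) :
    1 - s * w ^ 2 ≠ 0 := by
  intro h
  have h3 : w ^ 3 = 1 := by linear_combination (w - 1) * hw
  have h1 : w ^ 4 = 1 := by
    have h2 : s * w ^ 2 = 1 := by linear_combination -h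
    have h4 : (s * w ^ 2) ^ 2 = w ^ 4 := by linear_combination w ^ 4 * hs
    rw [← h4, h2, one_pow]
  have h5 : w = 1 := by linear_combination h1 - w * h3
  exact end_w1 hw (by rw [h5, sub_self])

private theorem end_one (w s : ℂ) (hw : w ^ 2 + w + 1 = 0) (hs : s ^ 2 = 1) (n : ℕ)
    (hn : 1 ≤ n) :
    (cZ (2 * n) : ℂ) + ∑ i ∈ Finset.range (2 * n),
      ((cU (2 * n) i 1 : ℂ) - s * (cU (2 * n) i (-1) : ℂ)) = (cP n : ℂ) - s * (cM n : ℂ) := by
  obtain ⟨k, rfl⟩ : ∃ k, n = k + 1 := ⟨n - 1, by omega⟩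
  have n1 := end_w1 hw
  have n2 := end_s hw hs
  have h1 := od_refined w s (2 * (k + 1)) (by omega) 1
  have h2 := od_count w s (2 * (k + 1) + 1) (by omega)
  rw [List.replicate_succ, h1, end_ex1, end_ex2] at h2
  have h3 : ∑ i ∈ Finset.range (2 * (k + 1)),
      (1 - w) ^ i * (1 - w * 1) ^ (2 * (k + 1) - 1 - i) *
        ((cU (2 * (k + 1)) i 1 : ℂ) - s * (cU (2 * (k + 1)) i (-1) : ℂ)) =
      (1 - w) ^ (2 * k + 1) * ∑ i ∈ Finset.range (2 * (k + 1)),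
        ((cU (2 * (k + 1)) i 1 : ℂ) - s * (cU (2 * (k + 1)) i (-1) : ℂ)) := by
    rw [Finset.mul_sum]
    refine Finset.sum_congr rfl fun i hi => ?_
    have hi' := Finset.mem_range.1 hi
    rw [mul_one, ← pow_add]
    have e : i + (2 * (k + 1) - 1 - i) = 2 * k + 1 := by omega
    rw [e]
  rw [h3] at h2
  have e1 : 2 * (k + 1) - 1 = 2 * k + 1 := by omega
  have e2 : 2 * (k + 1) + 1 - 1 = 2 * k + 1 + 1 := by omega
  have e3 : 2 * (k + 1) = 2 * k + 1 + 1 := by omega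
  have h4 : ((1 - w) ^ ((k + 1) * (2 * k + 1)) * (1 - w) ^ (2 * k + 1) * (1 - w) *
      ((1 - s * w ^ 2) ^ (2 * k + 1) * (1 - s * w ^ 2))) *
      ((cZ (2 * (k + 1)) : ℂ) + ∑ i ∈ Finset.range (2 * (k + 1)),
        ((cU (2 * (k + 1)) i 1 : ℂ) - s * (cU (2 * (k + 1)) i (-1) : ℂ))) =
      ((1 - w) ^ ((k + 1) * (2 * k + 1)) * (1 - w) ^ (2 * k + 1) * (1 - w) *
      ((1 - s * w ^ 2) ^ (2 * k + 1) * (1 - s * w ^ 2))) *
      ((cP (k + 1) : ℂ) - s * (cM (k + 1) : ℂ)) := by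
    have h5 := h2
    rw [e1, e2, pow_add (1 - w) ((k + 1) * (2 * k + 1)) (2 * (k + 1)), mul_one] at h5
    have h6 : (1 - w) ^ (2 * (k + 1)) = (1 - w) ^ (2 * k + 1) * (1 - w) := by
      rw [e3, pow_succ]
    rw [h6, pow_succ (1 - s * w ^ 2) (2 * k + 1)] at h5
    unfold cP cM
    linear_combination h5
  refine mul_left_cancel₀ ?_ h4
  exact mul_ne_zero (mul_ne_zero (mul_ne_zero (pow_ne_zero _ n1) (pow_ne_zero _ n1)) n1)
    (mul_ne_zero (pow_ne_zero _ n2) n2)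

private theorem end_zero (w s : ℂ) (hw : w ^ 2 + w + 1 = 0) (hs : s ^ 2 = 1) (n : ℕ)
    (hn : 1 ≤ n) :
    (1 - s * w ^ 2) * (1 - w ^ 2) * (cZ (2 * n) : ℂ) + (w - s * w ^ 2) * (1 - w) *
      ((cU (2 * n) 0 1 : ℂ) - s * (cU (2 * n) 0 (-1) : ℂ)) =
      (w - s * w ^ 2) * (1 - w) * ((cP (n - 1) : ℂ) - s * (cM (n - 1) : ℂ)) := by
  obtain ⟨k, rfl⟩ : ∃ k, n = k + 1 := ⟨n - 1, by omega⟩
  have n1 := end_w1 hw
  have n2 := end_s hw hs
  have n3 : 1 - w ^ 2 ≠ 0 := by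
    have h : 1 - w ^ 2 = (1 - w) * (- w ^ 2) := by linear_combination (1 - w) * hw
    rw [h]
    exact mul_ne_zero n1 (neg_ne_zero.2 (pow_ne_zero _ (end_w0 hw)))
  have h1 := od_refined w s (2 * (k + 1)) (by omega) w
  have h2 := Od_c1 w s hw hs w 1 (mul_one w) (List.replicate (2 * k + 1) 1)
  have h3 := od_count w s (2 * k + 1) (by omega)
  have e3 : 2 * (k + 1) = 2 * k + 1 + 1 := by omega
  have e1 : 2 * (k + 1) - 1 = 2 * k + 1 := by omega
  have h4 : ∑ i ∈ Finset.range (2 * (k + 1)),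
      (w - w) ^ i * (1 - w * w) ^ (2 * (k + 1) - 1 - i) *
        ((cU (2 * (k + 1)) i 1 : ℂ) - s * (cU (2 * (k + 1)) i (-1) : ℂ)) =
      (1 - w * w) ^ (2 * k + 1) *
        ((cU (2 * (k + 1)) 0 1 : ℂ) - s * (cU (2 * (k + 1)) 0 (-1) : ℂ)) := by
    rw [Finset.sum_eq_single 0]
    · rw [pow_zero, one_mul, Nat.sub_zero, e1]
    · intro i _ hi
      rw [sub_self, zero_pow hi, zero_mul, zero_mul]
    · intro h
      exact absurd (Finset.mem_range.2 (by omega)) h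
  rw [h4, end_ex1, e1] at h1
  have h5 : List.replicate (2 * (k + 1)) (1 : ℂ) = 1 :: List.replicate (2 * k + 1) 1 := by
    rw [e3, List.replicate_succ]
  rw [h5, h2, h3, end_ex3, List.map_replicate, List.prod_replicate] at h1
  have h6 : (1 - w) ^ ((k + 1) * (2 * k + 1)) =
      (1 - w) ^ (k * (2 * k + 1)) * (1 - w) ^ (2 * k + 1) := by
    rw [← pow_add]
    congr 1
    ring
  have h7 : (1 - w * w) ^ (2 * (k + 1)) = (1 - w * w) ^ (2 * k + 1) * (1 - w * w) := by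
    rw [e3, pow_succ]
  have h8 : (1 - s * w ^ 2) ^ (2 * k + 1) = (1 - s * w ^ 2) ^ (2 * k) * (1 - s * w ^ 2) :=
    pow_succ _ _
  have e4 : 2 * k + 1 - 1 = 2 * k := by omega
  have e5 : k + 1 - 1 = k := by omega
  rw [h6, h7, h8, e4, mul_one, mul_one, mul_pow] at h1
  rw [e5]
  have n4 : (1 - w) ^ (k * (2 * k + 1)) * (1 - w) ^ (2 * k + 1) *
      ((1 - s * w ^ 2) ^ (2 * k) * (1 - s * w ^ 2)) * (1 - w * w) ^ (2 * k + 1) ≠ 0 := by
    refine mul_ne_zero (mul_ne_zero (mul_ne_zero (pow_ne_zero _ n1) (pow_ne_zero _ n1))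
      (mul_ne_zero (pow_ne_zero _ n2) n2)) (pow_ne_zero _ ?_)
    rw [← pow_two]
    exact n3
  refine mul_left_cancel₀ n4 ?_
  unfold cP cM
  linear_combination -h1

theorem Dc_one (n : ℕ) (hn : 1 ≤ n) : (Dc n).eval 1 = (cP n : ℂ) - (cM n : ℂ) := by
  obtain ⟨w, hw⟩ := exists_w
  have h := end_one w 1 hw (by norm_num) n hn
  simp only [one_mul] at h
  rw [← h, Dc, eval_add, eval_C, eval_finsetSum]
  congr 1
  refine Finset.sum_congr rfl fun i _ => ?_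
  rw [eval_mul, eval_C, eval_pow, eval_X, one_pow, mul_one]

theorem Sc_one (n : ℕ) (hn : 1 ≤ n) : (Sc n).eval 1 = (cP n : ℂ) + (cM n : ℂ) := by
  obtain ⟨w, hw⟩ := exists_w
  have h := end_one w (-1) hw (by norm_num) n hn
  simp only [neg_one_mul, sub_neg_eq_add] at h
  rw [← h, Sc, eval_add, eval_C, eval_mul, eval_finsetSum]
  congr 1
  have e : (2 * X - 1 : ℂ[X]).eval 1 = 1 := by
    simp
    norm_num
  rw [e, one_mul]
  refine Finset.sum_congr rfl fun i _ => ?_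
  rw [eval_mul, eval_C, eval_pow, eval_X, one_pow, mul_one]

private theorem end_sum (M : ℕ) (hM : 1 ≤ M) (c : ℕ → ℂ) :
    (∑ i ∈ Finset.range M, C (c i) * X ^ i : ℂ[X]).eval 0 = c 0 := by
  rw [eval_finsetSum, Finset.sum_eq_single 0]
  · rw [pow_zero, mul_one, eval_C]
  · intro i _ hi
    rw [eval_mul, eval_pow, eval_X, zero_pow hi, mul_zero]
  · intro h
    exact absurd (Finset.mem_range.2 (by omega)) h

theorem Dc_zero (n : ℕ) (hn : 1 ≤ n) :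
    (Dc n).eval 0 = (cP (n - 1) : ℂ) - (cM (n - 1) : ℂ) := by
  obtain ⟨w, hw⟩ := exists_w
  have h := end_zero w 1 hw (by norm_num) n hn
  simp only [one_mul] at h
  rw [Dc, eval_add, eval_C,
    end_sum (2 * n) (by omega) (fun i => (cU (2 * n) i 1 : ℂ) - (cU (2 * n) i (-1) : ℂ))]
  have h1 : (w * (1 - w) ^ 2) * ((cZ (2 * n) : ℂ) +
      ((cU (2 * n) 0 1 : ℂ) - (cU (2 * n) 0 (-1) : ℂ))) =
      (w * (1 - w) ^ 2) * ((cP (n - 1) : ℂ) - (cM (n - 1) : ℂ)) := by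
    have e1 : (1 - w ^ 2) * (1 - w ^ 2) = w * (1 - w) ^ 2 := by
      linear_combination (1 - w) ^ 2 * hw
    have e2 : (w - w ^ 2) * (1 - w) = w * (1 - w) ^ 2 := by ring
    rw [e1, e2] at h
    linear_combination h
  exact mul_left_cancel₀ (mul_ne_zero (end_w0 hw) (pow_ne_zero _ (end_w1 hw))) h1

theorem Sc_zero (n : ℕ) (hn : 1 ≤ n) :
    (Sc n).eval 0 = -((cP (n - 1) : ℂ) + (cM (n - 1) : ℂ)) := by
  obtain ⟨w, hw⟩ := exists_w
  have h := end_zero w (-1) hw (by norm_num) n hn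
  simp only [neg_one_mul, sub_neg_eq_add] at h
  rw [Sc, eval_add, eval_C, eval_mul,
    end_sum (2 * n) (by omega) (fun i => (cU (2 * n) i 1 : ℂ) + (cU (2 * n) i (-1) : ℂ))]
  have e : (2 * X - 1 : ℂ[X]).eval 0 = -1 := by simp
  rw [e]
  have h1 : (1 - w) * ((cZ (2 * n) : ℂ) + -1 *
      ((cU (2 * n) 0 1 : ℂ) + (cU (2 * n) 0 (-1) : ℂ))) =
      (1 - w) * (-((cP (n - 1) : ℂ) + (cM (n - 1) : ℂ))) := by
    have e1 : (1 + w ^ 2) * (1 - w ^ 2) = 1 - w := by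
      linear_combination (w - w ^ 2) * hw
    have e2 : (w + w ^ 2) * (1 - w) = - (1 - w) := by
      linear_combination (1 - w) * hw
    rw [e1, e2] at h
    linear_combination h
  exact mul_left_cancel₀ (end_w1 hw) h1

end ODR
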