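import Pool.Agent.ODR.Defs

/-!
# ODR-Chk: the transform `chk` and the cyclic sum `cyc`

The formal properties of `chk` follow from the value of `chk K P` at `t`, that is `t ^ K * P (1 - 1 / t)`.
-/

set_option autoImplicit false

namespace ODR

open Polynomial

theorem poly_ext (P Q : ℂ[X]) (h : ∀ t : ℂ, t ≠ 0 → t ≠ 1 → P.eval t = Q.eval t) : P = Q := by
  apply Polynomial.eq_of_infinite_eval_eq
  have h1 : ({0, 1} : Set ℂ)ᶜ.Infinite := (Set.toFinite _).infinite_compl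
  refine h1.mono fun t ht => ?_
  have h2 : t ≠ 0 := fun h0 => ht (Or.inl h0)
  have h3 : t ≠ 1 := fun h0 => ht (Or.inr h0)
  exact h t h2 h3

private theorem chk_aux_deg {j K : ℕ} {A P : ℂ[X]} (hA : A.natDegree ≤ j) (hP : P.natDegree ≤ K) :
    (A * P).natDegree ≤ K + j := by
  refine natDegree_mul_le.trans ?_
  omega

private theorem chk_aux_pow {j : ℕ} {A : ℂ[X]} (hA : A.natDegree ≤ 1) : (A ^ j).natDegree ≤ j := by
  refine natDegree_pow_le.trans ?_
  calc j * A.natDegree ≤ j * 1 := Nat.mul_le_mul_left j hA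
    _ = j := Nat.mul_one j

theorem chk_eval (K : ℕ) (P : ℂ[X]) (hP : P.natDegree ≤ K) (t : ℂ) (ht : t ≠ 0) :
    (chk K P).eval t = t ^ K * P.eval (1 - 1 / t) := by
  rw [chk, eval_finsetSum, eval_eq_sum_range' (Nat.lt_succ_of_le hP), Finset.mul_sum]
  refine Finset.sum_congr rfl fun k hk => ?_
  have hk' : k ≤ K := Nat.le_of_lt_succ (Finset.mem_range.1 hk)
  rw [eval_mul, eval_C, eval_mul, eval_pow, eval_X, eval_pow, eval_sub, eval_X, eval_one]
  have h1 : t ^ K = t ^ (K - k) * t ^ k := by rw [← pow_add, Nat.sub_add_cancel hk']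
  have h2 : t ^ k * (1 - 1 / t) ^ k = (t - 1) ^ k := by
    rw [← mul_pow]
    congr 1
    field_simp
  rw [h1, ← h2]
  ring

theorem chk_natDegree (K : ℕ) (P : ℂ[X]) : (chk K P).natDegree ≤ K := by
  refine natDegree_sum_le_of_forall_le _ _ fun k hk => ?_
  have hk' : k ≤ K := Nat.le_of_lt_succ (Finset.mem_range.1 hk)
  have h1 : ((X : ℂ[X]) ^ (K - k)).natDegree ≤ K - k := chk_aux_pow natDegree_X_le
  have h2 : ((X - 1 : ℂ[X]) ^ k).natDegree ≤ k := chk_aux_pow (by compute_degree)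
  have h3 := chk_aux_deg h1 h2
  have h4 : (C (P.coeff k)).natDegree ≤ 0 := by rw [natDegree_C]
  have h5 := chk_aux_deg h4 h3
  omega

theorem chk_add (K : ℕ) (P Q : ℂ[X]) : chk K (P + Q) = chk K P + chk K Q := by
  rw [chk, chk, chk, ← Finset.sum_add_distrib]
  refine Finset.sum_congr rfl fun k _ => ?_
  rw [coeff_add, C_add, add_mul]

theorem chk_C_mul (K : ℕ) (a : ℂ) (P : ℂ[X]) : chk K (C a * P) = C a * chk K P := by
  rw [chk, chk, Finset.mul_sum]
  refine Finset.sum_congr rfl fun k _ => ?_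
  rw [coeff_C_mul, C_mul, mul_assoc]

theorem chk_sub (K : ℕ) (P Q : ℂ[X]) : chk K (P - Q) = chk K P - chk K Q := by
  rw [chk, chk, chk, ← Finset.sum_sub_distrib]
  refine Finset.sum_congr rfl fun k _ => ?_
  rw [coeff_sub, C_sub, sub_mul]

theorem chk_chk_eval (K : ℕ) (P : ℂ[X]) (hP : P.natDegree ≤ K) (t : ℂ) (ht : t ≠ 0)
    (ht1 : t ≠ 1) : (chk K (chk K P)).eval t = (t - 1) ^ K * P.eval (1 / (1 - t)) := by
  have h1 : t - 1 ≠ 0 := sub_ne_zero.2 ht1
  have h1' : 1 - t ≠ 0 := sub_ne_zero.2 ht1.symm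
  have h2 : 1 - 1 / t ≠ 0 := by
    have h3 : 1 - 1 / t = (t - 1) / t := by field_simp
    rw [h3]
    exact div_ne_zero h1 ht
  have h3 : 1 - 1 / (1 - 1 / t) = 1 / (1 - t) := by
    have h4 : 1 - 1 / t = (t - 1) / t := by field_simp
    rw [h4]
    field_simp
    ring
  have h4 : t ^ K * (1 - 1 / t) ^ K = (t - 1) ^ K := by
    rw [← mul_pow]
    congr 1
    field_simp
  rw [chk_eval K _ (chk_natDegree K P) t ht, chk_eval K P hP _ h2, h3, ← mul_assoc, h4]

theorem chk3 (K : ℕ) (P : ℂ[X]) (hP : P.natDegree ≤ K) :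
    chk K (chk K (chk K P)) = C ((-1) ^ K) * P := by
  refine poly_ext _ _ fun t ht ht1 => ?_
  have h1 : t - 1 ≠ 0 := sub_ne_zero.2 ht1
  have h2 : 1 - 1 / t ≠ 0 := by
    have h3 : 1 - 1 / t = (t - 1) / t := by field_simp
    rw [h3]
    exact div_ne_zero h1 ht
  have h3 : 1 - 1 / t ≠ 1 := by
    intro h4
    have h5 : 1 / t = 0 := by linear_combination -h4
    exact one_div_ne_zero ht h5
  have h4 : 1 / (1 - (1 - 1 / t)) = t := by
    rw [sub_sub_cancel, one_div_one_div]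
  have h5 : t ^ K * (1 - 1 / t - 1) ^ K = (-1) ^ K := by
    rw [← mul_pow]
    congr 1
    field_simp
    ring
  rw [chk_eval K _ (chk_natDegree K _) t ht, chk_chk_eval K P hP _ h2 h3, h4, ← mul_assoc, h5, eval_mul, eval_C]

theorem chk_shift (K j : ℕ) (P : ℂ[X]) (hP : P.natDegree ≤ K) :
    chk (K + j) ((1 - X) ^ j * P) = chk K P := by
  refine poly_ext _ _ fun t ht ht1 => ?_
  have hd : ((1 - X : ℂ[X]) ^ j * P).natDegree ≤ K + j :=
    chk_aux_deg (chk_aux_pow (by compute_degree)) hP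
  have h1 : t ^ j * (1 - (1 - 1 / t)) ^ j = 1 := by
    rw [← mul_pow, sub_sub_cancel, mul_one_div_cancel ht, one_pow]
  rw [chk_eval _ _ hd t ht, chk_eval _ _ hP t ht, eval_mul, eval_pow, eval_sub, eval_one, eval_X, pow_add]
  linear_combination (t ^ K * eval (1 - 1 / t) P) * h1

theorem chk_up (K j : ℕ) (P : ℂ[X]) (hP : P.natDegree ≤ K) :
    chk (K + j) P = X ^ j * chk K P := by
  refine poly_ext _ _ fun t ht ht1 => ?_
  rw [chk_eval _ _ (hP.trans (Nat.le_add_right K j)) t ht, eval_mul, chk_eval _ _ hP t ht, eval_pow, eval_X, pow_add]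
  ring

theorem chk_X (K j : ℕ) (P : ℂ[X]) (hP : P.natDegree ≤ K) :
    chk (K + j) (X ^ j * P) = (X - 1) ^ j * chk K P := by
  refine poly_ext _ _ fun t ht ht1 => ?_
  have hd : ((X : ℂ[X]) ^ j * P).natDegree ≤ K + j := chk_aux_deg (chk_aux_pow natDegree_X_le) hP
  have h1 : t ^ j * (1 - 1 / t) ^ j = (t - 1) ^ j := by
    rw [← mul_pow]
    congr 1
    field_simp
  rw [chk_eval _ _ hd t ht, eval_mul, eval_mul, chk_eval _ _ hP t ht, eval_pow, eval_X, eval_pow, eval_sub,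
    eval_X, eval_one, pow_add, ← h1]
  ring

theorem chk_T (K : ℕ) (P : ℂ[X]) (hP : P.natDegree ≤ K) :
    chk (K + 3) (X * (1 - X) * P) = -(X * (1 - X)) * chk K P := by
  refine poly_ext _ _ fun t ht ht1 => ?_
  have hd0 : (X * (1 - X) : ℂ[X]).natDegree ≤ 2 := by compute_degree
  have hd : (X * (1 - X) * P).natDegree ≤ K + 3 := chk_aux_deg (hd0.trans (by omega)) hP
  have h1 : t ^ 3 * ((1 - 1 / t) * (1 - (1 - 1 / t))) = -(t * (1 - t)) := by
    field_simp
    ring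
  rw [chk_eval _ _ hd t ht, eval_mul, eval_mul, eval_mul, chk_eval _ _ hP t ht, eval_neg, eval_mul, eval_sub,
    eval_X, eval_sub, eval_X, eval_one, eval_one, pow_add]
  linear_combination (t ^ K * eval (1 - 1 / t) P) * h1

theorem chk_c3 (K : ℕ) (P : ℂ[X]) (hP : P.natDegree ≤ K) :
    chk (K + 3) ((1 + X) * (2 - X) * (1 - 2 * X) * P) =
      -((1 + X) * (2 - X) * (1 - 2 * X)) * chk K P := by
  refine poly_ext _ _ fun t ht ht1 => ?_
  have hd : ((1 + X) * (2 - X) * (1 - 2 * X) * P).natDegree ≤ K + 3 :=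
    chk_aux_deg (by compute_degree) hP
  have h1 : t ^ 3 * ((1 + (1 - 1 / t)) * (2 - (1 - 1 / t)) * (1 - 2 * (1 - 1 / t))) =
      -((1 + t) * (2 - t) * (1 - 2 * t)) := by
    field_simp
    ring
  have h2 : ∀ u : ℂ, eval u ((1 + X) * (2 - X) * (1 - 2 * X) : ℂ[X]) = (1 + u) * (2 - u) * (1 - 2 * u) := by
    intro u
    simp
  rw [chk_eval _ _ hd t ht, eval_mul, h2, eval_mul, eval_neg, h2, chk_eval _ _ hP t ht, pow_add]
  linear_combination (t ^ K * eval (1 - 1 / t) P) * h1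

private theorem chk_aux_neg (K : ℕ) (P : ℂ[X]) : chk K (-P) = -chk K P := by
  have h1 : -P = C (-1) * P := by rw [C_neg, C_1, neg_one_mul]
  rw [h1, chk_C_mul, C_neg, C_1, neg_one_mul]

theorem cyc_add (K L : ℕ) (P Q : ℂ[X]) : cyc K L (P + Q) = cyc K L P + cyc K L Q := by
  rw [cyc, cyc, cyc, chk_add, chk_add]
  ring

theorem cyc_sub (K L : ℕ) (P Q : ℂ[X]) : cyc K L (P - Q) = cyc K L P - cyc K L Q := by
  rw [cyc, cyc, cyc, chk_sub, chk_sub]
  ring

theorem cyc_C_mul (K L : ℕ) (a : ℂ) (P : ℂ[X]) : cyc K L (C a * P) = C a * cyc K L P := by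
  rw [cyc, cyc, chk_C_mul, chk_C_mul]
  ring

theorem cyc_shift (K L j : ℕ) (P : ℂ[X]) (hP : P.natDegree ≤ K) :
    cyc (K + j) L ((1 - X) ^ j * P) = cyc K (L + j) P := by
  have h1 : K + j + L = K + (L + j) := by omega
  rw [cyc, cyc, chk_shift K j P hP, chk_up K j _ (chk_natDegree K P), h1, pow_add, pow_add]
  ring

theorem cyc_T (K L : ℕ) (P : ℂ[X]) (hP : P.natDegree ≤ K) :
    cyc (K + 3) L (X * (1 - X) * P) = X * (1 - X) * cyc K L P := by
  have h1 : K + 3 + L = K + L + 3 := by omega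
  have h2 : C ((-1 : ℂ) ^ (K + L + 3)) = -C ((-1 : ℂ) ^ (K + L)) := by
    rw [← C_neg]
    congr 1
    ring
  rw [cyc, cyc, chk_T K P hP, neg_mul, chk_aux_neg, chk_T K _ (chk_natDegree K P), h1, h2]
  ring

theorem cyc_c3 (K L : ℕ) (P : ℂ[X]) (hP : P.natDegree ≤ K) :
    cyc (K + 3) L ((1 + X) * (2 - X) * (1 - 2 * X) * P) =
      (1 + X) * (2 - X) * (1 - 2 * X) * cyc K L P := by
  have h1 : K + 3 + L = K + L + 3 := by omega
  have h2 : C ((-1 : ℂ) ^ (K + L + 3)) = -C ((-1 : ℂ) ^ (K + L)) := by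
    rw [← C_neg]
    congr 1
    ring
  rw [cyc, cyc, chk_c3 K P hP, neg_mul, chk_aux_neg, chk_c3 K _ (chk_natDegree K P), h1, h2]
  ring

end ODR
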