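import Pool.Agent.ODR.Odt
import Pool.Agent.ODR.Chk
import Pool.Agent.ODD.LIM

/-!
# ODR-FetP: functional equation of the differences

Plan. `ODD.fe_odd_one w 1 hw _ (2 n) U` at `U = (t+w)/(1+wt)` for `t ≠ 0, 1` and `1 + w t ≠ 0` (that is `t ≠ -w^2`; all other `t` give the polynomial identity by
infinitely many points). `k = 2 n`, `e = cZ k`, `ODD.ev_count` (`Ev w (1^k) = (1-w)^(k(k-1)/2) e`, `cZ` is the same `Nat.card`). `gO w 1 (1^k) U = (U^2-1) Od(U::1^k) (U-1)(U-w) ((U-1)(1-U))^k`.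
`w U = U(t')` with `t' = 1 - 1/t`, `w^2 U = U(t'')`, `t'' = 1/(1-t)`, `1 + w t' = -w (1+wt)/t`, `1 + w t'' = -w^2 (1+wt)/(1-t)`. `U-1 = (1-w)(t-1)/(1+wt)`, `U+1 = -w^2 (1+t)/(1+wt)`,
`U - w = (1-w^2) t/(1+wt)`, `1 - U^3 = 3 w (1-w) t (1-t)/(1+wt)^3`, `(t+w)(1+wt) = w (t^2-t+1)`.
With `P = (1+X) Dc n` (degree `≤ k`) and `K = -w^2 (1-w)^2 (1-w^2) (1-w)^(2k) (1-w)^(k(k-1)/2) (1-w^2)^(2k)`, by `odt_pos`:
`(1+wt)^(3k+4) gO(U(t)) = K t (1-t)^(2k+2) P(t)`, so (`k` even) `(1+wt)^(3k+4) w gO(U(t')) = K t^(3k+4) t' (1-t')^(2k+2) P(t') = K t (t-1) * chk k P`,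
`(1+wt)^(3k+4) w^2 gO(U(t'')) = K (1-t)^(3k+4) t'' (1-t'')^(2k+2) P(t'') = K (1-t) t^(2k+2) * chk k (chk k P)`.
The sum is `K t (1-t) * cyc k (2k+1) P`, and the right side times `(1+wt)^(3k+4)` is `3 (w-1) (w^2(1-w^2))^k e (1-w)^(k(k-1)/2) w^2 (t^2-t+1)^2 (3w(1-w))^k (t(1-t))^k`.
`(1-w)(1-w^2) = 3` gives the constant `1`.
-/

set_option autoImplicit false

namespace ODR

open ODD Polynomial

private theorem fp_w3 {w : ℂ} (hw : w ^ 2 + w + 1 = 0) : w ^ 3 = 1 := by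
  linear_combination (w - 1) * hw

private theorem fp_w0 {w : ℂ} (hw : w ^ 2 + w + 1 = 0) : w ≠ 0 := by
  rintro rfl
  norm_num at hw

private theorem fp_w1 {w : ℂ} (hw : w ^ 2 + w + 1 = 0) : 1 - w ≠ 0 := by
  intro h
  have h1 : w = 1 := by linear_combination -h
  rw [h1] at hw
  norm_num at hw

private theorem fp_w12 {w : ℂ} (hw : w ^ 2 + w + 1 = 0) : (1 - w) * (1 - w ^ 2) = 3 := by
  linear_combination (w - 2) * hw

private theorem fp_w2 {w : ℂ} (hw : w ^ 2 + w + 1 = 0) : 1 - w ^ 2 ≠ 0 := by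
  intro h
  have h1 := fp_w12 hw
  rw [h, mul_zero] at h1
  norm_num at h1

private theorem fp_gO (w : ℂ) (hw : w ^ 2 + w + 1 = 0) (n : ℕ) (hn : 1 ≤ n) (t : ℂ)
    (ht : 1 + w * t ≠ 0) :
    gO w 1 (List.replicate (2 * n) 1) ((t + w) / (1 + w * t)) * (1 + w * t) ^ (6 * n + 4) =
      (-w ^ 2 * (1 - w) ^ (4 * n + 2) * (1 - w) ^ (2 * n * (2 * n - 1) / 2) *
        (1 - w ^ 2) ^ (4 * n + 1)) * (t * (1 - t) ^ (4 * n + 2) *
          ((1 + X) * Dc n).eval t) := by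
  have hOd := odt_pos w hw n hn t ht
  obtain ⟨U, hU⟩ : ∃ U, (t + w) / (1 + w * t) = U := ⟨_, rfl⟩
  rw [hU] at hOd ⊢
  obtain ⟨D, hD⟩ : ∃ D, 1 + w * t = D := ⟨_, rfl⟩
  have hUD : U * D = t + w := by rw [← hU, ← hD, div_mul_cancel₀ _ ht]
  rw [hD] at hOd ⊢
  have h1 : (U - 1) * D = (1 - w) * (-(1 - t)) := by linear_combination hUD + hD
  have h2 : (U + 1) * D = -w ^ 2 * (1 + t) := by
    linear_combination hUD - hD + (1 + t) * hw
  have h3 : (U - w) * D = (1 - w ^ 2) * t := by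
    linear_combination hUD + w * hD
  generalize hO : Od w 1 (U :: List.replicate (2 * n) 1) = O at hOd
  have e1 : gO w 1 (List.replicate (2 * n) 1) U * D ^ (6 * n + 4) =
      ((U - 1) * D) ^ (4 * n + 2) * ((U + 1) * D) * ((U - w) * D) * (O * D ^ (2 * n)) := by
    unfold gO
    rw [hO, List.map_replicate, List.prod_replicate]
    have e2 : ((U - 1) * (1 - U * 1)) ^ (2 * n) = (U - 1) ^ (4 * n) := by
      have e3 : (U - 1) * (1 - U * 1) = -((U - 1) ^ 2) := by ring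
      rw [e3, (even_two_mul n).neg_pow, ← pow_mul]
      congr 1
      ring
    rw [e2, mul_pow (U - 1) D (4 * n + 2)]
    ring
  rw [e1, h1, h2, h3, hOd]
  have e4 : (-(1 - t)) ^ (4 * n + 2) = (1 - t) ^ (4 * n + 2) :=
    Even.neg_pow ⟨2 * n + 1, by ring⟩ _
  rw [mul_pow, e4]
  simp only [eval_mul, eval_add, eval_one, eval_X]
  have e5 : (1 - w ^ 2) ^ (4 * n + 1) =
      (1 - w ^ 2) ^ (2 * n) * (1 - w ^ 2) ^ (2 * n) * (1 - w ^ 2) := by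
    rw [← pow_add, ← pow_succ]
    congr 1
    ring
  rw [e5]
  ring

private theorem fp_cyc (n : ℕ) (P : ℂ[X]) (hP : P.natDegree ≤ 2 * n) (t : ℂ)
    (h0 : t ≠ 0) (h1 : t ≠ 1) :
    (cyc (2 * n) (4 * n + 1) P).eval t = (1 - t) ^ (4 * n + 1) * P.eval t -
      t ^ (2 * n) * P.eval (1 - 1 / t) +
        t ^ (4 * n + 1) * ((t - 1) ^ (2 * n) * P.eval (1 / (1 - t))) := by
  have hod : Odd (2 * n + (4 * n + 1)) := ⟨3 * n, by ring⟩
  rw [cyc, hod.neg_one_pow, C_neg, C_1, eval_add, eval_add, eval_mul, eval_mul, eval_mul, eval_pow,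
    eval_pow, chk_chk_eval _ _ hP t h0 h1, chk_eval _ _ hP t h0, eval_sub, eval_one, eval_X,
    eval_neg, eval_one]
  ring

private theorem fp_alg (w : ℂ) (hw : w ^ 2 + w + 1 = 0) (n : ℕ) (hn : 1 ≤ n)
    (t B e P0 P1 P2 G0 G1 G2 : ℂ)
    (h0 : t ≠ 0) (h1t : 1 - t ≠ 0) (ht : 1 + w * t ≠ 0) (hB : B ≠ 0)
    (hfe : G0 + w * G1 + w ^ 2 * G2 =
      3 * (w - 1) * (1 * w ^ 2 * (1 - 1 * w ^ 2)) ^ (2 * n) * (B * e) *
        ((t + w) / (1 + w * t)) ^ 2 * (1 - ((t + w) / (1 + w * t)) ^ 3) ^ (2 * n))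
    (hg0 : G0 * (1 + w * t) ^ (6 * n + 4) =
      -w ^ 2 * (1 - w) ^ (4 * n + 2) * B * (1 - w ^ 2) ^ (4 * n + 1) *
        (t * (1 - t) ^ (4 * n + 2) * P0))
    (hg1 : G1 * (-(w * ((1 + w * t) / t))) ^ (6 * n + 4) =
      -w ^ 2 * (1 - w) ^ (4 * n + 2) * B * (1 - w ^ 2) ^ (4 * n + 1) *
        ((1 - 1 / t) * (1 - (1 - 1 / t)) ^ (4 * n + 2) * P1))
    (hg2 : G2 * (-(w ^ 2 * ((1 + w * t) / (1 - t)))) ^ (6 * n + 4) =
      -w ^ 2 * (1 - w) ^ (4 * n + 2) * B * (1 - w ^ 2) ^ (4 * n + 1) *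
        (1 / (1 - t) * (1 - 1 / (1 - t)) ^ (4 * n + 2) * P2)) :
    (1 - t) ^ (4 * n + 1) * P0 - t ^ (2 * n) * P1 +
        t ^ (4 * n + 1) * ((t - 1) ^ (2 * n) * P2) =
      e * ((t ^ 2 - t + 1) ^ 2 * (t * (1 - t)) ^ (2 * n - 1)) := by
  have hw3 := fp_w3 hw
  have hw0 := fp_w0 hw
  have hw1 := fp_w1 hw
  have hw2 := fp_w2 hw
  have hw12 := fp_w12 hw
  obtain ⟨D, hD⟩ : ∃ D, 1 + w * t = D := ⟨_, rfl⟩
  obtain ⟨U, hU⟩ : ∃ U, (t + w) / (1 + w * t) = U := ⟨_, rfl⟩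
  rw [hU] at hfe
  rw [hD] at hg0 hg1 hg2 ht hU
  have hUD : U * D = t + w := by rw [← hU, div_mul_cancel₀ _ ht]
  have hev : Even (6 * n + 4) := ⟨3 * n + 2, by ring⟩
  have hw6 : w ^ (6 * n + 4) = w := by
    have : w ^ (6 * n + 4) = (w ^ 3) ^ (2 * n + 1) * w := by rw [← pow_mul]; ring
    rw [this, hw3, one_pow, one_mul]
  have a1 : (-(w * (D / t))) ^ (6 * n + 4) * t ^ (6 * n + 4) = w * D ^ (6 * n + 4) := by
    rw [← mul_pow]
    have : -(w * (D / t)) * t = -(w * D) := by field_simp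
    rw [this, hev.neg_pow, mul_pow, hw6]
  have b1 : (1 - 1 / t) * (1 - (1 - 1 / t)) ^ (4 * n + 2) * t ^ (6 * n + 4) =
      (t - 1) * t ^ (2 * n + 1) := by
    have : (6 * n + 4) = (4 * n + 2) + (1 + (2 * n + 1)) := by ring
    rw [this, pow_add t (4 * n + 2) (1 + (2 * n + 1)), pow_add t 1 (2 * n + 1), pow_one]
    have e1 : (1 - (1 - 1 / t)) ^ (4 * n + 2) * t ^ (4 * n + 2) = 1 := by
      rw [← mul_pow]
      have : (1 - (1 - 1 / t)) * t = 1 := by field_simp; ring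
      rw [this, one_pow]
    have e2 : (1 - 1 / t) * t = t - 1 := by field_simp
    linear_combination (1 - 1 / t) * t * t ^ (2 * n + 1) * e1 + t ^ (2 * n + 1) * e2
  have a2 : (-(w ^ 2 * (D / (1 - t)))) ^ (6 * n + 4) * (1 - t) ^ (6 * n + 4) =
      w ^ 2 * D ^ (6 * n + 4) := by
    rw [← mul_pow]
    have : -(w ^ 2 * (D / (1 - t))) * (1 - t) = -(w ^ 2 * D) := by field_simp
    rw [this, hev.neg_pow, mul_pow, ← pow_mul, mul_comm 2 (6 * n + 4), pow_mul, hw6]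
  have b2 : 1 / (1 - t) * (1 - 1 / (1 - t)) ^ (4 * n + 2) * (1 - t) ^ (6 * n + 4) =
      t ^ (4 * n + 2) * ((1 - t) * (t - 1) ^ (2 * n)) := by
    have : (6 * n + 4) = (4 * n + 2) + (1 + (1 + 2 * n)) := by ring
    rw [this, pow_add (1 - t) (4 * n + 2) (1 + (1 + 2 * n)), pow_add (1 - t) 1 (1 + 2 * n),
      pow_add (1 - t) 1 (2 * n), pow_one]
    have e1 : (1 - 1 / (1 - t)) ^ (4 * n + 2) * (1 - t) ^ (4 * n + 2) = t ^ (4 * n + 2) := by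
      rw [← mul_pow]
      have h3 : (1 - 1 / (1 - t)) * (1 - t) = -t := by field_simp; ring
      rw [h3, Even.neg_pow ⟨2 * n + 1, by ring⟩]
    have e2 : 1 / (1 - t) * (1 - t) = 1 := one_div_mul_cancel h1t
    have e3 : (1 - t) ^ (2 * n) = (t - 1) ^ (2 * n) := by
      rw [← (even_two_mul n).neg_pow, neg_sub]
    rw [e3]
    linear_combination 1 / (1 - t) * ((1 - t) * ((1 - t) * (t - 1) ^ (2 * n))) * e1 +
      t ^ (4 * n + 2) * ((1 - t) * (t - 1) ^ (2 * n)) * e2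
  generalize (-(w * (D / t))) ^ (6 * n + 4) = X1 at hg1 a1
  generalize (1 - 1 / t) * (1 - (1 - 1 / t)) ^ (4 * n + 2) = Y1 at hg1 b1
  generalize (-(w ^ 2 * (D / (1 - t)))) ^ (6 * n + 4) = X2 at hg2 a2
  generalize 1 / (1 - t) * (1 - 1 / (1 - t)) ^ (4 * n + 2) = Y2 at hg2 b2
  obtain ⟨R, hRd⟩ : ∃ R, (t * (1 - t)) ^ (2 * n - 1) = R := ⟨_, rfl⟩
  have hR2 : (t * (1 - t)) ^ (2 * n) = R * (t * (1 - t)) := by
    rw [← hRd, ← pow_succ]
    congr 1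
    omega
  have hR : (3 * (w - 1) * (1 * w ^ 2 * (1 - 1 * w ^ 2)) ^ (2 * n) * (B * e) *
        U ^ 2 * (1 - U ^ 3) ^ (2 * n)) * D ^ (6 * n + 4) =
      -w ^ 2 * (1 - w) ^ (4 * n + 2) * B * (1 - w ^ 2) ^ (4 * n + 1) *
        (e * ((t ^ 2 - t + 1) ^ 2 * (R * (t * (1 - t))))) := by
    have c1 : U * D ^ 2 = w * (t ^ 2 - t + 1) := by
      linear_combination D * hUD - (t + w) * hD + t * hw
    have c2 : (1 - U ^ 3) * D ^ 3 = -(1 - w) ^ 3 * (t * (1 - t)) := by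
      have : U ^ 3 * D ^ 3 = (t + w) ^ 3 := by rw [← mul_pow, hUD]
      rw [sub_mul, this, ← hD]
      linear_combination (t ^ 3 + t ^ 2 - t - 1) * hw3
    have e1 : 3 * (w - 1) * (1 * w ^ 2 * (1 - 1 * w ^ 2)) ^ (2 * n) * (B * e) *
        U ^ 2 * (1 - U ^ 3) ^ (2 * n) * D ^ (6 * n + 4) =
        3 * (w - 1) * (w ^ 2 * (1 - w ^ 2)) ^ (2 * n) * (B * e) *
          (U * D ^ 2) ^ 2 * ((1 - U ^ 3) * D ^ 3) ^ (2 * n) := by
      rw [mul_pow (1 - U ^ 3) (D ^ 3) (2 * n), one_mul]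
      ring
    have e2 : (-(1 - w) ^ 3 * (t * (1 - t))) ^ (2 * n) =
        (1 - w) ^ (4 * n) * (1 - w) ^ (2 * n) * (R * (t * (1 - t))) := by
      rw [mul_pow, (even_two_mul n).neg_pow, ← pow_mul, ← pow_add, hR2]
      congr 2
      ring
    have e3 : (w ^ 2 * (1 - w ^ 2)) ^ (2 * n) * (1 - w) ^ (2 * n) =
        (1 - w ^ 2) ^ (4 * n) := by
      have h5 : w ^ 2 * (1 - w ^ 2) * (1 - w) = -(1 - w ^ 2) ^ 2 := by
        linear_combination (-(1 - w ^ 2)) * hw3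
      rw [← mul_pow, h5, (even_two_mul n).neg_pow, ← pow_mul]
      congr 1
      ring
    have e4 : (1 - w) ^ (4 * n + 2) = (1 - w) ^ (4 * n) * ((1 - w) * (1 - w)) := by
      rw [pow_add]
      ring
    have e5 : (1 - w ^ 2) ^ (4 * n + 1) = (1 - w ^ 2) ^ (4 * n) * (1 - w ^ 2) := pow_succ _ _
    rw [e1, c1, c2, e2, e4, e5]
    generalize (w ^ 2 * (1 - w ^ 2)) ^ (2 * n) = Z1 at e3
    generalize (1 - w) ^ (2 * n) = Z2 at e3
    generalize (1 - w ^ 2) ^ (4 * n) = Z3 at e3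
    generalize (1 - w) ^ (4 * n) = Z4
    linear_combination (3 * (w - 1) * (B * e) * (w * (t ^ 2 - t + 1)) ^ 2 * Z4 *
      (R * (t * (1 - t)))) * e3 + (w ^ 2 * Z4 * (1 - w) * B * Z3 *
        (e * ((t ^ 2 - t + 1) ^ 2 * (R * (t * (1 - t)))))) * hw12
  have key : -w ^ 2 * (1 - w) ^ (4 * n + 2) * B * (1 - w ^ 2) ^ (4 * n + 1) * (t * (1 - t)) *
      ((1 - t) ^ (4 * n + 1) * P0 - t ^ (2 * n) * P1 +
        t ^ (4 * n + 1) * ((t - 1) ^ (2 * n) * P2)) =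
      -w ^ 2 * (1 - w) ^ (4 * n + 2) * B * (1 - w ^ 2) ^ (4 * n + 1) * (t * (1 - t)) *
        (e * ((t ^ 2 - t + 1) ^ 2 * R)) := by
    rw [← hfe] at hR
    generalize hK : -w ^ 2 * (1 - w) ^ (4 * n + 2) * B * (1 - w ^ 2) ^ (4 * n + 1) = K
      at hg0 hg1 hg2 hR ⊢
    rw [pow_succ (1 - t) (4 * n + 1)] at hg0
    rw [pow_succ t (2 * n)] at b1
    rw [pow_succ t (4 * n + 1)] at b2
    linear_combination hR - hg0 - t ^ (6 * n + 4) * hg1 + G1 * a1 - K * P1 * b1 -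
      (1 - t) ^ (6 * n + 4) * hg2 + G2 * a2 - K * P2 * b2
  rw [hRd]
  refine mul_left_cancel₀ ?_ key
  refine mul_ne_zero (mul_ne_zero (mul_ne_zero (mul_ne_zero ?_ (pow_ne_zero _ hw1)) hB)
    (pow_ne_zero _ hw2)) (mul_ne_zero h0 h1t)
  exact neg_ne_zero.2 (pow_ne_zero _ hw0)

private theorem fp_pt (w : ℂ) (hw : w ^ 2 + w + 1 = 0) (n : ℕ) (hn : 1 ≤ n) (t : ℂ)
    (h0 : t ≠ 0) (h1 : t ≠ 1) (ht : 1 + w * t ≠ 0) :
    (cyc (2 * n) (4 * n + 1) ((1 + X) * Dc n)).eval t =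
      (C (cZ (2 * n) : ℂ) * ((X ^ 2 - X + 1) ^ 2 * (X * (1 - X)) ^ (2 * n - 1))).eval t := by
  have hw3 := fp_w3 hw
  have hw0 := fp_w0 hw
  have hw1 := fp_w1 hw
  have h1t : (1 : ℂ) - t ≠ 0 := fun h => h1 (by linear_combination -h)
  have hdeg : ((1 + X) * Dc n : ℂ[X]).natDegree ≤ 2 * n := by
    have d1 : (1 + X : ℂ[X]).natDegree ≤ 1 := by
      rw [add_comm]
      exact natDegree_X_add_C (1 : ℂ) |>.le
    have d3 := Dc_natDegree n hn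
    refine natDegree_mul_le.trans ?_
    omega
  have hfe := fe_odd_one w 1 hw (by norm_num) (2 * n) ((t + w) / (1 + w * t))
  rw [ev_count] at hfe
  have hg0 := fp_gO w hw n hn t ht
  have ht1 : 1 + w * (1 - 1 / t) = -(w * ((1 + w * t) / t)) := by
    field_simp
    linear_combination t * hw
  have ht1' : 1 + w * (1 - 1 / t) ≠ 0 := by
    rw [ht1]
    exact neg_ne_zero.2 (mul_ne_zero hw0 (div_ne_zero ht h0))
  have hg1 := fp_gO w hw n hn (1 - 1 / t) ht1'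
  have hU1 : (1 - 1 / t + w) / (1 + w * (1 - 1 / t)) = w * ((t + w) / (1 + w * t)) := by
    rw [div_eq_iff ht1', ht1]
    have e : w * ((t + w) / (1 + w * t)) * -(w * ((1 + w * t) / t)) = -(w ^ 2 * (t + w)) / t := by
      field_simp
    rw [e, eq_div_iff h0, add_mul, sub_mul, div_mul_cancel₀ _ h0]
    linear_combination t * hw + hw3
  rw [hU1, ht1] at hg1
  have ht2 : 1 + w * (1 / (1 - t)) = -(w ^ 2 * ((1 + w * t) / (1 - t))) := by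
    field_simp
    linear_combination hw + t * hw3
  have ht2' : 1 + w * (1 / (1 - t)) ≠ 0 := by
    rw [ht2]
    exact neg_ne_zero.2 (mul_ne_zero (pow_ne_zero _ hw0) (div_ne_zero ht h1t))
  have hg2 := fp_gO w hw n hn (1 / (1 - t)) ht2'
  have hU2 : (1 / (1 - t) + w) / (1 + w * (1 / (1 - t))) = w ^ 2 * ((t + w) / (1 + w * t)) := by
    rw [div_eq_iff ht2', ht2]
    have e : w ^ 2 * ((t + w) / (1 + w * t)) * -(w ^ 2 * ((1 + w * t) / (1 - t))) =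
        -(w ^ 4 * (t + w)) / (1 - t) := by
      field_simp
    rw [e, eq_div_iff h1t, add_mul, div_mul_cancel₀ _ h1t]
    linear_combination hw + (w * t + w ^ 2) * hw3
  rw [hU2, ht2] at hg2
  rw [fp_cyc n _ hdeg t h0 h1]
  have hR : (C (cZ (2 * n) : ℂ) *
      ((X ^ 2 - X + 1) ^ 2 * (X * (1 - X)) ^ (2 * n - 1))).eval t =
      (cZ (2 * n) : ℂ) * ((t ^ 2 - t + 1) ^ 2 * (t * (1 - t)) ^ (2 * n - 1)) := by
    simp only [eval_mul, eval_pow, eval_add, eval_sub, eval_one, eval_X, eval_C]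
  rw [hR]
  exact fp_alg w hw n hn t _ _ _ _ _ _ _ _ h0 h1t ht (pow_ne_zero _ hw1) hfe hg0 hg1 hg2

theorem fet_pos (w : ℂ) (hw : w ^ 2 + w + 1 = 0) (n : ℕ) (hn : 1 ≤ n) :
    cyc (2 * n) (4 * n + 1) ((1 + X) * Dc n) =
      C (cZ (2 * n) : ℂ) * ((X ^ 2 - X + 1) ^ 2 * (X * (1 - X)) ^ (2 * n - 1)) := by
  have hw3 := fp_w3 hw
  refine eq_of_infinite_eval_eq _ _ ?_
  refine Set.Infinite.mono ?_ (Set.toFinite ({0, 1, -w ^ 2} : Set ℂ)).infinite_compl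
  intro t ht
  simp only [Set.mem_compl_iff, Set.mem_insert_iff, Set.mem_singleton_iff, not_or] at ht
  obtain ⟨h0, h1, h2⟩ := ht
  refine fp_pt w hw n hn t h0 h1 ?_
  intro h
  apply h2
  linear_combination w ^ 2 * h - t * hw3

end ODR
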