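import Pool.Agent.ODR.Chk
import Pool.Agent.ODR.CycG
import Pool.Agent.ODR.GVal

/-!
# ODR-Pal: the solution of the functional equation is palindromic

Plan. Let `K = 2 n`, `Q = P.reflect K` (`Q.eval t = t^K P.eval (1/t)` for `t ≠ 0`, `Polynomial.eval₂_reflect_mul_pow` or `reflect` by coefficients). Evaluate the hypothesis at
`1/t` (`t ≠ 0, 1`) and multiply by `t^(6 n + 1)`: with `chk_eval`, `chk_chk_eval` one gets
`-(1-t)^(4n+1) Q(t) - t^(4n+1) (1-t)^(2n) Q(1/(1-t)) + t^(2n) Q(1-1/t) = - e (t^2-t+1)^2 (t(1-t))^(2n-1)`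
(`P(1-t) = (1-t)^(2n) Q(1/(1-t))`, `(t-1)^(2n) P(t/(t-1)) = t^(2n) Q(1-1/t)`), which says `cyc K (4n+1) Q` = the same right side. So
`cyc K (4n+1) (P - Q) = 0`, `P - Q = λ gN (2n)` by `cyc_uniq`, and `(P - Q)(1) = 0` (`Q.eval 1 = P.eval 1`), so `P = Q`.
The parity: `(-1)^(2n + (4n+1)) = -1`. `rhs` is the right side of the functional equation.
-/

set_option autoImplicit false

namespace ODR

open Polynomial

private theorem Pal_deg (K : ℕ) (P : ℂ[X]) (hP : P.natDegree ≤ K) : (P.reflect K).natDegree ≤ K := by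
  rw [natDegree_le_iff_coeff_eq_zero]
  intro N hN
  rw [coeff_reflect, revAt_eq_self_of_lt hN]
  exact coeff_eq_zero_of_natDegree_lt (lt_of_le_of_lt hP hN)

private theorem Pal_ev (K : ℕ) (P : ℂ[X]) (hP : P.natDegree ≤ K) (t : ℂ) (ht : t ≠ 0) :
    (P.reflect K).eval t = t ^ K * P.eval (1 / t) := by
  rw [eval_eq_sum_range' (Nat.lt_succ_of_le (Pal_deg K P hP)), eval_eq_sum_range' (Nat.lt_succ_of_le hP),
    ← Finset.sum_range_reflect, Finset.mul_sum]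
  refine Finset.sum_congr rfl fun i hi => ?_
  have hi' : i ≤ K := Nat.lt_succ_iff.1 (Finset.mem_range.1 hi)
  have h1 : K.succ - 1 - i = K - i := by omega
  rw [h1, coeff_reflect, revAt_le (Nat.sub_le K i), Nat.sub_sub_self hi']
  have h2 : t ^ K = t ^ (K - i) * t ^ i := by rw [← pow_add, Nat.sub_add_cancel hi']
  rw [h2, one_div, inv_pow]
  have h3 : t ^ i ≠ 0 := pow_ne_zero _ ht
  field_simp

private theorem Pal_one (K : ℕ) (P : ℂ[X]) (hP : P.natDegree ≤ K) : (P.reflect K).eval 1 = P.eval 1 := by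
  rw [Pal_ev K P hP 1 one_ne_zero]
  simp

theorem D_pal (n : ℕ) (hn : 1 ≤ n) (P : ℂ[X]) (hP : P.natDegree ≤ 2 * n) (e : ℂ)
    (h : cyc (2 * n) (4 * n + 1) P =
      C e * ((X ^ 2 - X + 1) ^ 2 * (X * (1 - X)) ^ (2 * n - 1))) (k : ℕ) (hk : k ≤ 2 * n) :
    P.coeff (2 * n - k) = P.coeff k := by
  have hQ := Pal_deg (2 * n) P hP
  have key : cyc (2 * n) (4 * n + 1) (P.reflect (2 * n)) =
      C e * ((X ^ 2 - X + 1) ^ 2 * (X * (1 - X)) ^ (2 * n - 1)) := by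
    refine poly_ext _ _ fun t ht ht1 => ?_
    have h1t : (1 : ℂ) - t ≠ 0 := sub_ne_zero.2 (Ne.symm ht1)
    have ht' : t - 1 ≠ 0 := sub_ne_zero.2 ht1
    obtain ⟨u, hu⟩ : ∃ u : ℂ, u = 1 / t := ⟨_, rfl⟩
    have hu0 : u ≠ 0 := by rw [hu]; exact one_div_ne_zero ht
    have hut : u * t = 1 := by rw [hu]; field_simp
    have hu1 : u ≠ 1 := fun h1 => ht1 (by rw [h1, one_mul] at hut; exact hut)
    have h1u : (1 : ℂ) - u ≠ 0 := sub_ne_zero.2 (Ne.symm hu1)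
    have hiu : 1 / u = t := by rw [hu]; field_simp
    have hpar : ((-1 : ℂ)) ^ (2 * n + (4 * n + 1)) = -1 := by
      rw [show 2 * n + (4 * n + 1) = 2 * (3 * n) + 1 by ring, pow_succ, pow_mul]
      norm_num
    have h1 := congrArg (eval u) h
    simp only [cyc, eval_add, eval_mul, eval_pow, eval_sub, eval_one, eval_X, eval_C] at h1 ⊢
    rw [chk_eval _ _ hP u hu0, chk_chk_eval _ _ hP u hu0 hu1, hpar, hiu] at h1
    rw [chk_eval _ _ hQ t ht, chk_chk_eval _ _ hQ t ht ht1, hpar, ← hu, Pal_ev _ P hP t ht, Pal_ev _ P hP (1 - u) h1u,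
      Pal_ev _ P hP (1 / (1 - t)) (one_div_ne_zero h1t), one_div_one_div, ← hu]
    generalize P.eval u = a at h1 ⊢
    generalize P.eval (1 - t) = b at h1 ⊢
    generalize P.eval (1 / (1 - u)) = c at h1 ⊢
    have p1 : ((1 : ℂ) - u) ^ (4 * n + 1) * t ^ (4 * n + 1) = -(1 - t) ^ (4 * n + 1) := by
      rw [← mul_pow, show ((1 : ℂ) - u) * t = -(1 - t) by linear_combination (-1 : ℂ) * hut]
      exact Odd.neg_pow ⟨2 * n, by ring⟩ _
    have p2 : u ^ (2 * n) * t ^ (2 * n) = 1 := by rw [← mul_pow, hut, one_pow]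
    have p3 : u ^ (4 * n + 1) * t ^ (4 * n + 1) = 1 := by rw [← mul_pow, hut, one_pow]
    have p4 : (u - 1) ^ (2 * n) = (1 - u) ^ (2 * n) := by
      rw [← neg_sub, Even.neg_pow ⟨n, by ring⟩]
    have p5 : (t - 1) ^ (2 * n) * (1 / (1 - t)) ^ (2 * n) = 1 := by
      rw [← neg_sub 1 t, Even.neg_pow ⟨n, by ring⟩, ← mul_pow, mul_one_div_cancel h1t, one_pow]
    have p6 : (u * (1 - u)) ^ (2 * n - 1) * (t ^ 2) ^ (2 * n - 1) * t ^ (2 * n - 1) = -(t * (1 - t)) ^ (2 * n - 1) := by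
      rw [← mul_pow, show u * (1 - u) * t ^ 2 = -(1 - t) by linear_combination (t - u * t - 1) * hut,
        Odd.neg_pow ⟨n - 1, by omega⟩, mul_pow t]
      ring
    have p7 : ((u ^ 2 - u + 1) * t ^ 2) ^ 2 = (t ^ 2 - t + 1) ^ 2 := by
      rw [show (u ^ 2 - u + 1) * t ^ 2 = t ^ 2 - t + 1 by linear_combination (u * t + 1 - t) * hut]
    have p8 : t ^ (4 * n + 1) * t ^ (2 * n) = (t ^ 2) ^ 2 * (t ^ 2) ^ (2 * n - 1) * t ^ (2 * n - 1) := by
      rw [← pow_mul, ← pow_mul, ← pow_add, ← pow_add, ← pow_add]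
      congr 1
      omega
    linear_combination (-(t ^ (2 * n) * t ^ (4 * n + 1))) * h1 + t ^ (2 * n) * a * p1 + t ^ (4 * n + 1) * b * p5 -
      t ^ (4 * n + 1) * b * p2 + t ^ (2 * n) * c * (u - 1) ^ (2 * n) * p3 + t ^ (2 * n) * c * p4 +
      e * (t * (1 - t)) ^ (2 * n - 1) * p7 - e * ((u ^ 2 - u + 1) * t ^ 2) ^ 2 * p6 -
      e * (u ^ 2 - u + 1) ^ 2 * (u * (1 - u)) ^ (2 * n - 1) * p8
  have hz : cyc (2 * n) (2 * (2 * n) + 1) (P - P.reflect (2 * n)) = 0 := by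
    rw [show 2 * (2 * n) + 1 = 4 * n + 1 by ring, cyc_sub, h, key, sub_self]
  have h0 := cyc_uniq (2 * n) _ hz
  rw [eval_sub, Pal_one _ P hP, sub_self, zero_div, C_0, zero_mul] at h0
  have h1 : P = P.reflect (2 * n) := sub_eq_zero.1 h0
  have h2 := congrArg (fun R : ℂ[X] => R.coeff k) h1
  simp only [coeff_reflect, revAt_le hk] at h2
  exact h2.symm

end ODR
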