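import Pool.Agent.ODR.Chk
import Pool.Agent.ODR.CycG
import Pool.Agent.ODR.GVal

/-!
# ODR-Salg: the polynomial of the sums

Plan. `V = (1+X)^2 (2-X) S - 3 X (1-X) P`, `natDegree V ≤ 2n+3`, `cyc (2n+3) (4n+1) V = 0` (`cyc_T` with `K = 2n` for `X (1-X) P`). Put
`α = V.eval 1 / (-2 (gN (2n)).eval 1)`; `cyc (2n+3) (4n+1) ((1+X)(2-X)(1-2X) gN (2n)) = 0` (`cyc_c3`, `cyc_g`: `2 (2n) + 1 = 4n+1`), so
`V1 = V - C α * ((1+X)(2-X)(1-2X) gN (2n))` vanishes at `1`: `V1 = (1-X) * V2`, `natDegree V2 ≤ 2n+2`, and `cyc (2n+2) (4n+2) V2 = cyc (2n+3) (4n+1) V1 = 0`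
(`cyc_shift`). Put `μ = V2.eval 1 / (gN (2n)).eval 1`; `cyc (2n+3) (4n+1) (X (1-X) gN (2n)) = 0` (`cyc_T`, `cyc_g`); `V1 - C μ * (X (1-X) gN (2n)) =
(1-X) * (V2 - C μ * (X gN (2n)))` and the second factor vanishes at `1`, so it is `(1-X) * V3`, `natDegree V3 ≤ 2n+1`, `cyc (2n+1) (4n+3) V3 = 0` (`cyc_shift`
with `j = 2`), so `V3 = β gN (2n+1)` (`cyc_uniq`: `2 (2n+1) + 1 = 4n+3`). Altogether
`V = α c3 gN(2n) + μ X (1-X) gN(2n) + β (1-X)^2 gN(2n+1)`. At `X = -1`: `V(-1) = 0` (`P(-1) = 0`), `c3(-1) = 0`, `gN_neg_odd`, `gN_neg_even` (`≠ 0`): `μ = 0`.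
`X = 1`: `V(1) = 4 S(1)`, so `α = -2 S(1) / C(6n+1,2n)` (`gN_one`). Constant coefficients: `2 S(0) = 2 α C(4n,2n) + β C(4n+2,2n+1)` (`gN_zero_coeff`).
`S_mean`: derivative at `1`: `4 S'(1) + 3 P(1) = α (c3'(1) g(1) + c3(1) g'(1))`, `c3(1) = -2`, `c3'(1) = -3`, `gN_deriv` (`g'(1) = n g(1)`).
-/

set_option autoImplicit false

namespace ODR

open Polynomial

private theorem salg_div {A : ℂ[X]} {k : ℕ} (h : A.eval 1 = 0) (hd : A.natDegree ≤ k + 1) :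
    ∃ B : ℂ[X], A = (1 - X) * B ∧ B.natDegree ≤ k := by
  have h1 : (X - C (1 : ℂ)) ∣ A := dvd_iff_isRoot.2 h
  obtain ⟨Q, hQ⟩ := h1
  refine ⟨-Q, ?_, ?_⟩
  · rw [hQ, C_1]
    ring
  · rw [natDegree_neg]
    by_cases h0 : Q = 0
    · rw [h0, natDegree_zero]
      exact Nat.zero_le k
    · rw [hQ, natDegree_mul (X_sub_C_ne_zero _) h0, natDegree_X_sub_C] at hd
      omega

private theorem salg_one_ne (n : ℕ) : (gN (2 * n)).eval 1 ≠ 0 := by
  rw [gN_one]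
  have h1 : 0 < (3 * (2 * n) + 1).choose (2 * n) := Nat.choose_pos (by omega)
  exact_mod_cast h1.ne'

theorem S_alg (n : ℕ) (hn : 1 ≤ n) (P S : ℂ[X]) (hP : P.natDegree ≤ 2 * n)
    (hS : S.natDegree ≤ 2 * n) (e : ℂ) (hPm : P.eval (-1) = 0)
    (h : cyc (2 * n) (4 * n + 1) P =
      C e * ((X ^ 2 - X + 1) ^ 2 * (X * (1 - X)) ^ (2 * n - 1)))
    (h' : cyc (2 * n + 3) (4 * n + 1) ((1 + X) ^ 2 * (2 - X) * S) =
      C (3 * e) * ((X ^ 2 - X + 1) ^ 2 * (X * (1 - X)) ^ (2 * n))) :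
    (1 + X) ^ 2 * (2 - X) * S = 3 * X * (1 - X) * P +
      C (-2 * S.eval 1 / ((6 * n + 1).choose (2 * n) : ℕ)) *
        ((1 + X) * (2 - X) * (1 - 2 * X) * gN (2 * n)) +
      C ((2 * S.coeff 0 - 2 * (-2 * S.eval 1 / ((6 * n + 1).choose (2 * n) : ℕ)) *
        ((4 * n).choose (2 * n) : ℕ)) / ((4 * n + 2).choose (2 * n + 1) : ℕ)) *
        ((1 - X) ^ 2 * gN (2 * n + 1)) := by
  have hg1 : (gN (2 * n)).eval 1 = ((6 * n + 1).choose (2 * n) : ℕ) := by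
    rw [gN_one]
    congr 3
    ring
  have hgne := salg_one_ne n
  rw [← hg1]
  have hgd := gN_natDegree (2 * n)
  have hcg : cyc (2 * n) (4 * n + 1) (gN (2 * n)) = 0 := by
    have h1 := cyc_g (2 * n)
    have h2 : 2 * (2 * n) + 1 = 4 * n + 1 := by ring
    rwa [h2] at h1
  have hpow : (X * (1 - X) : ℂ[X]) ^ (2 * n) = (X * (1 - X)) ^ (2 * n - 1) * (X * (1 - X)) := by
    rw [← pow_succ]
    congr 1
    omega
  have hc0 : cyc (2 * n + 3) (4 * n + 1)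
      ((1 + X) ^ 2 * (2 - X) * S - 3 * X * (1 - X) * P) = 0 := by
    have h3 : (3 * X * (1 - X) * P : ℂ[X]) = C 3 * (X * (1 - X) * P) := by
      have : (C 3 : ℂ[X]) = 3 := map_ofNat C 3
      rw [this]
      ring
    rw [cyc_sub, h', h3, cyc_C_mul, cyc_T _ _ _ hP, h, hpow, C_mul]
    ring
  have hcW0 : cyc (2 * n + 3) (4 * n + 1) ((1 + X) * (2 - X) * (1 - 2 * X) * gN (2 * n)) = 0 := by
    rw [cyc_c3 _ _ _ hgd, hcg, mul_zero]
  have hcW1 : cyc (2 * n + 3) (4 * n + 1) (X * (1 - X) * gN (2 * n)) = 0 := by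
    rw [cyc_T _ _ _ hgd, hcg, mul_zero]
  obtain ⟨α, hα⟩ : ∃ α : ℂ, α = -2 * S.eval 1 / (gN (2 * n)).eval 1 := ⟨_, rfl⟩
  have hαg : α * (gN (2 * n)).eval 1 = -2 * S.eval 1 := by
    rw [hα, div_mul_cancel₀ _ hgne]
  rw [← hα]
  have hb : ∀ (A B : ℂ[X]) (a b : ℕ), A.natDegree ≤ a → B.natDegree ≤ b → (A * B).natDegree ≤ a + b :=
    fun A B a b hA hB => natDegree_mul_le.trans (add_le_add hA hB)
  have d1 : ((1 + X) ^ 2 * (2 - X) * S : ℂ[X]).natDegree ≤ 3 + 2 * n :=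
    hb _ _ _ _ (by compute_degree) hS
  have d2 : (3 * X * (1 - X) * P : ℂ[X]).natDegree ≤ 2 + 2 * n :=
    hb _ _ _ _ (by compute_degree) hP
  have d3 : ((1 + X) * (2 - X) * (1 - 2 * X) * gN (2 * n) : ℂ[X]).natDegree ≤ 3 + 2 * n :=
    hb _ _ _ _ (by compute_degree) hgd
  have d4 : (X * gN (2 * n) : ℂ[X]).natDegree ≤ 1 + 2 * n :=
    hb _ _ _ _ (by compute_degree) hgd
  obtain ⟨V, hV⟩ : ∃ V : ℂ[X], V = (1 + X) ^ 2 * (2 - X) * S - 3 * X * (1 - X) * P := ⟨_, rfl⟩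
  rw [← hV] at hc0
  have dV : V.natDegree ≤ 2 * n + 3 := by
    rw [hV]
    refine (natDegree_sub_le _ _).trans (max_le (by omega) (by omega))
  have hV1 : (V - C α * ((1 + X) * (2 - X) * (1 - 2 * X) * gN (2 * n))).eval 1 = 0 := by
    rw [hV]
    simp only [eval_sub, eval_mul, eval_add, eval_pow, eval_one, eval_X, eval_C, eval_ofNat]
    linear_combination 2 * hαg
  obtain ⟨V2, hV2, dV2⟩ := salg_div (k := 2 * n + 2) hV1
    ((natDegree_sub_le _ _).trans (max_le (by omega) ((natDegree_C_mul_le _ _).trans (by omega))))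
  obtain ⟨μ, hμ⟩ : ∃ μ : ℂ, μ = V2.eval 1 / (gN (2 * n)).eval 1 := ⟨_, rfl⟩
  have hμg : μ * (gN (2 * n)).eval 1 = V2.eval 1 := by
    rw [hμ, div_mul_cancel₀ _ hgne]
  have hV3 : (V2 - C μ * (X * gN (2 * n))).eval 1 = 0 := by
    simp only [eval_sub, eval_mul, eval_X, eval_C]
    linear_combination -hμg
  obtain ⟨V3, hV3', dV3⟩ := salg_div (k := 2 * n + 1) hV3
    ((natDegree_sub_le _ _).trans (max_le (by omega) ((natDegree_C_mul_le _ _).trans (by omega))))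
  have key : V = C α * ((1 + X) * (2 - X) * (1 - 2 * X) * gN (2 * n)) +
      C μ * (X * (1 - X) * gN (2 * n)) + (1 - X) ^ 2 * V3 := by
    linear_combination hV2 + (1 - X) * hV3'
  have hc3 : cyc (2 * n + 1) (2 * (2 * n + 1) + 1) V3 = 0 := by
    have h1 := cyc_shift (2 * n + 1) (4 * n + 1) 2 V3 dV3
    have h2 : 4 * n + 1 + 2 = 2 * (2 * n + 1) + 1 := by ring
    have h3 : 2 * n + 1 + 2 = 2 * n + 3 := by ring
    rw [h2, h3] at h1
    rw [← h1]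
    have h4 : (1 - X) ^ 2 * V3 = V - C α * ((1 + X) * (2 - X) * (1 - 2 * X) * gN (2 * n)) -
        C μ * (X * (1 - X) * gN (2 * n)) := by
      rw [key]
      ring
    rw [h4, cyc_sub, cyc_sub, cyc_C_mul, cyc_C_mul, hc0, hcW0, hcW1, mul_zero, mul_zero, sub_zero, sub_zero]
  have hV4 := cyc_uniq (2 * n + 1) V3 hc3
  obtain ⟨β, hβ⟩ : ∃ β : ℂ, β = V3.eval 1 / (gN (2 * n + 1)).eval 1 := ⟨_, rfl⟩
  rw [← hβ] at hV4
  -- `μ = 0`
  have hμ0 : μ = 0 := by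
    have h1 := congrArg (Polynomial.eval (-1)) key
    rw [hV, hV4] at h1
    simp only [eval_sub, eval_mul, eval_add, eval_pow, eval_one, eval_X, eval_C, eval_ofNat, hPm,
      gN_neg_odd, gN_neg_even] at h1
    have h2 : ((3 * n).choose n : ℂ) ≠ 0 := by
      have h3 : 0 < (3 * n).choose n := Nat.choose_pos (by omega)
      exact_mod_cast h3.ne'
    have h3 : μ * ((3 * n).choose n : ℂ) = 0 := by linear_combination (1 / 2) * h1
    exact (mul_eq_zero.1 h3).resolve_right h2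
  -- constant coefficients
  have hβ' : β = (2 * S.coeff 0 - 2 * α * ((4 * n).choose (2 * n) : ℕ)) /
      ((4 * n + 2).choose (2 * n + 1) : ℕ) := by
    have h1 := congrArg (Polynomial.eval 0) key
    rw [hV, hV4] at h1
    have e1 : (gN (2 * n)).eval 0 = ((4 * n).choose (2 * n) : ℕ) := by
      rw [← coeff_zero_eq_eval_zero, gN_zero_coeff, show 2 * (2 * n) = 4 * n by ring]
    have e2 : (gN (2 * n + 1)).eval 0 = ((4 * n + 2).choose (2 * n + 1) : ℕ) := by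
      rw [← coeff_zero_eq_eval_zero, gN_zero_coeff, show 2 * (2 * n + 1) = 4 * n + 2 by ring]
    simp only [eval_sub, eval_mul, eval_add, eval_pow, eval_one, eval_X, eval_C, eval_ofNat, e1, e2] at h1
    rw [← coeff_zero_eq_eval_zero] at h1
    have h2 : (((4 * n + 2).choose (2 * n + 1) : ℕ) : ℂ) ≠ 0 := by
      have h3 : 0 < (4 * n + 2).choose (2 * n + 1) := Nat.choose_pos (by omega)
      exact_mod_cast h3.ne'
    rw [eq_div_iff h2]
    linear_combination -h1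
  rw [← hβ']
  have h1 : (1 + X) ^ 2 * (2 - X) * S = V + 3 * X * (1 - X) * P := by
    rw [hV]
    ring
  rw [h1, key, hV4, hμ0, C_0]
  ring

theorem S_mean (n : ℕ) (P S : ℂ[X]) (b : ℂ)
    (h : (1 + X) ^ 2 * (2 - X) * S = 3 * X * (1 - X) * P +
      C (-2 * S.eval 1 / ((6 * n + 1).choose (2 * n) : ℕ)) *
        ((1 + X) * (2 - X) * (1 - 2 * X) * gN (2 * n)) + C b * ((1 - X) ^ 2 * gN (2 * n + 1))) :
    4 * (derivative S).eval 1 + 3 * P.eval 1 = 2 * (2 * n + 3) * S.eval 1 := by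
  have hg1 : (gN (2 * n)).eval 1 = ((6 * n + 1).choose (2 * n) : ℕ) := by
    rw [gN_one]
    congr 3
    ring
  have hgne := salg_one_ne n
  rw [← hg1] at h
  have hd := gN_deriv (2 * n)
  obtain ⟨α, hα⟩ : ∃ α : ℂ, α = -2 * S.eval 1 / (gN (2 * n)).eval 1 := ⟨_, rfl⟩
  have hαg : α * (gN (2 * n)).eval 1 = -2 * S.eval 1 := by
    rw [hα, div_mul_cancel₀ _ hgne]
  rw [← hα] at h
  have h1 := congrArg (fun A : ℂ[X] => (derivative A).eval 1) h
  simp only [derivative_mul, derivative_add, derivative_sub, derivative_pow, derivative_X, derivative_one,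
    derivative_C, derivative_ofNat, eval_add, eval_sub, eval_mul, eval_pow, eval_X, eval_one, eval_C,
    eval_ofNat, eval_zero, Nat.cast_ofNat] at h1
  push_cast at hd
  have hd' : (derivative (gN (2 * n))).eval 1 = n * (gN (2 * n)).eval 1 := by
    linear_combination (1 / 2) * hd
  rw [hd'] at h1
  linear_combination h1 - (2 * n + 3) * hαg

end ODR
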