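import Pool.Agent.ODR.Chk
import Pool.Agent.ODR.GVal
import Pool.Agent.ODR.Pal
import Pool.Agent.ODR.Drec
import Pool.Agent.ODR.Dsum
import Pool.Agent.ODR.Salg
import Pool.Agent.ODR.FetP
import Pool.Agent.ODR.FetN
import Pool.Agent.ODR.End
import Pool.Agent.ODR.Bcnt
import Pool.Agent.ODR.Bcz

/-!
# ODR-Asm: assembly of the refined enumeration
-/

set_option autoImplicit false

namespace ODR

open ODD Polynomial

/-! ## counts -/

theorem dd_zero (n : ℕ) : dd n 0 = (cZ (2 * n) : ℚ) := by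
  rw [dd, nref_zero, nref_zero_neg, Nat.cast_zero, sub_zero]

theorem dd_succ (n i : ℕ) (hi : i < 2 * n) :
    dd n (i + 1) = (cU (2 * n) i 1 : ℚ) - (cU (2 * n) i (-1) : ℚ) := by
  rw [dd, nref_succ n i hi 1 (Or.inl rfl), nref_succ n i hi (-1) (Or.inr rfl)]

theorem ss_zero (n : ℕ) : ss n 0 = (cZ (2 * n) : ℚ) := by
  rw [ss, nref_zero, nref_zero_neg, Nat.cast_zero, add_zero]

theorem ss_succ (n i : ℕ) (hi : i < 2 * n) :
    ss n (i + 1) = (cU (2 * n) i 1 : ℚ) + (cU (2 * n) i (-1) : ℚ) := by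
  rw [ss, nref_succ n i hi 1 (Or.inl rfl), nref_succ n i hi (-1) (Or.inr rfl)]

theorem del_cast (n : ℕ) : ((del n : ℚ) : ℂ) = (cP n : ℂ) - (cM n : ℂ) := by
  rw [del, Npos_eq, Nneg_eq]
  push_cast
  rfl

/-! ## over the complex numbers -/

theorem map_Dp (n : ℕ) : (Dp n).map (algebraMap ℚ ℂ) = Dc n := by
  unfold Dp Dc
  rw [Polynomial.map_add, Polynomial.map_sum, map_C, dd_zero]
  have h : ∀ i ∈ Finset.range (2 * n), (C (dd n (i + 1)) * X ^ i).map (algebraMap ℚ ℂ) =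
      C ((cU (2 * n) i 1 : ℂ) - (cU (2 * n) i (-1) : ℂ)) * X ^ i := by
    intro i hi
    rw [Polynomial.map_mul, Polynomial.map_pow, map_X, map_C, dd_succ n i (Finset.mem_range.1 hi)]
    simp
  rw [Finset.sum_congr rfl h]
  simp

theorem map_Sp (n : ℕ) : (Sp n).map (algebraMap ℚ ℂ) = Sc n := by
  unfold Sp Sc
  rw [Polynomial.map_add, Polynomial.map_mul, Polynomial.map_sum, map_C, ss_zero]
  have h : ∀ i ∈ Finset.range (2 * n), (C (ss n (i + 1)) * X ^ i).map (algebraMap ℚ ℂ) =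
      C ((cU (2 * n) i 1 : ℂ) + (cU (2 * n) i (-1) : ℂ)) * X ^ i := by
    intro i hi
    rw [Polynomial.map_mul, Polynomial.map_pow, map_X, map_C, ss_succ n i (Finset.mem_range.1 hi)]
    simp
  rw [Finset.sum_congr rfl h]
  simp

theorem map_gq (N : ℕ) : (gq N).map (algebraMap ℚ ℂ) = gN N := by
  unfold gq gN
  rw [Polynomial.map_sum]
  refine Finset.sum_congr rfl fun i _ => ?_
  rw [Polynomial.map_mul, Polynomial.map_pow, map_X, map_C]
  simp

/-- `(1 + X) D` -/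
noncomputable def Pc (n : ℕ) : ℂ[X] := (1 + X) * Dc n

theorem Pc_natDegree (n : ℕ) (hn : 1 ≤ n) : (Pc n).natDegree ≤ 2 * n := by
  unfold Pc
  have h1 : (1 + X : ℂ[X]).natDegree ≤ 1 := by
    have h : (1 + X : ℂ[X]) = C 1 * X + C 1 := by
      simp [add_comm]
    rw [h]
    exact natDegree_linear_le
  have h2 := Dc_natDegree n hn
  refine natDegree_mul_le.trans ?_
  omega

theorem Pc_fe (n : ℕ) (hn : 1 ≤ n) :
    cyc (2 * n) (4 * n + 1) (Pc n) =
      C (cZ (2 * n) : ℂ) * ((X ^ 2 - X + 1) ^ 2 * (X * (1 - X)) ^ (2 * n - 1)) := by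
  obtain ⟨w, hw⟩ := exists_w
  exact fet_pos w hw n hn

theorem Pc_pal (n : ℕ) (hn : 1 ≤ n) (k : ℕ) (hk : k ≤ 2 * n) :
    (Pc n).coeff (2 * n - k) = (Pc n).coeff k :=
  D_pal n hn (Pc n) (Pc_natDegree n hn) _ (Pc_fe n hn) k hk

theorem Pc_one (n : ℕ) (hn : 1 ≤ n) : (Pc n).eval 1 = 2 * ((del n : ℚ) : ℂ) := by
  rw [Pc, eval_mul, Dc_one n hn, del_cast]
  have h : (1 + X : ℂ[X]).eval 1 = 2 := by
    simp
    norm_num
  rw [h]

theorem Pc_zero (n : ℕ) (hn : 1 ≤ n) : (Pc n).coeff 0 = ((del (n - 1) : ℚ) : ℂ) := by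
  rw [coeff_zero_eq_eval_zero, Pc, eval_mul, Dc_zero n hn, del_cast]
  simp

theorem Pc_neg (n : ℕ) : (Pc n).eval (-1) = 0 := by
  rw [Pc, eval_mul]
  simp

theorem closed (n : ℕ) (hn : 1 ≤ n) :
    (1 - X) ^ (2 * n - 2) * Pc n =
      C (cZ (2 * n) : ℂ) * (C (1 / 2) * X ^ (2 * n - 1) + ∑ k ∈ Finset.Icc 1 (n - 1),
        C (nuC (fun k => (cZ (2 * k) : ℂ)) (fun k => ((del k : ℚ) : ℂ)) k) *
          (X ^ (2 * n - 2 * k) * (1 - X) ^ (2 * k - 2) * gN (2 * k))) +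
      C (((del (n - 1) : ℚ) : ℂ) / ((4 * n).choose (2 * n) : ℕ)) *
        ((1 - X) ^ (2 * n - 2) * gN (2 * n)) := by
  refine D_closed Pc (fun k => (cZ (2 * k) : ℂ)) (fun k => ((del k : ℚ) : ℂ)) ?_ ?_ ?_ n hn
  · intro k _
    have h := neven_pos k
    rw [neven_eq] at h
    exact_mod_cast h.ne'
  · have h := D_base (Pc 1) (cZ (2 * 1) : ℂ) (by
      have := Pc_fe 1 le_rfl
      simpa using this)
    rw [Pc_zero 1 le_rfl] at h
    exact h
  · intro k hk
    have h := D_rec k hk (Pc k) (Pc (k + 1)) (Pc_natDegree k hk)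
      (Pc_natDegree (k + 1) (by omega)) (cZ (2 * k) : ℂ) (cZ (2 * (k + 1)) : ℂ) (Pc_fe k hk)
      (Pc_fe (k + 1) (by omega)) (Pc_pal k hk) (Pc_pal (k + 1) (by omega))
    rw [Pc_zero (k + 1) (by omega), Pc_one k hk, Nat.add_sub_cancel] at h
    exact h

theorem sum_eq (n : ℕ) (hn : 1 ≤ n) :
    (1 + X) ^ 2 * (2 - X) * Sc n = 3 * X * (1 - X) * Pc n +
      C (-2 * (Sc n).eval 1 / ((6 * n + 1).choose (2 * n) : ℕ)) *
        ((1 + X) * (2 - X) * (1 - 2 * X) * gN (2 * n)) +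
      C ((2 * (Sc n).coeff 0 - 2 * (-2 * (Sc n).eval 1 / ((6 * n + 1).choose (2 * n) : ℕ)) *
        ((4 * n).choose (2 * n) : ℕ)) / ((4 * n + 2).choose (2 * n + 1) : ℕ)) *
        ((1 - X) ^ 2 * gN (2 * n + 1)) := by
  obtain ⟨w, hw⟩ := exists_w
  exact S_alg n hn (Pc n) (Sc n) (Pc_natDegree n hn) (Sc_natDegree n hn) _ (Pc_neg n) (Pc_fe n hn)
    (fet_neg w hw n hn)

/-! ## over the rational numbers -/

private theorem map_inj : Function.Injective (Polynomial.map (algebraMap ℚ ℂ)) :=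
  Polynomial.map_injective _ (algebraMap ℚ ℂ).injective

theorem Sc_one' (n : ℕ) (hn : 1 ≤ n) : (Sc n).eval 1 = (Nall n : ℂ) := by
  rw [Sc_one n hn, Nall_eq, Npos_eq, Nneg_eq]
  push_cast
  rfl

theorem Sc_zero' (n : ℕ) (hn : 1 ≤ n) : (Sc n).coeff 0 = -(Nall (n - 1) : ℂ) := by
  rw [coeff_zero_eq_eval_zero, Sc_zero n hn, Nall_eq, Npos_eq, Nneg_eq]
  push_cast
  rfl

theorem part2 (n : ℕ) (hn : 1 ≤ n) :
    (1 - X) ^ (2 * n - 2) * ((1 + X) * Dp n) =
      C (Neven n : ℚ) * (C (1 / 2) * X ^ (2 * n - 1) + ∑ k ∈ Finset.Icc 1 (n - 1),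
        C (nu k) * (X ^ (2 * n - 2 * k) * (1 - X) ^ (2 * k - 2) * gq (2 * k))) +
      C (del (n - 1) / ((4 * n).choose (2 * n) : ℕ)) * ((1 - X) ^ (2 * n - 2) * gq (2 * n)) := by
  apply map_inj
  have h := closed n hn
  rw [Pc, ← map_Dp] at h
  have hnu : ∀ k, algebraMap ℚ ℂ (nu k) =
      nuC (fun k => (cZ (2 * k) : ℂ)) (fun k => ((del k : ℚ) : ℂ)) k := by
    intro k
    rw [nu, nuC, neven_eq]
    simp
  simp only [Polynomial.map_mul, Polynomial.map_pow, Polynomial.map_sub, Polynomial.map_add,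
    Polynomial.map_one, map_X, map_C, Polynomial.map_sum, map_gq, hnu]
  rw [h, neven_eq]
  simp

theorem part3 (n : ℕ) (hn : 1 ≤ n) :
    (1 + X) ^ 2 * (2 - X) * Sp n = 3 * X * (1 - X) * ((1 + X) * Dp n) +
      C (al n) * ((1 + X) * (2 - X) * (1 - 2 * X) * gq (2 * n)) +
      C (be n) * ((1 - X) ^ 2 * gq (2 * n + 1)) := by
  apply map_inj
  have h := sum_eq n hn
  rw [Sc_one' n hn, Sc_zero' n hn, Pc, ← map_Dp, ← map_Sp] at h
  have hal : algebraMap ℚ ℂ (al n) = -2 * (Nall n : ℂ) / ((6 * n + 1).choose (2 * n) : ℕ) := by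
    rw [al]
    simp
  have hbe : algebraMap ℚ ℂ (be n) =
      (2 * -(Nall (n - 1) : ℂ) - 2 * (-2 * (Nall n : ℂ) / ((6 * n + 1).choose (2 * n) : ℕ)) *
        ((4 * n).choose (2 * n) : ℕ)) / ((4 * n + 2).choose (2 * n + 1) : ℕ) := by
    rw [be, map_div₀, map_neg, map_add, map_mul, map_mul, map_mul, hal]
    simp
    ring
  simp only [Polynomial.map_mul, Polynomial.map_pow, Polynomial.map_sub, Polynomial.map_add,
    Polynomial.map_one, map_X, map_C, map_gq, hal, hbe, Polynomial.map_ofNat]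
  exact h

theorem Dp_coeff_zero (n : ℕ) (hn : 1 ≤ n) : (Dp n).coeff 0 = dd n 0 + dd n 1 := by
  unfold Dp
  rw [coeff_add, finsetSum_coeff, coeff_C_zero]
  congr 1
  rw [Finset.sum_eq_single 0]
  · simp
  · intro b _ hb
    rw [coeff_C_mul, coeff_X_pow, if_neg (by omega), mul_zero]
  · intro h
    exact absurd (Finset.mem_range.2 (by omega)) h

theorem Dp_coeff (n j : ℕ) (hj : 1 ≤ j) (hj' : j < 2 * n) : (Dp n).coeff j = dd n (j + 1) := by
  unfold Dp
  rw [coeff_add, finsetSum_coeff, coeff_C, if_neg (by omega), zero_add]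
  rw [Finset.sum_eq_single j]
  · simp
  · intro b _ hb
    rw [coeff_C_mul, coeff_X_pow, if_neg (by omega), mul_zero]
  · intro h
    exact absurd (Finset.mem_range.2 (by omega)) h

theorem Dp_coeff_big (n j : ℕ) (hj : 2 * n ≤ j) (hn : 1 ≤ n) : (Dp n).coeff j = 0 := by
  unfold Dp
  rw [coeff_add, finsetSum_coeff, coeff_C, if_neg (by omega), zero_add]
  refine Finset.sum_eq_zero fun b hb => ?_
  have := Finset.mem_range.1 hb
  rw [coeff_C_mul, coeff_X_pow, if_neg (by omega), mul_zero]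

theorem coeff_mul_one_add (p : ℚ[X]) (k : ℕ) :
    ((1 + X) * p).coeff (k + 1) = p.coeff (k + 1) + p.coeff k := by
  rw [add_mul, one_mul, coeff_add, coeff_X_mul]

theorem Pq_pal (n : ℕ) (hn : 1 ≤ n) (k : ℕ) (hk : k ≤ 2 * n) :
    ((1 + X) * Dp n).coeff (2 * n - k) = ((1 + X) * Dp n).coeff k := by
  have h := Pc_pal n hn k hk
  have e : Pc n = ((1 + X) * Dp n).map (algebraMap ℚ ℂ) := by
    rw [Polynomial.map_mul, map_Dp, Pc]
    simp
  rw [e, coeff_map, coeff_map] at h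
  exact (algebraMap ℚ ℂ).injective h

theorem Dp_pal (n : ℕ) (hn : 1 ≤ n) (k : ℕ) (hk : k ≤ 2 * n - 1) :
    (Dp n).coeff (2 * n - 1 - k) = (Dp n).coeff k := by
  induction k with
  | zero =>
    have h := Pq_pal n hn 0 (by omega)
    have e : 2 * n - 0 = (2 * n - 1) + 1 := by omega
    rw [e, coeff_mul_one_add] at h
    rw [Dp_coeff_big n (2 * n - 1 + 1) (by omega) hn, zero_add] at h
    have e0 : ((1 + X) * Dp n).coeff 0 = (Dp n).coeff 0 := by
      rw [mul_coeff_zero]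
      simp
    rw [e0] at h
    exact h
  | succ k ih =>
    have ih' := ih (by omega)
    have h := Pq_pal n hn (k + 1) (by omega)
    have e : 2 * n - (k + 1) = (2 * n - 1 - (k + 1)) + 1 := by omega
    rw [e, coeff_mul_one_add, coeff_mul_one_add] at h
    have e2 : 2 * n - 1 - (k + 1) + 1 = 2 * n - 1 - k := by omega
    rw [e2, ih'] at h
    linarith

theorem part1a (n : ℕ) (hn : 1 ≤ n) (i : ℕ) (h2 : 2 ≤ i) (hi : i ≤ 2 * n - 1) :
    dd n i = dd n (2 * n + 1 - i) := by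
  have h := Dp_pal n hn (i - 1) (by omega)
  rw [Dp_coeff n (i - 1) (by omega) (by omega),
    Dp_coeff n (2 * n - 1 - (i - 1)) (by omega) (by omega)] at h
  have e1 : i - 1 + 1 = i := by omega
  have e2 : 2 * n - 1 - (i - 1) + 1 = 2 * n + 1 - i := by omega
  rw [e1, e2] at h
  exact h.symm

theorem part1b (n : ℕ) (hn : 1 ≤ n) : dd n 0 + dd n 1 = del (n - 1) := by
  rw [← Dp_coeff_zero n hn]
  have h := Dc_zero n hn
  rw [← coeff_zero_eq_eval_zero, ← map_Dp, coeff_map, ← del_cast] at h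
  exact (algebraMap ℚ ℂ).injective h

theorem part1c (n : ℕ) (hn : 1 ≤ n) : dd n (2 * n) = del (n - 1) := by
  rw [← part1b n hn, ← Dp_coeff_zero n hn]
  have h := Dp_pal n hn 0 (by omega)
  rw [Nat.sub_zero, Dp_coeff n (2 * n - 1) (by omega) (by omega)] at h
  have e : 2 * n - 1 + 1 = 2 * n := by omega
  rw [e] at h
  exact h

theorem part4 (n : ℕ) (hn : 1 ≤ n) :
    2 * ∑ i ∈ Finset.range (2 * n + 1), ((i : ℚ) + 1) * ss n i =
      (2 * n + 3) * ODD.Nall n - 3 * del n + 2 * Neven n := by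
  have h := S_mean n (Pc n) (Sc n) _ (sum_eq n hn)
  rw [Pc_one n hn, Sc_one' n hn, ← map_Sp] at h
  have hd : (derivative (Sp n)).eval 1 =
      ∑ i ∈ Finset.range (2 * n), ((i : ℚ) + 2) * ss n (i + 1) := by
    unfold Sp
    rw [derivative_add, derivative_C, zero_add, derivative_mul, eval_add, eval_mul, eval_mul,
      derivative_sum, eval_finsetSum, eval_finsetSum]
    have e1 : (derivative (2 * X - 1 : ℚ[X])).eval 1 = 2 := by
      simp
    have e2 : (2 * X - 1 : ℚ[X]).eval 1 = 1 := by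
      simp; norm_num
    rw [e1, e2, one_mul, Finset.mul_sum, ← Finset.sum_add_distrib]
    refine Finset.sum_congr rfl fun i _ => ?_
    rw [derivative_C_mul, derivative_X_pow]
    simp
    ring
  have hd' : (derivative ((Sp n).map (algebraMap ℚ ℂ))).eval 1 =
      (((derivative (Sp n)).eval 1 : ℚ) : ℂ) := by
    rw [derivative_map]
    have h2 := Polynomial.eval_map_apply (algebraMap ℚ ℂ) (p := derivative (Sp n)) 1
    rw [map_one] at h2
    rw [h2]
    rfl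
  rw [hd', hd] at h
  have h3 : 4 * ∑ i ∈ Finset.range (2 * n), ((i : ℚ) + 2) * ss n (i + 1) + 3 * (2 * del n) =
      2 * (2 * n + 3) * (Nall n : ℚ) := by
    exact_mod_cast h
  rw [Finset.sum_range_succ']
  have h4 : ∑ i ∈ Finset.range (2 * n), (((i + 1 : ℕ) : ℚ) + 1) * ss n (i + 1) =
      ∑ i ∈ Finset.range (2 * n), ((i : ℚ) + 2) * ss n (i + 1) := by
    refine Finset.sum_congr rfl fun i _ => ?_
    push_cast
    ring
  rw [h4, ss_zero, neven_eq]
  push_cast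
  linarith

end ODR
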