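import Pool.Agent.ODR.Brow
import Pool.Agent.ODR.Bpsi

/-!
# ODR-Bod: the odd function in one parameter through the refined numbers

Plan. `Od w s (U :: 1^M) = snd (Psi (dO w s) (algebraMap U :: 1^M) (false :: zs M))` (`ODD.Od`, `ODD.Z`, `ODD.zs`, `List.map_replicate`, `map_one`), `ODD.psi_cons_cons`, the sum over
`r`: `r = true`: `kap = eps` and `row_true`; `r = false`: `kap = algebraMap U - s w^2` (`al = 1`, `be = -(s w^2)`) and `row_false`. `snd (eps * (algebraMap x * y)) = x * fst y`,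
`snd (algebraMap x * y) = x * snd y` (as `snd_alg` in `ODD/IFA`), then `psi_zs`, `psi_ul`.
-/

set_option autoImplicit false

namespace ODR

open ODD

private theorem bod_snd (x : ℂ) (z : DualNumber ℂ) :
    TrivSqZeroExt.snd (algebraMap ℂ (DualNumber ℂ) x * z) = x * TrivSqZeroExt.snd z := by
  rw [← Algebra.smul_def, TrivSqZeroExt.snd_smul, smul_eq_mul]

private theorem bod_fst (x : ℂ) (z : DualNumber ℂ) :
    TrivSqZeroExt.fst (algebraMap ℂ (DualNumber ℂ) x * z) = x * TrivSqZeroExt.fst z := by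
  rw [← Algebra.smul_def, TrivSqZeroExt.fst_smul, smul_eq_mul]

private theorem bod_eps (z : DualNumber ℂ) :
    TrivSqZeroExt.snd (DualNumber.eps * z) = TrivSqZeroExt.fst z := by
  rw [TrivSqZeroExt.snd_mul, DualNumber.fst_eps, DualNumber.snd_eps, zero_smul, zero_add]
  simp only [MulOpposite.smul_eq_mul_unop, MulOpposite.unop_op, one_mul]

theorem od_refined (w s : ℂ) (M : ℕ) (hM : 1 ≤ M) (U : ℂ) :
    Od w s (U :: List.replicate M 1) =
      (1 - w) ^ (M * (M - 1) / 2) * (1 - s * w ^ 2) ^ (M - 1) *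
        ((1 - s * w ^ 2) * (1 - w * U) ^ M * (cZ M : ℂ) +
          (U - s * w ^ 2) * (1 - w) * ∑ i ∈ Finset.range M,
            (U - w) ^ i * (1 - w * U) ^ (M - 1 - i) * ((cU M i 1 : ℂ) - s * (cU M i (-1) : ℂ))) := by
  have hz : zs (M + 1) = false :: zs M := List.replicate_succ
  have hw : (dO w s).w = algebraMap ℂ (DualNumber ℂ) w := rfl
  have h1 : Od w s (U :: List.replicate M 1) =
      TrivSqZeroExt.snd (Psi (dO w s) (algebraMap ℂ (DualNumber ℂ) U :: List.replicate M 1)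
        (false :: zs M)) := by
    rw [Od, Z, List.map_cons, List.map_replicate, map_one, List.length_cons,
      List.length_replicate, hz]
  have hk0 : kap (dO w s) (algebraMap ℂ (DualNumber ℂ) U) false false =
      algebraMap ℂ (DualNumber ℂ) (U - s * w ^ 2) := by
    simp only [kap, dO, map_sub, one_mul, map_neg]
    ring
  have hk1 : kap (dO w s) (algebraMap ℂ (DualNumber ℂ) U) false true = DualNumber.eps := rfl
  have e1 : (1 : DualNumber ℂ) - (dO w s).w * algebraMap ℂ (DualNumber ℂ) U =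
      algebraMap ℂ (DualNumber ℂ) (1 - w * U) := by
    rw [hw, map_sub, map_one, map_mul]
  have e2 : algebraMap ℂ (DualNumber ℂ) U - (dO w s).w =
      algebraMap ℂ (DualNumber ℂ) (U - w) := by
    rw [hw, map_sub]
  have e3 : (1 : DualNumber ℂ) - (dO w s).w = algebraMap ℂ (DualNumber ℂ) (1 - w) := by
    rw [hw, map_sub, map_one]
  rw [h1, psi_cons_cons, Fintype.sum_bool, row_true, row_false, hk0, hk1, e1, e2, e3,
    TrivSqZeroExt.snd_add, bod_eps, ← map_pow, bod_fst, bod_snd, psi_zs]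
  have h3 : TrivSqZeroExt.snd (∑ i ∈ Finset.range M,
      algebraMap ℂ (DualNumber ℂ) (U - w) ^ i * algebraMap ℂ (DualNumber ℂ) (1 - w) *
        algebraMap ℂ (DualNumber ℂ) (1 - w * U) ^ (M - 1 - i) *
        Psi (dO w s) (List.replicate M 1) (ul M i)) =
      ∑ i ∈ Finset.range M, (U - w) ^ i * (1 - w) * (1 - w * U) ^ (M - 1 - i) *
        ((1 - w) ^ (M * (M - 1) / 2) * (1 - s * w ^ 2) ^ (M - 1) *
        ((cU M i 1 : ℂ) - s * (cU M i (-1) : ℂ))) := by
    rw [TrivSqZeroExt.snd_sum]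
    refine Finset.sum_congr rfl fun i _ => ?_
    rw [← map_pow, ← map_pow, ← map_mul, ← map_mul, bod_snd, psi_ul w s M i hM]
  rw [h3]
  obtain ⟨m, rfl⟩ : ∃ m, M = m + 1 := ⟨M - 1, by omega⟩
  have e4 : (1 - s * w ^ 2) ^ (m + 1) = (1 - s * w ^ 2) ^ m * (1 - s * w ^ 2) := pow_succ _ _
  rw [e4, Nat.add_sub_cancel, mul_add, Finset.mul_sum, Finset.mul_sum, Finset.mul_sum]
  congr 1
  · ring
  · refine Finset.sum_congr rfl fun i _ => ?_
    ring

end ODR
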