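import Pool.Agent.ODR.Defs
import Pool.Agent.ODD.Count

/-!
# ODR-Lcnt: counting by the column of the first `1`

Plan. The matrices in question are the disjoint union over `i < 2 n + 1` with `P i` of the sets counted by `Nref n e i` (the column `j` with `A 0 j = 1` is unique: the first row has entries `0, 1`
(`A 0 j = A j 0` is a first partial sum of the row `j`) and sum `1`). Everything is finite (`ODD.Sset_finite`, `ODD.isOSASM_iff`; see `ODD.Nall_eq`). For instance with `Finset.card_eq_sum_card_fiberwise` or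
`Set.ncard` of a finite union, or induction.
-/

set_option autoImplicit false

namespace ODR

private lemma lcnt_uniq {n : ℕ} {A : Matrix (Fin (2 * n + 1)) (Fin (2 * n + 1)) ℤ}
    (h : ODD.IsOSASM n A) {j j' : Fin (2 * n + 1)} (hj : A 0 j = 1) (hj' : A 0 j' = 1) :
    j = j' := by
  by_contra hne
  obtain ⟨-, h2, h3, -, -, h6, -⟩ := h
  have hnn : ∀ k, 0 ≤ A 0 k := by
    intro k
    have h4 := h2 k 0
    have h5 : (Finset.Iic (0 : Fin (2 * n + 1))) = {0} := by
      ext x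
      rw [Finset.mem_Iic, Finset.mem_singleton]
      exact Fin.le_zero_iff
    rw [h5, Finset.sum_singleton] at h4
    rw [h6 0 k]
    rcases h4 with h4 | h4
    · rw [h4]
    · rw [h4]; exact zero_le_one
  have h4 : ∑ k ∈ ({j, j'} : Finset (Fin (2 * n + 1))), A 0 k ≤ ∑ k, A 0 k :=
    Finset.sum_le_sum_of_subset_of_nonneg (Finset.subset_univ _) (fun k _ _ => hnn k)
  rw [Finset.sum_pair hne, hj, hj', h3 0] at h4
  omega

theorem card_split (n : ℕ) (e : ℤ) (P : ℕ → Prop) [DecidablePred P] :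
    Nat.card {A : Matrix (Fin (2 * n + 1)) (Fin (2 * n + 1)) ℤ //
      ODD.IsOSASM n A ∧ (∃ d, A d d = e) ∧ ∃ j : Fin (2 * n + 1), A 0 j = 1 ∧ P j} =
    ∑ i ∈ Finset.range (2 * n + 1), if P i then Nref n e i else 0 := by
  classical
  have hfin : {A : Matrix (Fin (2 * n + 1)) (Fin (2 * n + 1)) ℤ |
      ODD.IsOSASM n A ∧ ∃ d, A d d = e}.Finite := by
    refine (ODD.Sset_finite (2 * n + 1) 0 (fun j => Or.inl rfl)).subset fun A hA => ?_
    exact ((ODD.isOSASM_iff n A).1 hA.1).1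
  have hmem : ∀ A, A ∈ hfin.toFinset ↔ (ODD.IsOSASM n A ∧ ∃ d, A d d = e) := by
    intro A
    rw [Set.Finite.mem_toFinset, Set.mem_ofPred_eq]
  have key : ∀ (Q : Matrix (Fin (2 * n + 1)) (Fin (2 * n + 1)) ℤ → Prop) [DecidablePred Q],
      Nat.card {A : Matrix (Fin (2 * n + 1)) (Fin (2 * n + 1)) ℤ //
        ODD.IsOSASM n A ∧ (∃ d, A d d = e) ∧ Q A} = (hfin.toFinset.filter Q).card := by
    intro Q _
    refine Nat.subtype_card _ fun A => ?_
    rw [Finset.mem_filter, hmem]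
    exact and_assoc
  rw [key (fun A => ∃ j : Fin (2 * n + 1), A 0 j = 1 ∧ P j), ← Finset.sum_filter]
  have hun : hfin.toFinset.filter (fun A => ∃ j : Fin (2 * n + 1), A 0 j = 1 ∧ P j) =
      ((Finset.range (2 * n + 1)).filter P).biUnion (fun i =>
        hfin.toFinset.filter (fun A => ∃ j : Fin (2 * n + 1), (j : ℕ) = i ∧ A 0 j = 1)) := by
    ext A
    rw [Finset.mem_filter, Finset.mem_biUnion]
    constructor
    · rintro ⟨hA, j, h1, h2⟩
      refine ⟨(j : ℕ), Finset.mem_filter.2 ⟨Finset.mem_range.2 j.2, h2⟩,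
        Finset.mem_filter.2 ⟨hA, j, rfl, h1⟩⟩
    · rintro ⟨i, hi, hA⟩
      obtain ⟨hA1, j, h1, h2⟩ := Finset.mem_filter.1 hA
      refine ⟨hA1, j, h2, ?_⟩
      rw [h1]
      exact (Finset.mem_filter.1 hi).2
  rw [hun, Finset.card_biUnion]
  · refine Finset.sum_congr rfl fun i _ => ?_
    rw [Nref, key (fun A => ∃ j : Fin (2 * n + 1), (j : ℕ) = i ∧ A 0 j = 1)]
  · intro i _ i' _ hii
    refine Finset.disjoint_left.2 ?_
    intro A hA hA'
    obtain ⟨hA1, j, h1, h2⟩ := Finset.mem_filter.1 hA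
    obtain ⟨-, j', h1', h2'⟩ := Finset.mem_filter.1 hA'
    apply hii
    rw [← h1, ← h1', lcnt_uniq ((hmem A).1 hA1).1 h2 h2']

end ODR
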