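import Mathlib

/-!
# ODR-Llaw: from characteristic functions to distribution functions

Plan. `θ = 0`: the masses `m n = ∑ a n i` tend to `1/2`, so are positive for large `n`; `μ n = (m n)⁻¹ ∑ a n i δ_(x n i)` (a Dirac measure for the other `n`) is a probability measure with
`charFun (μ n) θ = (∑ a n i exp(i θ x n i))/m n → exp(-θ^2/2) = charFun (gaussianReal 0 1) θ` (`ProbabilityTheory.charFun_gaussianReal`). `MeasureTheory.ProbabilityMeasure.tendsto_iff_tendsto_charFun` gives weak convergence,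
`MeasureTheory.ProbabilityMeasure.tendsto_measure_of_null_frontier_of_tendsto` (the frontier of `Set.Iic y` is `{y}`, null for `gaussianReal 0 1`: `noAtoms_gaussianReal`) the convergence of `μ n (Iic y)`; multiply by `m n`.
(See `Mathlib/Probability/CentralLimitTheorem.lean` and `Mathlib/MeasureTheory/Measure/LevyConvergence.lean`.)
-/

set_option autoImplicit false

namespace ODR

open Filter Topology MeasureTheory

/-- the normalised measure -/
private noncomputable def pm (K : ℕ → ℕ) (a x : ℕ → ℕ → ℝ) (n : ℕ) : Measure ℝ :=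
  if 0 < ∑ i ∈ Finset.range (K n), a n i then
    ∑ i ∈ Finset.range (K n), ENNReal.ofReal (a n i / ∑ i ∈ Finset.range (K n), a n i) •
      Measure.dirac (x n i)
  else Measure.dirac 0

private theorem pm_prob (K : ℕ → ℕ) (a x : ℕ → ℕ → ℝ) (ha : ∀ n i, 0 ≤ a n i) (n : ℕ) :
    IsProbabilityMeasure (pm K a x n) := by
  unfold pm
  split_ifs with h
  · constructor
    rw [Measure.finset_sum_apply]
    simp only [Measure.smul_apply, smul_eq_mul, measure_univ, mul_one]
    rw [← ENNReal.ofReal_sum_of_nonneg (fun i _ => div_nonneg (ha n i) h.le), ← Finset.sum_div,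
      div_self h.ne', ENNReal.ofReal_one]
  · infer_instance

private theorem pm_char (K : ℕ → ℕ) (a x : ℕ → ℕ → ℝ) (ha : ∀ n i, 0 ≤ a n i) (n : ℕ)
    (h : 0 < ∑ i ∈ Finset.range (K n), a n i) (θ : ℝ) :
    charFun (pm K a x n) θ = (∑ i ∈ Finset.range (K n), (a n i : ℂ) *
      Complex.exp (((θ * x n i : ℝ) : ℂ) * Complex.I)) /
        ((∑ i ∈ Finset.range (K n), a n i : ℝ) : ℂ) := by
  rw [charFun_apply_real]
  unfold pm
  rw [if_pos h]
  rw [integral_finset_sum_measure]
  · rw [Finset.sum_div]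
    refine Finset.sum_congr rfl fun i _ => ?_
    rw [integral_smul_measure, integral_dirac, ENNReal.toReal_ofReal (div_nonneg (ha n i) h.le)]
    rw [Complex.real_smul]
    push_cast
    ring
  · intro i _
    refine Integrable.smul_measure ?_ ENNReal.ofReal_ne_top
    exact integrable_dirac (by simp)

private theorem pm_Iic (K : ℕ → ℕ) (a x : ℕ → ℕ → ℝ) (ha : ∀ n i, 0 ≤ a n i) (n : ℕ)
    (h : 0 < ∑ i ∈ Finset.range (K n), a n i) (y : ℝ) :
    (∑ i ∈ Finset.range (K n), a n i) * (pm K a x n).real (Set.Iic y) =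
      ∑ i ∈ Finset.range (K n), if x n i ≤ y then a n i else 0 := by
  rw [Measure.real]
  unfold pm
  rw [if_pos h]
  rw [Measure.finset_sum_apply, ENNReal.toReal_sum]
  · rw [Finset.mul_sum]
    refine Finset.sum_congr rfl fun i _ => ?_
    rw [Measure.smul_apply, smul_eq_mul, ENNReal.toReal_mul,
      ENNReal.toReal_ofReal (div_nonneg (ha n i) h.le), Measure.dirac_apply' _ measurableSet_Iic]
    by_cases hx : x n i ≤ y
    · rw [if_pos hx, Set.indicator_of_mem (by simpa using hx)]
      simp only [Pi.one_apply, ENNReal.toReal_one, mul_one]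
      rw [mul_div_cancel₀ _ h.ne']
    · rw [if_neg hx, Set.indicator_of_notMem (by simpa using hx)]
      simp
  · intro i _
    rw [Measure.smul_apply, smul_eq_mul]
    exact ENNReal.mul_ne_top ENNReal.ofReal_ne_top (measure_ne_top _ _)

theorem law_half (K : ℕ → ℕ) (a x : ℕ → ℕ → ℝ) (ha : ∀ n i, 0 ≤ a n i)
    (h : ∀ θ : ℝ, Tendsto (fun n : ℕ => ∑ i ∈ Finset.range (K n), (a n i : ℂ) *
      Complex.exp (((θ * x n i : ℝ) : ℂ) * Complex.I)) atTop
      (𝓝 (Complex.exp ((-(θ ^ 2 / 2) : ℝ) : ℂ) / 2))) (y : ℝ) :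
    Tendsto (fun n : ℕ => ∑ i ∈ Finset.range (K n), if x n i ≤ y then a n i else 0) atTop
      (𝓝 ((ProbabilityTheory.gaussianReal 0 1).real (Set.Iic y) / 2)) := by
  have hm : Tendsto (fun n : ℕ => ∑ i ∈ Finset.range (K n), a n i) atTop (𝓝 (1 / 2)) := by
    have h0 := (Complex.continuous_re.tendsto _).comp (h 0)
    simp only [Function.comp_def] at h0
    have e1 : (Complex.exp ((-((0 : ℝ) ^ 2 / 2) : ℝ) : ℂ) / 2).re = 1 / 2 := by norm_num
    rw [e1] at h0
    refine h0.congr fun n => ?_
    rw [Complex.re_sum]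
    refine Finset.sum_congr rfl fun i _ => ?_
    simp
  have hpos : ∀ᶠ n in atTop, 0 < ∑ i ∈ Finset.range (K n), a n i :=
    hm.eventually (lt_mem_nhds (by norm_num))
  let P : ℕ → ProbabilityMeasure ℝ := fun n => ⟨pm K a x n, pm_prob K a x ha n⟩
  let Q : ProbabilityMeasure ℝ := ⟨ProbabilityTheory.gaussianReal 0 1, inferInstance⟩
  have hmc : Tendsto (fun n : ℕ => ((∑ i ∈ Finset.range (K n), a n i : ℝ) : ℂ)) atTop
      (𝓝 (((1 / 2 : ℝ)) : ℂ)) := (Complex.continuous_ofReal.tendsto _).comp hm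
  have hconv : Tendsto P atTop (𝓝 Q) := by
    rw [ProbabilityMeasure.tendsto_iff_tendsto_charFun]
    intro θ
    have e2 : charFun (Q : Measure ℝ) θ =
        Complex.exp ((-(θ ^ 2 / 2) : ℝ) : ℂ) / 2 / (((1 / 2 : ℝ)) : ℂ) := by
      change charFun (ProbabilityTheory.gaussianReal 0 1) θ = _
      rw [ProbabilityTheory.charFun_gaussianReal]
      have e3 : (θ : ℂ) * ((0 : ℝ) : ℂ) * Complex.I - (((1 : NNReal) : ℝ) : ℂ) * (θ : ℂ) ^ 2 / 2 =
          ((-(θ ^ 2 / 2) : ℝ) : ℂ) := by
        push_cast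
        simp
      rw [e3]
      push_cast
      field_simp
    rw [e2]
    have h1 := (h θ).div hmc (by norm_num)
    refine h1.congr' ?_
    filter_upwards [hpos] with n hn
    change _ = charFun (pm K a x n) θ
    rw [pm_char K a x ha n hn θ]
    rfl
  have hfr : (Q : Measure ℝ) (frontier (Set.Iic y)) = 0 := by
    rw [frontier_Iic]
    change (ProbabilityTheory.gaussianReal 0 1) {y} = 0
    haveI := ProbabilityTheory.noAtoms_gaussianReal (μ := 0) (v := 1) (by norm_num)
    exact measure_singleton y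
  have hIic := ProbabilityMeasure.tendsto_measure_of_null_frontier_of_tendsto' hconv hfr
  have hreal : Tendsto (fun n : ℕ => (pm K a x n).real (Set.Iic y)) atTop
      (𝓝 ((ProbabilityTheory.gaussianReal 0 1).real (Set.Iic y))) :=
    (ENNReal.tendsto_toReal (measure_ne_top (Q : Measure ℝ) _)).comp hIic
  have hprod := hm.mul hreal
  have e4 : (1 / 2 : ℝ) * (ProbabilityTheory.gaussianReal 0 1).real (Set.Iic y) =
      (ProbabilityTheory.gaussianReal 0 1).real (Set.Iic y) / 2 := by ring
  rw [e4] at hprod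
  refine hprod.congr' ?_
  filter_upwards [hpos] with n hn
  exact pm_Iic K a x ha n hn y

end ODR
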