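import Pool.Agent.ODR.Lsc
import Pool.Agent.ODR.Llaw
import Pool.Agent.ODR.Lcnt

/-!
# ODR-Lasm: the law of the first row and of the diagonal sign
-/

set_option autoImplicit false

namespace ODR

open Filter Topology

theorem nref_sum (n i : ℕ) : ((Nref n 1 i : ℕ) : ℚ) = (ss n i + dd n i) / 2 := by
  unfold ss dd
  ring

theorem nref_dif (n i : ℕ) : ((Nref n (-1) i : ℕ) : ℚ) = (ss n i - dd n i) / 2 := by
  unfold ss dd
  ring

theorem ce_lim (e : ℤ) (he : e = 1 ∨ e = -1) (θ : ℝ) :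
    Tendsto (fun n : ℕ => ∑ i ∈ Finset.range (2 * n + 1),
      (((Nref n e i : ℝ) / ODD.Nall n : ℝ) : ℂ) *
      Complex.exp (((θ * (((i : ℝ) - n) / √(3 * n / 4)) : ℝ) : ℂ) * Complex.I)) atTop
      (𝓝 (Complex.exp ((-(θ ^ 2 / 2) : ℝ) : ℂ) / 2)) := by
  have h1 := cs_lim θ
  have h2 := cd_lim θ
  rcases he with rfl | rfl
  · have h3 := (h1.add h2).div_const 2
    rw [add_zero] at h3
    refine h3.congr fun n => ?_
    rw [← add_div, div_div, ← Finset.sum_add_distrib, Finset.sum_div]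
    refine Finset.sum_congr rfl fun i _ => ?_
    have h4 : ((Nref n 1 i : ℕ) : ℂ) = (((ss n i : ℚ) : ℂ) + ((dd n i : ℚ) : ℂ)) / 2 := by
      have := nref_sum n i
      have h5 : (((Nref n 1 i : ℕ) : ℚ) : ℂ) = (((ss n i + dd n i) / 2 : ℚ) : ℂ) := by rw [this]
      push_cast at h5
      exact h5
    push_cast
    rw [h4]
    ring
  · have h3 := (h1.sub h2).div_const 2
    rw [sub_zero] at h3
    refine h3.congr fun n => ?_
    rw [← sub_div, div_div, ← Finset.sum_sub_distrib, Finset.sum_div]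
    refine Finset.sum_congr rfl fun i _ => ?_
    have h4 : ((Nref n (-1) i : ℕ) : ℂ) = (((ss n i : ℚ) : ℂ) - ((dd n i : ℚ) : ℂ)) / 2 := by
      have := nref_dif n i
      have h5 : (((Nref n (-1) i : ℕ) : ℚ) : ℂ) = (((ss n i - dd n i) / 2 : ℚ) : ℂ) := by rw [this]
      push_cast at h5
      exact h5
    push_cast
    rw [h4]
    ring

theorem law (e : ℤ) (he : e = 1 ∨ e = -1) (x : ℝ) :
    Tendsto (fun n : ℕ => (Nat.card {A : Matrix (Fin (2 * n + 1)) (Fin (2 * n + 1)) ℤ //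
      ODD.IsOSASM n A ∧ (∃ d, A d d = e) ∧ ∃ j : Fin (2 * n + 1), A 0 j = 1 ∧
        (((j : ℕ) : ℝ) - n) / √(3 * n / 4) ≤ x} : ℝ) / ODD.Nall n) atTop
      (𝓝 ((ProbabilityTheory.gaussianReal 0 1).real (Set.Iic x) / 2)) := by
  classical
  have h := law_half (fun n => 2 * n + 1) (fun n i => (Nref n e i : ℝ) / ODD.Nall n)
    (fun n i => ((i : ℝ) - n) / √(3 * n / 4)) (fun n i => by positivity) (ce_lim e he) x
  refine h.congr fun n => ?_
  rw [card_split n e (fun j => ((j : ℝ) - n) / √(3 * n / 4) ≤ x)]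
  push_cast
  rw [Finset.sum_div]
  refine Finset.sum_congr rfl fun i _ => ?_
  split_ifs <;> simp

end ODR
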