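import Mathlib

/-!
# ODR-Lb1: the beta binomial weights, moments

Plan. `wb N k / wb N (k-1) = (N+k)(N-k+1)/(k(2N-k+1))` for `1 ≤ k ≤ N`, i.e. `wb N (k+1) * ((k+1) * (2N-k)) = wb N k * ((N+k+1) * (N-k))` for `k + 1 ≤ N`
(`(N+k+1).choose N * (k+1) = (N+k).choose N * (N+k+1)`, `(2N-k).choose N * (N-k) = (2N-k-1).choose N * (2N-k)`). `stein`: the term `k = 0` on the left and the term
`k = N` on the right vanish, shift the index. `wb_sq`: `stein` for `f k = k - N/2` and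
`k(2N+1-k) - (N+k+1)(N-k) = 2 (N+1) (k - N/2)`: `2 (N+1) ∑ w (k-N/2)^2 = ∑ w (N+k+1)(N-k) ≤ N (N+1) ∑ w`. `wb_abs`: `|k - N/2| ≤ (√N + (k-N/2)^2/√N)/2`.
-/

set_option autoImplicit false

namespace ODR

/-- beta binomial weights -/
noncomputable def wb (N k : ℕ) : ℝ := (((N + k).choose N * (2 * N - k).choose N : ℕ) : ℝ)

noncomputable def Wb (N : ℕ) : ℝ := ∑ k ∈ Finset.range (N + 1), wb N k

theorem wb_nonneg (N k : ℕ) : 0 ≤ wb N k := by
  unfold wb
  positivity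

theorem Wb_pos (N : ℕ) : 0 < Wb N := by
  unfold Wb
  refine Finset.sum_pos' (fun k _ => wb_nonneg N k) ⟨0, Finset.mem_range.2 (by omega), ?_⟩
  unfold wb
  have h1 : 0 < (N + 0).choose N := Nat.choose_pos (by omega)
  have h2 : 0 < (2 * N - 0).choose N := Nat.choose_pos (by omega)
  exact_mod_cast Nat.mul_pos h1 h2

private theorem lb1_step (N k : ℕ) (hk : k + 1 ≤ N) :
    wb N (k + 1) * (((k : ℝ) + 1) * (2 * N - k)) = wb N k * ((N + k + 1) * (N - k)) := by
  have h1 : (N + (k + 1)).choose N * (k + 1) = (N + k).choose N * (N + k + 1) := by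
    have h := Nat.add_one_mul_choose_eq (N + k) k
    have e1 : (N + k).choose k = (N + k).choose N := by
      rw [← Nat.choose_symm (by omega : k ≤ N + k)]
      congr 1
      omega
    have e2 : (N + k + 1).choose (k + 1) = (N + (k + 1)).choose N := by
      rw [← Nat.choose_symm (by omega : k + 1 ≤ N + k + 1)]
      congr 1
      omega
    rw [e1, e2] at h
    linarith
  have h2 : (2 * N - (k + 1)).choose N * (2 * N - k) = (2 * N - k).choose N * (N - k) := by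
    have h := Nat.choose_mul_succ_eq (2 * N - (k + 1)) N
    have e1 : 2 * N - (k + 1) + 1 = 2 * N - k := by omega
    have e2 : 2 * N - (k + 1) + 1 - N = N - k := by omega
    rw [e2, e1] at h
    exact h
  have h1' : (((N + (k + 1)).choose N : ℕ) : ℝ) * (k + 1) = (((N + k).choose N : ℕ) : ℝ) * (N + k + 1) := by
    exact_mod_cast h1
  have h2' : (((2 * N - (k + 1)).choose N : ℕ) : ℝ) * (2 * N - k) =
      (((2 * N - k).choose N : ℕ) : ℝ) * (N - k) := by
    have h3 : (((2 * N - (k + 1)).choose N * (2 * N - k) : ℕ) : ℝ) =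
      (((2 * N - k).choose N * (N - k) : ℕ) : ℝ) := by rw [h2]
    rw [Nat.cast_mul, Nat.cast_mul, Nat.cast_sub (by omega), Nat.cast_sub (by omega)] at h3
    push_cast at h3
    exact h3
  unfold wb
  push_cast
  linear_combination (((2 * N - (k + 1)).choose N : ℕ) : ℝ) * (2 * N - k) * h1' +
    (((N + k).choose N : ℕ) : ℝ) * (N + k + 1) * h2'

theorem stein (N : ℕ) (f : ℕ → ℂ) :
    ∑ k ∈ Finset.range (N + 1), (wb N k : ℂ) * ((k : ℂ) * (2 * N + 1 - k)) * f k =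
      ∑ k ∈ Finset.range (N + 1), (wb N k : ℂ) * ((N + k + 1) * (N - k)) * f (k + 1) := by
  rw [Finset.sum_range_succ', Finset.sum_range_succ]
  simp only [Nat.cast_zero, zero_mul, mul_zero, add_zero, sub_self]
  refine Finset.sum_congr rfl fun k hk => ?_
  have h := lb1_step N k (by have := Finset.mem_range.1 hk; omega)
  have h' : (wb N (k + 1) : ℂ) * (((k : ℂ) + 1) * (2 * N - k)) =
      (wb N k : ℂ) * ((N + k + 1) * (N - k)) := by
    exact_mod_cast congrArg (fun x : ℝ => (x : ℂ)) h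
  push_cast
  linear_combination f (k + 1) * h'

theorem wb_sq (N : ℕ) :
    ∑ k ∈ Finset.range (N + 1), wb N k * ((k : ℝ) - N / 2) ^ 2 ≤ N / 2 * Wb N := by
  have h := stein N (fun k => (k : ℂ) - N / 2)
  have h' : ∑ k ∈ Finset.range (N + 1), wb N k * ((k : ℝ) * (2 * N + 1 - k)) * ((k : ℝ) - N / 2) =
      ∑ k ∈ Finset.range (N + 1), wb N k * ((N + k + 1) * (N - k)) *
        (((k + 1 : ℕ) : ℝ) - N / 2) := by
    have h2 := congrArg Complex.re h
    have e1 : ∑ k ∈ Finset.range (N + 1), (wb N k : ℂ) * ((k : ℂ) * (2 * N + 1 - k)) *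
        ((k : ℂ) - N / 2) = ((∑ k ∈ Finset.range (N + 1), wb N k * ((k : ℝ) * (2 * N + 1 - k)) *
        ((k : ℝ) - N / 2) : ℝ) : ℂ) := by
      push_cast
      rfl
    have e2 : ∑ k ∈ Finset.range (N + 1), (wb N k : ℂ) * ((N + k + 1) * (N - k)) *
        (((k + 1 : ℕ) : ℂ) - N / 2) = ((∑ k ∈ Finset.range (N + 1), wb N k *
        ((N + k + 1) * (N - k)) * (((k + 1 : ℕ) : ℝ) - N / 2) : ℝ) : ℂ) := by
      push_cast
      rfl
    rw [e1, e2] at h
    exact_mod_cast h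
  have h3 : 2 * ((N : ℝ) + 1) * ∑ k ∈ Finset.range (N + 1), wb N k * ((k : ℝ) - N / 2) ^ 2 =
      ∑ k ∈ Finset.range (N + 1), wb N k * ((N + k + 1) * (N - k)) := by
    have e3 : ∑ k ∈ Finset.range (N + 1), wb N k * ((k : ℝ) * (2 * N + 1 - k)) *
        ((k : ℝ) - N / 2) = ∑ k ∈ Finset.range (N + 1), wb N k * ((N + k + 1) * (N - k)) *
        ((k : ℝ) - N / 2) + 2 * ((N : ℝ) + 1) *
        ∑ k ∈ Finset.range (N + 1), wb N k * ((k : ℝ) - N / 2) ^ 2 := by
      rw [Finset.mul_sum, ← Finset.sum_add_distrib]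
      refine Finset.sum_congr rfl fun k _ => ?_
      ring
    have e4 : ∑ k ∈ Finset.range (N + 1), wb N k * ((N + k + 1) * (N - k)) *
        (((k + 1 : ℕ) : ℝ) - N / 2) = ∑ k ∈ Finset.range (N + 1), wb N k *
        ((N + k + 1) * (N - k)) * ((k : ℝ) - N / 2) + ∑ k ∈ Finset.range (N + 1), wb N k *
        ((N + k + 1) * (N - k)) := by
      rw [← Finset.sum_add_distrib]
      refine Finset.sum_congr rfl fun k _ => ?_
      push_cast
      ring
    rw [e3, e4] at h'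
    linarith
  have h4 : ∑ k ∈ Finset.range (N + 1), wb N k * ((N + k + 1) * (N - k)) ≤
      N * ((N : ℝ) + 1) * Wb N := by
    rw [Wb, Finset.mul_sum]
    refine Finset.sum_le_sum fun k hk => ?_
    have hk' : (k : ℝ) ≤ N := by
      exact_mod_cast Nat.lt_succ_iff.1 (Finset.mem_range.1 hk)
    have hk0 : (0 : ℝ) ≤ k := Nat.cast_nonneg k
    have h5 : ((N : ℝ) + k + 1) * (N - k) ≤ N * ((N : ℝ) + 1) := by nlinarith
    have := mul_le_mul_of_nonneg_left h5 (wb_nonneg N k)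
    linarith
  have h6 : 2 * ((N : ℝ) + 1) * ∑ k ∈ Finset.range (N + 1), wb N k * ((k : ℝ) - N / 2) ^ 2 ≤
      2 * ((N : ℝ) + 1) * (N / 2 * Wb N) := by
    rw [h3]
    refine h4.trans (le_of_eq ?_)
    ring
  exact le_of_mul_le_mul_left h6 (by positivity)

theorem wb_abs (N : ℕ) (hN : 1 ≤ N) :
    ∑ k ∈ Finset.range (N + 1), wb N k * |(k : ℝ) - N / 2| ≤ √N * Wb N := by
  have hs : 0 < √(N : ℝ) := Real.sqrt_pos.2 (by exact_mod_cast hN)
  have hs2 : √(N : ℝ) * √(N : ℝ) = N := Real.mul_self_sqrt (Nat.cast_nonneg N)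
  have h1 : ∀ k ∈ Finset.range (N + 1), wb N k * |(k : ℝ) - N / 2| ≤
      wb N k * (√N / 2) + 1 / (2 * √N) * (wb N k * ((k : ℝ) - N / 2) ^ 2) := by
    intro k _
    have h2 : |(k : ℝ) - N / 2| ≤ √N / 2 + 1 / (2 * √N) * ((k : ℝ) - N / 2) ^ 2 := by
      have h3 := sq_abs ((k : ℝ) - N / 2)
      rw [← h3]
      have h4 : √(N : ℝ) / 2 + 1 / (2 * √N) * |(k : ℝ) - N / 2| ^ 2 - |(k : ℝ) - N / 2| =
          (√N - |(k : ℝ) - N / 2|) ^ 2 / (2 * √N) := by
        field_simp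
        ring
      have h5 : 0 ≤ (√(N : ℝ) - |(k : ℝ) - N / 2|) ^ 2 / (2 * √N) := by positivity
      linarith
    have := mul_le_mul_of_nonneg_left h2 (wb_nonneg N k)
    linarith
  refine (Finset.sum_le_sum h1).trans ?_
  rw [Finset.sum_add_distrib, ← Finset.sum_mul, ← Finset.mul_sum]
  have h6 := wb_sq N
  have hW := Wb_pos N
  have h7 : 1 / (2 * √(N : ℝ)) * ∑ k ∈ Finset.range (N + 1), wb N k * ((k : ℝ) - N / 2) ^ 2 ≤
      1 / (2 * √(N : ℝ)) * (N / 2 * Wb N) := mul_le_mul_of_nonneg_left h6 (by positivity)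
  have h8 : 1 / (2 * √(N : ℝ)) * (N / 2 * Wb N) = √N / 4 * Wb N := by
    field_simp
    rw [Real.sq_sqrt (Nat.cast_nonneg N)]
    ring
  rw [h8] at h7
  have h9 : ∑ k ∈ Finset.range (N + 1), wb N k = Wb N := rfl
  rw [h9]
  nlinarith [mul_pos hs hW]

end ODR
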