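import Pool.Agent.ODR.Lb1

/-!
# ODR-Lb2: derivative of the characteristic function of the beta binomial law

Plan. `x k = (k - N/2)/√N`, `E g = (∑ wb N k * g k)/Wb N`, `ph N θ = E exp(i θ x)`, `ph' = i E (x exp(i θ x))`. `stein` for `f k = exp(i θ x k)`, `f (k+1) = f k * exp(i θ/√N)`, and
`k(2N+1-k) = (N+k+1)(N-k) + 2 (N+1) √N x`: `2 (N+1) √N E(x f) = (exp(i y) - 1) E(q f)`, `y = θ/√N`, `q = (N+k+1)(N-k) = (3/4) N (N+1) - N/4 - (N+1) √N x - N x^2`.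
`|E(q f) - (3/4) N (N+1) ph| ≤ N/4 + (N+1) √N E|x| + N E x^2 ≤ 2 (N+1) √N` (`wb_abs`: `E|x| ≤ 1`, `wb_sq`: `E x^2 ≤ 1/2`), `|exp(i y) - 1 - i y| ≤ y^2`, `|exp(i y) - 1| ≤ |y|`, `|ph| ≤ 1`. So
`ph' = i (exp(i y) - 1) ((3/8) √N ph + r/(2 (N+1) √N)) = - (3/8) θ ph + error`, `|error| ≤ (3/8) θ^2/√N + |θ|/√N ≤ 4 (1 + θ^2)/√N`.
-/

set_option autoImplicit false

namespace ODR

/-- characteristic function of the normalized beta binomial law -/
noncomputable def ph (N : ℕ) (θ : ℝ) : ℂ :=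
  (∑ k ∈ Finset.range (N + 1), (wb N k : ℂ) *
    Complex.exp (((θ * (((k : ℝ) - N / 2) / √N) : ℝ) : ℂ) * Complex.I)) / (Wb N : ℂ)

private noncomputable def l2e (N : ℕ) (θ : ℝ) (k : ℕ) : ℂ :=
  Complex.exp (((θ * (((k : ℝ) - N / 2) / √N) : ℝ) : ℂ) * Complex.I)

private theorem l2e_norm (N : ℕ) (θ : ℝ) (k : ℕ) : ‖l2e N θ k‖ = 1 :=
  Complex.norm_exp_ofReal_mul_I _

private theorem l2_ph (N : ℕ) (θ : ℝ) :
    ph N θ = (∑ k ∈ Finset.range (N + 1), (wb N k : ℂ) * l2e N θ k) / (Wb N : ℂ) := rfl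

private theorem l2_norm (N : ℕ) (θ : ℝ) (g : ℕ → ℝ) :
    ‖∑ k ∈ Finset.range (N + 1), (wb N k : ℂ) * (g k : ℂ) * l2e N θ k‖ ≤
      ∑ k ∈ Finset.range (N + 1), wb N k * |g k| := by
  refine (norm_sum_le _ _).trans (Finset.sum_le_sum fun k _ => ?_)
  rw [norm_mul, norm_mul, l2e_norm, mul_one, Complex.norm_real, Complex.norm_real,
    Real.norm_eq_abs, Real.norm_eq_abs, abs_of_nonneg (wb_nonneg N k)]

theorem ph_norm (N : ℕ) (θ : ℝ) : ‖ph N θ‖ ≤ 1 := by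
  have hW := Wb_pos N
  rw [l2_ph, norm_div, Complex.norm_real, Real.norm_eq_abs, abs_of_pos hW, div_le_one hW]
  have h1 := l2_norm N θ fun _ => 1
  simp only [Complex.ofReal_one, mul_one, abs_one] at h1
  exact h1

private theorem l2_exp1 (y : ℝ) : ‖Complex.exp ((y : ℂ) * Complex.I) - 1‖ ≤ |y| := by
  have h := Real.norm_exp_I_mul_ofReal_sub_one_le (x := y)
  rwa [mul_comm, Real.norm_eq_abs] at h

private theorem l2_exp2 (y : ℝ) :
    ‖Complex.exp ((y : ℂ) * Complex.I) - 1 - (y : ℂ) * Complex.I‖ ≤ 2 * y ^ 2 := by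
  have hn : ‖(y : ℂ) * Complex.I‖ = |y| := by
    rw [norm_mul, Complex.norm_real, Complex.norm_I, mul_one, Real.norm_eq_abs]
  have hs := sq_abs y
  rcases le_or_gt |y| 1 with h | h
  · have h1 := Complex.norm_exp_sub_one_sub_id_le (x := (y : ℂ) * Complex.I) (by rw [hn]; exact h)
    rw [hn, hs] at h1
    nlinarith [sq_nonneg y]
  · have h1 := norm_sub_le (Complex.exp ((y : ℂ) * Complex.I) - 1) ((y : ℂ) * Complex.I)
    have h2 := l2_exp1 y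
    rw [hn] at h1
    nlinarith

private theorem l2_R (N : ℕ) (hN : 1 ≤ N) (θ : ℝ) :
    ‖∑ k ∈ Finset.range (N + 1), (wb N k : ℂ) *
      ((-((N : ℝ) / 4) - ((N : ℝ) + 1) * ((k : ℝ) - N / 2) - ((k : ℝ) - N / 2) ^ 2 : ℝ) : ℂ) *
        l2e N θ k‖ ≤ 2 * (N + 1) * √N * Wb N := by
  refine (l2_norm N θ fun k =>
    -((N : ℝ) / 4) - ((N : ℝ) + 1) * ((k : ℝ) - N / 2) - ((k : ℝ) - N / 2) ^ 2).trans ?_
  have h1 : ∀ k ∈ Finset.range (N + 1), wb N k *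
      |-((N : ℝ) / 4) - ((N : ℝ) + 1) * ((k : ℝ) - N / 2) - ((k : ℝ) - N / 2) ^ 2| ≤
      wb N k * ((N : ℝ) / 4) + ((N : ℝ) + 1) * (wb N k * |(k : ℝ) - N / 2|) +
        wb N k * ((k : ℝ) - N / 2) ^ 2 := by
    intro k _
    have hn : (0 : ℝ) ≤ N := Nat.cast_nonneg N
    have h2 : |-((N : ℝ) / 4) - ((N : ℝ) + 1) * ((k : ℝ) - N / 2) - ((k : ℝ) - N / 2) ^ 2| ≤
        (N : ℝ) / 4 + ((N : ℝ) + 1) * |(k : ℝ) - N / 2| + ((k : ℝ) - N / 2) ^ 2 := by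
      have a1 := le_abs_self ((k : ℝ) - N / 2)
      have a2 := neg_abs_le ((k : ℝ) - N / 2)
      rw [abs_le]
      constructor
      · nlinarith [sq_nonneg ((k : ℝ) - N / 2)]
      · nlinarith [sq_nonneg ((k : ℝ) - N / 2)]
    have h3 := mul_le_mul_of_nonneg_left h2 (wb_nonneg N k)
    linarith
  refine (Finset.sum_le_sum h1).trans ?_
  rw [Finset.sum_add_distrib, Finset.sum_add_distrib, ← Finset.sum_mul, ← Finset.mul_sum]
  have h4 : ∑ k ∈ Finset.range (N + 1), wb N k = Wb N := rfl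
  rw [h4]
  have h5 := wb_sq N
  have h6 := wb_abs N hN
  have hn : (1 : ℝ) ≤ N := by exact_mod_cast hN
  have h7 := mul_le_mul_of_nonneg_left h6 (by positivity : (0 : ℝ) ≤ (N : ℝ) + 1)
  have hW := Wb_pos N
  have hs : 1 ≤ √(N : ℝ) := by
    rw [Real.le_sqrt (by norm_num) (by positivity)]
    linarith
  have h8 : (N : ℝ) / 4 + N / 2 ≤ (N + 1) * √N := by nlinarith
  have h9 := mul_le_mul_of_nonneg_right h8 hW.le
  linarith

private theorem l2_main (N : ℕ) (hN : 1 ≤ N) (θ : ℝ) :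
    2 * ((N : ℂ) + 1) * ∑ k ∈ Finset.range (N + 1), (wb N k : ℂ) *
      (((k : ℝ) - N / 2 : ℝ) : ℂ) * l2e N θ k =
    (Complex.exp (((θ / √N : ℝ) : ℂ) * Complex.I) - 1) *
      (3 / 4 * N * (N + 1) * ∑ k ∈ Finset.range (N + 1), (wb N k : ℂ) * l2e N θ k +
      ∑ k ∈ Finset.range (N + 1), (wb N k : ℂ) *
      ((-((N : ℝ) / 4) - ((N : ℝ) + 1) * ((k : ℝ) - N / 2) - ((k : ℝ) - N / 2) ^ 2 : ℝ) : ℂ) *
        l2e N θ k) := by
  have hs : (√(N : ℝ)) ≠ 0 := (Real.sqrt_pos.2 (by exact_mod_cast hN)).ne'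
  have h := stein N (l2e N θ)
  have hstep : ∀ k : ℕ, l2e N θ (k + 1) =
      l2e N θ k * Complex.exp (((θ / √N : ℝ) : ℂ) * Complex.I) := by
    intro k
    unfold l2e
    rw [← Complex.exp_add, ← add_mul, ← Complex.ofReal_add]
    congr 3
    push_cast
    field_simp
    ring
  have h1 : ∑ k ∈ Finset.range (N + 1), (wb N k : ℂ) * ((k : ℂ) * (2 * N + 1 - k)) * l2e N θ k =
      ∑ k ∈ Finset.range (N + 1), (wb N k : ℂ) * (((N : ℂ) + k + 1) * (N - k)) * l2e N θ k +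
      2 * ((N : ℂ) + 1) * ∑ k ∈ Finset.range (N + 1), (wb N k : ℂ) *
      (((k : ℝ) - N / 2 : ℝ) : ℂ) * l2e N θ k := by
    rw [Finset.mul_sum, ← Finset.sum_add_distrib]
    refine Finset.sum_congr rfl fun k _ => ?_
    push_cast
    ring
  have h2 : ∑ k ∈ Finset.range (N + 1), (wb N k : ℂ) * (((N : ℂ) + k + 1) * (N - k)) *
      l2e N θ (k + 1) = Complex.exp (((θ / √N : ℝ) : ℂ) * Complex.I) *
      ∑ k ∈ Finset.range (N + 1), (wb N k : ℂ) * (((N : ℂ) + k + 1) * (N - k)) * l2e N θ k := by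
    rw [Finset.mul_sum]
    refine Finset.sum_congr rfl fun k _ => ?_
    rw [hstep k]
    ring
  have h3 : ∑ k ∈ Finset.range (N + 1), (wb N k : ℂ) * (((N : ℂ) + k + 1) * (N - k)) *
      l2e N θ k = 3 / 4 * N * (N + 1) * ∑ k ∈ Finset.range (N + 1), (wb N k : ℂ) * l2e N θ k +
      ∑ k ∈ Finset.range (N + 1), (wb N k : ℂ) *
      ((-((N : ℝ) / 4) - ((N : ℝ) + 1) * ((k : ℝ) - N / 2) - ((k : ℝ) - N / 2) ^ 2 : ℝ) : ℂ) *
        l2e N θ k := by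
    rw [Finset.mul_sum, ← Finset.sum_add_distrib]
    refine Finset.sum_congr rfl fun k _ => ?_
    push_cast
    ring
  rw [h1, h2] at h
  rw [← h3]
  linear_combination h

theorem ph_deriv (N : ℕ) (hN : 1 ≤ N) : ∃ d : ℝ → ℂ, (∀ θ, HasDerivAt (ph N) (d θ) θ) ∧
    ∀ θ : ℝ, ‖d θ + 3 / 8 * (θ : ℂ) * ph N θ‖ ≤ 4 * (1 + θ ^ 2) / √N := by
  have hsp : 0 < √(N : ℝ) := Real.sqrt_pos.2 (by exact_mod_cast hN)
  have hW := Wb_pos N
  refine ⟨fun θ => (∑ k ∈ Finset.range (N + 1), (wb N k : ℂ) *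
    (l2e N θ k * (((((k : ℝ) - N / 2) / √N : ℝ) : ℂ) * Complex.I))) / (Wb N : ℂ), ?_, ?_⟩
  · intro θ
    have h1 : ∀ k ∈ Finset.range (N + 1), HasDerivAt (fun θ : ℝ => (wb N k : ℂ) * l2e N θ k)
        ((wb N k : ℂ) * (l2e N θ k * (((((k : ℝ) - N / 2) / √N : ℝ) : ℂ) * Complex.I))) θ := by
      intro k _
      have h2 : HasDerivAt (fun θ : ℝ => ((θ * (((k : ℝ) - N / 2) / √N) : ℝ) : ℂ) * Complex.I)
          (((((k : ℝ) - N / 2) / √N : ℝ) : ℂ) * Complex.I) θ := by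
        have h3 := (((hasDerivAt_id θ).mul_const (((k : ℝ) - N / 2) / √N)).ofReal_comp).mul_const
          Complex.I
        rw [one_mul] at h3
        exact h3
      exact (h2.cexp).const_mul _
    have h4 := (HasDerivAt.fun_sum h1).div_const (Wb N : ℂ)
    exact h4
  · intro θ
    set s : ℝ := √(N : ℝ) with hs
    have hs2 : (s : ℂ) ^ 2 = N := by
      rw [hs, ← Complex.ofReal_pow, Real.sq_sqrt (Nat.cast_nonneg N)]
      simp
    set P : ℂ := ∑ k ∈ Finset.range (N + 1), (wb N k : ℂ) * l2e N θ k with hP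
    set A : ℂ := ∑ k ∈ Finset.range (N + 1), (wb N k : ℂ) *
      (((k : ℝ) - N / 2 : ℝ) : ℂ) * l2e N θ k with hA
    set R : ℂ := ∑ k ∈ Finset.range (N + 1), (wb N k : ℂ) *
      ((-((N : ℝ) / 4) - ((N : ℝ) + 1) * ((k : ℝ) - N / 2) - ((k : ℝ) - N / 2) ^ 2 : ℝ) : ℂ) *
        l2e N θ k with hR
    set E : ℂ := Complex.exp (((θ / s : ℝ) : ℂ) * Complex.I) with hE
    have hmain : 2 * ((N : ℂ) + 1) * A = (E - 1) * (3 / 4 * N * (N + 1) * P + R) :=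
      l2_main N hN θ
    have hRn : ‖R‖ ≤ 2 * (N + 1) * s * Wb N := l2_R N hN θ
    have hph : ph N θ = P / (Wb N : ℂ) := rfl
    have hd : ∑ k ∈ Finset.range (N + 1), (wb N k : ℂ) *
        (l2e N θ k * (((((k : ℝ) - N / 2) / s : ℝ) : ℂ) * Complex.I)) = Complex.I / s * A := by
      rw [hA, Finset.mul_sum]
      refine Finset.sum_congr rfl fun k _ => ?_
      push_cast
      ring
    have hsc : (s : ℂ) ≠ 0 := by exact_mod_cast hsp.ne'
    have hWc : (Wb N : ℂ) ≠ 0 := by exact_mod_cast hW.ne'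
    have hNc : (N : ℂ) + 1 ≠ 0 := by exact_mod_cast Nat.succ_ne_zero N
    have hA' : A = (E - 1) * (3 / 4 * N * (N + 1) * P + R) / (2 * ((N : ℂ) + 1)) := by
      rw [← hmain, mul_div_cancel_left₀ _ (mul_ne_zero two_ne_zero hNc)]
    have hy : (θ : ℂ) = ((θ / s : ℝ) : ℂ) * s := by
      push_cast
      field_simp
    have hid : Complex.I / s * A / (Wb N : ℂ) + 3 / 8 * (θ : ℂ) * (P / (Wb N : ℂ)) =
        3 / 8 * s * (Complex.I * (E - 1 - ((θ / s : ℝ) : ℂ) * Complex.I)) * (P / (Wb N : ℂ)) +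
        Complex.I * (E - 1) * (R / (2 * ((N : ℂ) + 1) * s * (Wb N : ℂ))) := by
      rw [hA', hy, ← hs2]
      have hNc' : (s : ℂ) ^ 2 + 1 ≠ 0 := by rw [hs2]; exact hNc
      have hI : Complex.I ^ 2 = -1 := Complex.I_sq
      obtain ⟨Y, hY⟩ : ∃ Y : ℂ, Y = ((θ / s : ℝ) : ℂ) := ⟨_, rfl⟩
      rw [← hY]
      clear_value s P A R E
      field_simp
      linear_combination (24 * (s : ℂ) ^ 2 * P * ((s : ℂ) ^ 2 + 1) * Y) * hI
    beta_reduce
    rw [hd, hph, hid]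
    have hb1 : ‖3 / 8 * (s : ℂ) * (Complex.I * (E - 1 - ((θ / s : ℝ) : ℂ) * Complex.I)) *
        (P / (Wb N : ℂ))‖ ≤ 3 / 8 * s * (2 * (θ / s) ^ 2) := by
      rw [norm_mul, norm_mul, norm_mul, norm_mul, Complex.norm_I, one_mul]
      have e1 : ‖(3 / 8 : ℂ)‖ = 3 / 8 := by simp
      have e2 : ‖(s : ℂ)‖ = s := by
        rw [Complex.norm_real, Real.norm_eq_abs, abs_of_pos hsp]
      have e3 : ‖P / (Wb N : ℂ)‖ ≤ 1 := ph_norm N θ
      rw [e1, e2]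
      calc 3 / 8 * s * ‖E - 1 - ((θ / s : ℝ) : ℂ) * Complex.I‖ * ‖P / (Wb N : ℂ)‖ ≤
          3 / 8 * s * ‖E - 1 - ((θ / s : ℝ) : ℂ) * Complex.I‖ * 1 :=
            mul_le_mul_of_nonneg_left e3 (by positivity)
        _ = 3 / 8 * s * ‖E - 1 - ((θ / s : ℝ) : ℂ) * Complex.I‖ := mul_one _
        _ ≤ _ := mul_le_mul_of_nonneg_left (l2_exp2 (θ / s)) (by positivity)
    have hb2 : ‖Complex.I * (E - 1) * (R / (2 * ((N : ℂ) + 1) * s * (Wb N : ℂ)))‖ ≤ |θ / s| := by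
      rw [norm_mul, norm_mul, Complex.norm_I, one_mul]
      have e1 : ‖R / (2 * ((N : ℂ) + 1) * s * (Wb N : ℂ))‖ ≤ 1 := by
        rw [norm_div]
        have e2 : ‖2 * ((N : ℂ) + 1) * s * (Wb N : ℂ)‖ = 2 * (N + 1) * s * Wb N := by
          have e3 : (2 * ((N : ℂ) + 1) * s * (Wb N : ℂ)) =
              ((2 * ((N : ℝ) + 1) * s * Wb N : ℝ) : ℂ) := by
            push_cast
            ring
          rw [e3, Complex.norm_real, Real.norm_eq_abs, abs_of_nonneg (by positivity)]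
        rw [e2, div_le_one (by positivity)]
        exact hRn
      calc ‖E - 1‖ * ‖R / (2 * ((N : ℂ) + 1) * s * (Wb N : ℂ))‖ ≤ ‖E - 1‖ * 1 :=
            mul_le_mul_of_nonneg_left e1 (norm_nonneg _)
        _ = ‖E - 1‖ := mul_one _
        _ ≤ _ := l2_exp1 (θ / s)
    refine (norm_add_le _ _).trans ((add_le_add hb1 hb2).trans ?_)
    rw [abs_div, abs_of_pos hsp]
    have e4 : 3 / 8 * s * (2 * (θ / s) ^ 2) + |θ| / s = (3 / 4 * θ ^ 2 + |θ|) / s := by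
      field_simp
      ring
    rw [e4]
    refine div_le_div_of_nonneg_right ?_ hsp.le
    have e5 := sq_abs θ
    nlinarith [sq_nonneg (|θ| - 1), abs_nonneg θ]

end ODR
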