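import Pool.Agent.ODR.Lb2
import Pool.Agent.ODR.GVal

/-!
# ODR-Lb3: Gaussian limit of the beta binomial law

Plan. `ph_lim`: `h θ = ph N θ * exp(3 θ^2/16)`, `h 0 = 1`, `h' = exp(3 θ^2/16) (d θ + (3/8) θ ph N θ)`; on the segment `[0, θ]`: `‖h θ - 1‖ ≤ |θ| exp(3 θ^2/16) 4 (1 + θ^2)/√N` (for instance
`Convex.norm_image_sub_le_of_norm_hasDerivWithin_le` on `Set.uIcc 0 θ`), tends to `0`; multiply by `exp(-3 θ^2/16)`.
`gN_ph`: `(gN N).eval t = ∑ wb N k t^k` (definition), `exp(i u)^k = exp(i u N/2) exp(i u √N (k-N/2)/√N)`, `N = 2 n`, `n ≥ 1`; `(gN (2n)).eval 1 = Wb (2n)`.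
-/

set_option autoImplicit false

namespace ODR

open Filter Topology

private theorem lb3_zero (N : ℕ) : ph N 0 = 1 := by
  have hW : (Wb N : ℂ) ≠ 0 := by exact_mod_cast (Wb_pos N).ne'
  have h1 : ∑ k ∈ Finset.range (N + 1), (wb N k : ℂ) * Complex.exp
      ((((0 : ℝ) * (((k : ℝ) - N / 2) / √N) : ℝ) : ℂ) * Complex.I) = (Wb N : ℂ) := by
    rw [Wb, Complex.ofReal_sum]
    refine Finset.sum_congr rfl fun k _ => ?_
    rw [zero_mul, Complex.ofReal_zero, zero_mul, Complex.exp_zero, mul_one]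
  unfold ph
  rw [h1, div_self hW]

private theorem lb3_bd (θ : ℝ) {N : ℕ} (hN : 1 ≤ N) :
    ‖ph N θ - Complex.exp ((-(3 * θ ^ 2 / 16) : ℝ) : ℂ)‖ ≤
      Real.exp (3 * θ ^ 2 / 16) * (4 * (1 + θ ^ 2)) * |θ| / √N := by
  obtain ⟨d, hd, hb⟩ := ph_deriv N hN
  have hsp : 0 < √(N : ℝ) := Real.sqrt_pos.2 (by exact_mod_cast hN)
  set h : ℝ → ℂ := fun x => ph N x * Complex.exp ((3 * x ^ 2 / 16 : ℝ) : ℂ) with hh
  have hder : ∀ x : ℝ, HasDerivAt h
      (Complex.exp ((3 * x ^ 2 / 16 : ℝ) : ℂ) * (d x + 3 / 8 * (x : ℂ) * ph N x)) x := by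
    intro x
    have h1 : HasDerivAt (fun x : ℝ => ((3 * x ^ 2 / 16 : ℝ) : ℂ)) ((3 * (2 * x) / 16 : ℝ) : ℂ) x := by
      have h2 : HasDerivAt (fun x : ℝ => 3 * x ^ 2 / 16) (3 * (2 * x) / 16) x := by
        have h3 := ((hasDerivAt_pow 2 x).const_mul 3).div_const 16
        have e : (3 * (((2 : ℕ) : ℝ) * x ^ (2 - 1)) / 16 : ℝ) = 3 * (2 * x) / 16 := by norm_num
        rw [e] at h3
        exact h3
      exact h2.ofReal_comp
    have h4 := (hd x).mul h1.cexp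
    have h5 : d x * Complex.exp ((3 * x ^ 2 / 16 : ℝ) : ℂ) + ph N x *
        (Complex.exp ((3 * x ^ 2 / 16 : ℝ) : ℂ) * ((3 * (2 * x) / 16 : ℝ) : ℂ)) =
        Complex.exp ((3 * x ^ 2 / 16 : ℝ) : ℂ) * (d x + 3 / 8 * (x : ℂ) * ph N x) := by
      push_cast
      ring
    rw [← h5]
    exact h4
  have hexp : ∀ x : ℝ, ‖Complex.exp ((x : ℝ) : ℂ)‖ = Real.exp x := by
    intro x
    rw [Complex.norm_exp, Complex.ofReal_re]
  have hbd : ∀ x ∈ Metric.closedBall (0 : ℝ) |θ|,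
      ‖Complex.exp ((3 * x ^ 2 / 16 : ℝ) : ℂ) * (d x + 3 / 8 * (x : ℂ) * ph N x)‖ ≤
      Real.exp (3 * θ ^ 2 / 16) * (4 * (1 + θ ^ 2) / √N) := by
    intro x hx
    have h1 : |x| ≤ |θ| := by
      rw [Metric.mem_closedBall, dist_zero_right, Real.norm_eq_abs] at hx
      exact hx
    have h2 : x ^ 2 ≤ θ ^ 2 := sq_le_sq.2 h1
    rw [norm_mul, hexp]
    refine mul_le_mul (Real.exp_le_exp.2 (by linarith)) ((hb x).trans ?_) (norm_nonneg _)
      (Real.exp_pos _).le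
    exact div_le_div_of_nonneg_right (by linarith) hsp.le
  have key := (convex_closedBall (0 : ℝ) |θ|).norm_image_sub_le_of_norm_hasDerivWithin_le
    (f := h) (fun x _ => (hder x).hasDerivWithinAt) hbd
    (Metric.mem_closedBall_self (abs_nonneg θ) : (0 : ℝ) ∈ Metric.closedBall (0 : ℝ) |θ|)
    (by
      rw [Metric.mem_closedBall, dist_zero_right, Real.norm_eq_abs] :
      θ ∈ Metric.closedBall (0 : ℝ) |θ|)
  have h0 : h 0 = 1 := by
    simp only [hh]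
    rw [lb3_zero]
    simp
  rw [h0, sub_zero, Real.norm_eq_abs] at key
  have h1 : ph N θ - Complex.exp ((-(3 * θ ^ 2 / 16) : ℝ) : ℂ) =
      (h θ - 1) * Complex.exp ((-(3 * θ ^ 2 / 16) : ℝ) : ℂ) := by
    simp only [hh]
    rw [sub_mul, one_mul, mul_assoc, ← Complex.exp_add, ← Complex.ofReal_add, add_neg_cancel,
      Complex.ofReal_zero, Complex.exp_zero, mul_one]
  rw [h1, norm_mul, hexp]
  have h2 : Real.exp (-(3 * θ ^ 2 / 16)) ≤ 1 := by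
    rw [Real.exp_le_one_iff]
    nlinarith [sq_nonneg θ]
  calc ‖h θ - 1‖ * Real.exp (-(3 * θ ^ 2 / 16)) ≤ ‖h θ - 1‖ * 1 :=
        mul_le_mul_of_nonneg_left h2 (norm_nonneg _)
    _ = ‖h θ - 1‖ := mul_one _
    _ ≤ Real.exp (3 * θ ^ 2 / 16) * (4 * (1 + θ ^ 2) / √N) * |θ| := key
    _ = _ := by ring

theorem ph_lim (θ : ℝ) :
    Tendsto (fun N : ℕ => ph N θ) atTop (𝓝 (Complex.exp ((-(3 * θ ^ 2 / 16) : ℝ) : ℂ))) := by
  rw [tendsto_iff_norm_sub_tendsto_zero]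
  have h1 : Tendsto (fun N : ℕ => Real.exp (3 * θ ^ 2 / 16) * (4 * (1 + θ ^ 2)) * |θ| / √(N : ℝ))
      atTop (𝓝 0) := by
    refine Tendsto.const_div_atTop ?_ _
    exact Real.tendsto_sqrt_atTop.comp tendsto_natCast_atTop_atTop
  refine squeeze_zero' (Eventually.of_forall fun N => norm_nonneg _) ?_ h1
  filter_upwards [eventually_ge_atTop 1] with N hN
  exact lb3_bd θ hN

theorem gN_ph (n : ℕ) (hn : 1 ≤ n) (u : ℝ) :
    (gN (2 * n)).eval (Complex.exp ((u : ℂ) * Complex.I)) / (gN (2 * n)).eval 1 =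
      Complex.exp (((n * u : ℝ) : ℂ) * Complex.I) * ph (2 * n) (u * √((2 * n : ℕ) : ℝ)) := by
  have hev : ∀ x : ℂ, (gN (2 * n)).eval x =
      ∑ k ∈ Finset.range (2 * n + 1), (wb (2 * n) k : ℂ) * x ^ k := by
    intro x
    rw [gN, Polynomial.eval_finset_sum]
    refine Finset.sum_congr rfl fun k _ => ?_
    unfold wb
    simp
  have h1 : (gN (2 * n)).eval 1 = (Wb (2 * n) : ℂ) := by
    rw [hev, Wb, Complex.ofReal_sum]
    refine Finset.sum_congr rfl fun k _ => ?_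
    rw [one_pow, mul_one]
  have hs : √((2 * n : ℕ) : ℝ) ≠ 0 := by
    have : (0 : ℝ) < ((2 * n : ℕ) : ℝ) := by exact_mod_cast (by omega : 0 < 2 * n)
    exact (Real.sqrt_pos.2 this).ne'
  rw [h1, hev]
  unfold ph
  rw [← mul_div_assoc]
  congr 1
  rw [Finset.mul_sum]
  refine Finset.sum_congr rfl fun k _ => ?_
  rw [← Complex.exp_nat_mul]
  have h2 : (n * u : ℝ) + u * √((2 * n : ℕ) : ℝ) * (((k : ℝ) - ((2 * n : ℕ) : ℝ) / 2) /
      √((2 * n : ℕ) : ℝ)) = k * u := by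
    have h3 : u * √((2 * n : ℕ) : ℝ) * (((k : ℝ) - ((2 * n : ℕ) : ℝ) / 2) /
      √((2 * n : ℕ) : ℝ)) = u * ((k : ℝ) - ((2 * n : ℕ) : ℝ) / 2) := by
      field_simp
    rw [h3]
    push_cast
    ring
  have h4 : ∀ A B : ℝ, Complex.exp ((A : ℂ) * Complex.I) * ((wb (2 * n) k : ℂ) *
      Complex.exp ((B : ℂ) * Complex.I)) =
      (wb (2 * n) k : ℂ) * Complex.exp (((A + B : ℝ) : ℂ) * Complex.I) := by
    intro A B
    rw [Complex.ofReal_add, add_mul, Complex.exp_add]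
    ring
  rw [h4, h2]
  congr 2
  push_cast
  ring

end ODR
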