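import Pool.Agent.ODR.Bcz
import Pool.Agent.ODD.Count
import Pool.Agent.ODD.WE

/-!
# ODR-Lrat: bounds for quotients of the numbers

The product formulas for the numbers `Neven n` and `ODD.Nall n` and the factorial formulas for the binomial coefficients give
each quotient as a quotient of two polynomials in `n`. `del_lim`: `del n / Nall n = rho n`, and `n rho n` has a finite limit.
-/

set_option autoImplicit false

namespace ODR

open Filter Topology

private theorem Lrat_pos (n : ℕ) : 0 < ODD.F n := by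
  unfold ODD.F
  refine mul_pos (by positivity) (Finset.prod_pos fun k _ => by positivity)

theorem nall_pos (n : ℕ) : 0 < ODD.Nall n := by
  have h := (ODD.counts n).2.2
  have h2 := Lrat_pos n
  rw [← h] at h2
  exact_mod_cast h2

private theorem Lrat_le {X Y p q c : ℝ} (hq : 0 < q) (hY : 0 ≤ Y) (h : X * q = p * Y) (hp : p ≤ c * q) :
    X ≤ c * Y := by
  have h1 : X * q ≤ c * Y * q := by
    rw [h]
    have := mul_le_mul_of_nonneg_right hp hY
    linarith
  exact le_of_mul_le_mul_right h1 hq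

private theorem Lrat_N (n : ℕ) : (ODD.Nall (n + 1) : ℝ) * (((4 * n + 3).factorial : ℝ) * ((4 * n + 5).factorial : ℝ)) =
    (ODD.Nall n : ℝ) * (2 * (3 * n + 5) * (3 * n + 4) * (3 * n + 3) * ((2 * n + 1).factorial : ℝ) *
      ((6 * n + 4).factorial : ℝ)) := by
  have h := ODD.Fq_succ n
  rw [← ODD.F_eq, ← ODD.F_eq, ← (ODD.counts n).2.2, ← (ODD.counts (n + 1)).2.2] at h
  exact_mod_cast h

private theorem Lrat_E (n : ℕ) : (Neven (n + 1) : ℝ) * (2 * ((4 * n + 3).factorial : ℝ) * ((4 * n + 2).factorial : ℝ)) =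
    (Neven n : ℝ) * (((2 * n + 1).factorial : ℝ) * ((6 * n + 4).factorial : ℝ)) := by
  have h0 : ∀ m, (Neven m : ℚ) = ODD.Aq m := by
    intro m
    rw [neven_eq]
    exact ODD.cE_eq m
  have h : ODD.Aq (n + 1) * (2 * ((4 * n + 3).factorial : ℚ) * ((4 * n + 2).factorial : ℚ)) =
      ODD.Aq n * (((2 * n + 1).factorial : ℚ) * ((6 * n + 4).factorial : ℚ)) := by
    have h1 : ((4 * n + 3).factorial : ℚ) ≠ 0 := by positivity
    have h2 : ((4 * n + 2).factorial : ℚ) ≠ 0 := by positivity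
    rw [ODD.Aq, ODD.Aq, Finset.prod_range_succ]
    push_cast
    field_simp
  rw [← h0, ← h0] at h
  exact_mod_cast h

private theorem Lrat_f (k : ℕ) : ((k + 1).factorial : ℝ) = (k + 1) * (k.factorial : ℝ) := by
  rw [Nat.factorial_succ]
  push_cast
  ring

private theorem Lrat_c {n k : ℕ} (h : k ≤ n) :
    ((n.choose k : ℕ) : ℝ) * (k.factorial : ℝ) * ((n - k).factorial : ℝ) = (n.factorial : ℝ) := by
  exact_mod_cast Nat.choose_mul_factorial_mul_factorial h

theorem rat1 (n : ℕ) : (ODD.Nall (n + 1) : ℝ) * (Neven n : ℝ) ≤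
    4 * ((ODD.Nall n : ℝ) * (Neven (n + 1) : ℝ)) := by
  have hN := Lrat_N n
  have hE := Lrat_E n
  have f5 : ((4 * n + 5).factorial : ℝ) = (4 * n + 5) * ((4 * n + 4) * ((4 * n + 3) * ((4 * n + 2).factorial : ℝ))) := by
    rw [Lrat_f (4 * n + 4), Lrat_f (4 * n + 3), Lrat_f (4 * n + 2)]
    push_cast
    ring
  have p2 : (0 : ℝ) < ((4 * n + 2).factorial : ℝ) := by positivity
  have p3 : (0 : ℝ) < ((4 * n + 3).factorial : ℝ) := by positivity
  rw [f5] at hN
  have key : (ODD.Nall (n + 1) : ℝ) * (Neven n : ℝ) * ((4 * n + 5) * (4 * n + 4) * (4 * n + 3)) =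
      (4 * (3 * n + 5) * (3 * n + 4) * (3 * n + 3)) * ((ODD.Nall n : ℝ) * (Neven (n + 1) : ℝ)) := by
    have h1 : (((4 * n + 2).factorial : ℝ) * ((4 * n + 3).factorial : ℝ)) ≠ 0 := by positivity
    refine mul_left_cancel₀ h1 ?_
    linear_combination (Neven n : ℝ) * hN - (ODD.Nall n : ℝ) * (2 * (3 * n + 5) * (3 * n + 4) * (3 * n + 3)) * hE
  have hn : (0 : ℝ) ≤ n := Nat.cast_nonneg n
  refine Lrat_le (by positivity) (by positivity) key ?_
  nlinarith [mul_nonneg hn hn, mul_nonneg hn (mul_nonneg hn hn)]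

theorem rat2 (n : ℕ) : (Neven n : ℝ) * (((6 * n + 7).choose (2 * n + 2) : ℕ) : ℝ) ≤
    4 * ((Neven (n + 1) : ℝ) * (((4 * n + 4).choose (2 * n + 2) : ℕ) : ℝ)) := by
  have hE := Lrat_E n
  have hc1 := Lrat_c (n := 6 * n + 7) (k := 2 * n + 2) (by omega)
  have hc2 := Lrat_c (n := 4 * n + 4) (k := 2 * n + 2) (by omega)
  rw [show 6 * n + 7 - (2 * n + 2) = 4 * n + 5 by omega] at hc1
  rw [show 4 * n + 4 - (2 * n + 2) = 2 * n + 2 by omega] at hc2
  have f5 : ((4 * n + 5).factorial : ℝ) = (4 * n + 5) * ((4 * n + 4) * ((4 * n + 3) * ((4 * n + 2).factorial : ℝ))) := by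
    rw [Lrat_f (4 * n + 4), Lrat_f (4 * n + 3), Lrat_f (4 * n + 2)]
    push_cast
    ring
  have f4 : ((4 * n + 4).factorial : ℝ) = ((4 * n + 4) * ((4 * n + 3) * ((4 * n + 2).factorial : ℝ))) := by
    rw [Lrat_f (4 * n + 3), Lrat_f (4 * n + 2)]
    push_cast
    ring
  have f3 : ((4 * n + 3).factorial : ℝ) = ((4 * n + 3) * ((4 * n + 2).factorial : ℝ)) := by
    rw [Lrat_f (4 * n + 2)]
    push_cast
    ring
  have f7 : ((6 * n + 7).factorial : ℝ) = (6 * n + 7) * ((6 * n + 6) * ((6 * n + 5) * ((6 * n + 4).factorial : ℝ))) := by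
    rw [Lrat_f (6 * n + 6), Lrat_f (6 * n + 5), Lrat_f (6 * n + 4)]
    push_cast
    ring
  have f2 : ((2 * n + 2).factorial : ℝ) = (2 * n + 2) * ((2 * n + 1).factorial : ℝ) := by
    rw [Lrat_f (2 * n + 1)]
    push_cast
    ring
  rw [f3] at hE
  rw [f7, f5, f2] at hc1
  rw [f4, f2] at hc2
  have p2 : (0 : ℝ) < ((4 * n + 2).factorial : ℝ) := by positivity
  have p3 : (0 : ℝ) < ((2 * n + 1).factorial : ℝ) := by positivity
  have p4 : (0 : ℝ) < ((6 * n + 4).factorial : ℝ) := by positivity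
  generalize ((4 * n + 2).factorial : ℝ) = A at *
  generalize ((2 * n + 1).factorial : ℝ) = B at *
  generalize ((6 * n + 4).factorial : ℝ) = G at *
  generalize (((6 * n + 7).choose (2 * n + 2) : ℕ) : ℝ) = c1 at *
  generalize (((4 * n + 4).choose (2 * n + 2) : ℕ) : ℝ) = c2 at *
  have e1 : c1 = (6 * n + 7) * ((6 * n + 6) * ((6 * n + 5) * G)) /
      ((2 * n + 2) * B * ((4 * n + 5) * ((4 * n + 4) * ((4 * n + 3) * A)))) := by
    rw [eq_div_iff (by positivity)]
    linear_combination hc1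
  have e2 : c2 = (4 * n + 4) * ((4 * n + 3) * A) / ((2 * n + 2) * B * ((2 * n + 2) * B)) := by
    rw [eq_div_iff (by positivity)]
    linear_combination hc2
  have e3 : (Neven (n + 1) : ℝ) = (Neven n : ℝ) * (B * G) / (2 * ((4 * n + 3) * A) * A) := by
    rw [eq_div_iff (by positivity)]
    linear_combination hE
  have hn : (0 : ℝ) ≤ n := Nat.cast_nonneg n
  have key : (Neven n : ℝ) * c1 * ((4 * n + 5) * (4 * n + 4) * (4 * n + 4) * (4 * n + 3)) =
      (2 * (2 * n + 2) * (6 * n + 7) * (6 * n + 6) * (6 * n + 5)) * ((Neven (n + 1) : ℝ) * c2) := by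
    rw [e1, e2, e3]
    field_simp
  have hc2p : 0 ≤ c2 := by
    rw [e2]
    positivity
  refine Lrat_le (by positivity) (mul_nonneg (Nat.cast_nonneg _) hc2p) key ?_
  nlinarith [mul_nonneg hn hn, mul_nonneg hn (mul_nonneg hn hn), mul_nonneg (mul_nonneg hn hn) (mul_nonneg hn hn)]

theorem rat3 (n : ℕ) (hn : 1 ≤ n) :
    (ODD.Nall (n - 1) : ℝ) * (((6 * n + 4).choose (2 * n + 1) : ℕ) : ℝ) ≤
      4 * ((ODD.Nall n : ℝ) * (((4 * n + 2).choose (2 * n + 1) : ℕ) : ℝ)) := by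
  obtain ⟨m, rfl⟩ : ∃ m, n = m + 1 := ⟨n - 1, by omega⟩
  rw [show m + 1 - 1 = m by omega]
  have hN := Lrat_N m
  have hc1 := Lrat_c (n := 6 * (m + 1) + 4) (k := 2 * (m + 1) + 1) (by omega)
  have hc2 := Lrat_c (n := 4 * (m + 1) + 2) (k := 2 * (m + 1) + 1) (by omega)
  rw [show 6 * (m + 1) + 4 - (2 * (m + 1) + 1) = 4 * m + 7 by omega] at hc1
  rw [show 4 * (m + 1) + 2 - (2 * (m + 1) + 1) = 2 * m + 3 by omega] at hc2
  rw [show 6 * (m + 1) + 4 = 6 * m + 10 by ring, show 2 * (m + 1) + 1 = 2 * m + 3 by ring] at hc1 ⊢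
  rw [show 4 * (m + 1) + 2 = 4 * m + 6 by ring, show 2 * (m + 1) + 1 = 2 * m + 3 by ring] at hc2
  rw [show 4 * (m + 1) + 2 = 4 * m + 6 by ring]
  have f5 : ((4 * m + 5).factorial : ℝ) = (4 * m + 5) * ((4 * m + 4) * ((4 * m + 3).factorial : ℝ)) := by
    rw [Lrat_f (4 * m + 4), Lrat_f (4 * m + 3)]
    push_cast
    ring
  have f6 : ((4 * m + 6).factorial : ℝ) = (4 * m + 6) * ((4 * m + 5) * ((4 * m + 4) * ((4 * m + 3).factorial : ℝ))) := by
    rw [Lrat_f (4 * m + 5), Lrat_f (4 * m + 4), Lrat_f (4 * m + 3)]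
    push_cast
    ring
  have f7 : ((4 * m + 7).factorial : ℝ) =
      (4 * m + 7) * ((4 * m + 6) * ((4 * m + 5) * ((4 * m + 4) * ((4 * m + 3).factorial : ℝ)))) := by
    rw [Lrat_f (4 * m + 6), Lrat_f (4 * m + 5), Lrat_f (4 * m + 4), Lrat_f (4 * m + 3)]
    push_cast
    ring
  have f10 : ((6 * m + 10).factorial : ℝ) = (6 * m + 10) * ((6 * m + 9) * ((6 * m + 8) * ((6 * m + 7) *
      ((6 * m + 6) * ((6 * m + 5) * ((6 * m + 4).factorial : ℝ)))))) := by
    rw [Lrat_f (6 * m + 9), Lrat_f (6 * m + 8), Lrat_f (6 * m + 7), Lrat_f (6 * m + 6), Lrat_f (6 * m + 5),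
      Lrat_f (6 * m + 4)]
    push_cast
    ring
  have f3 : ((2 * m + 3).factorial : ℝ) = (2 * m + 3) * ((2 * m + 2) * ((2 * m + 1).factorial : ℝ)) := by
    rw [Lrat_f (2 * m + 2), Lrat_f (2 * m + 1)]
    push_cast
    ring
  rw [f5] at hN
  rw [f10, f7, f3] at hc1
  rw [f6, f3] at hc2
  have p2 : (0 : ℝ) < ((4 * m + 3).factorial : ℝ) := by positivity
  have p3 : (0 : ℝ) < ((2 * m + 1).factorial : ℝ) := by positivity
  have p4 : (0 : ℝ) < ((6 * m + 4).factorial : ℝ) := by positivity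
  generalize ((4 * m + 3).factorial : ℝ) = A at *
  generalize ((2 * m + 1).factorial : ℝ) = B at *
  generalize ((6 * m + 4).factorial : ℝ) = G at *
  generalize (((6 * m + 10).choose (2 * m + 3) : ℕ) : ℝ) = c1 at *
  generalize (((4 * m + 6).choose (2 * m + 3) : ℕ) : ℝ) = c2 at *
  have e1 : c1 = (6 * m + 10) * ((6 * m + 9) * ((6 * m + 8) * ((6 * m + 7) * ((6 * m + 6) * ((6 * m + 5) * G))))) /
      ((2 * m + 3) * ((2 * m + 2) * B) * ((4 * m + 7) * ((4 * m + 6) * ((4 * m + 5) * ((4 * m + 4) * A))))) := by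
    rw [eq_div_iff (by positivity)]
    linear_combination hc1
  have e2 : c2 = (4 * m + 6) * ((4 * m + 5) * ((4 * m + 4) * A)) /
      ((2 * m + 3) * ((2 * m + 2) * B) * ((2 * m + 3) * ((2 * m + 2) * B))) := by
    rw [eq_div_iff (by positivity)]
    linear_combination hc2
  have e3 : (ODD.Nall (m + 1) : ℝ) = (ODD.Nall m : ℝ) * (2 * (3 * m + 5) * (3 * m + 4) * (3 * m + 3) * B * G) /
      (A * ((4 * m + 5) * ((4 * m + 4) * A))) := by
    rw [eq_div_iff (by positivity)]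
    linear_combination hN
  have hm : (0 : ℝ) ≤ m := Nat.cast_nonneg m
  have key : (ODD.Nall m : ℝ) * c1 * (2 * (4 * m + 7) * (4 * m + 5)) =
      (3 * (6 * m + 7) * (6 * m + 5)) * ((ODD.Nall (m + 1) : ℝ) * c2) := by
    rw [e1, e2, e3]
    field_simp
    ring
  have hc2p : 0 ≤ c2 := by
    rw [e2]
    positivity
  refine Lrat_le (by positivity) (mul_nonneg (Nat.cast_nonneg _) hc2p) key ?_
  nlinarith [mul_nonneg hm hm]

theorem rat4 (n : ℕ) :
    (((4 * n).choose (2 * n) : ℕ) : ℝ) * (((6 * n + 4).choose (2 * n + 1) : ℕ) : ℝ) ≤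
      2 * ((((6 * n + 1).choose (2 * n) : ℕ) : ℝ) *
        (((4 * n + 2).choose (2 * n + 1) : ℕ) : ℝ)) := by
  have hc1 := Lrat_c (n := 4 * n) (k := 2 * n) (by omega)
  have hc2 := Lrat_c (n := 6 * n + 4) (k := 2 * n + 1) (by omega)
  have hc3 := Lrat_c (n := 6 * n + 1) (k := 2 * n) (by omega)
  have hc4 := Lrat_c (n := 4 * n + 2) (k := 2 * n + 1) (by omega)
  rw [show 4 * n - 2 * n = 2 * n by omega] at hc1
  rw [show 6 * n + 4 - (2 * n + 1) = 4 * n + 3 by omega] at hc2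
  rw [show 6 * n + 1 - 2 * n = 4 * n + 1 by omega] at hc3
  rw [show 4 * n + 2 - (2 * n + 1) = 2 * n + 1 by omega] at hc4
  have f1 : ((4 * n + 1).factorial : ℝ) = (4 * n + 1) * ((4 * n).factorial : ℝ) := by
    rw [Lrat_f (4 * n)]
    push_cast
    ring
  have f2 : ((4 * n + 2).factorial : ℝ) = (4 * n + 2) * ((4 * n + 1) * ((4 * n).factorial : ℝ)) := by
    rw [Lrat_f (4 * n + 1), Lrat_f (4 * n)]
    push_cast
    ring
  have f3 : ((4 * n + 3).factorial : ℝ) = (4 * n + 3) * ((4 * n + 2) * ((4 * n + 1) * ((4 * n).factorial : ℝ))) := by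
    rw [Lrat_f (4 * n + 2), Lrat_f (4 * n + 1), Lrat_f (4 * n)]
    push_cast
    ring
  have f4 : ((6 * n + 4).factorial : ℝ) = (6 * n + 4) * ((6 * n + 3) * ((6 * n + 2) * ((6 * n + 1).factorial : ℝ))) := by
    rw [Lrat_f (6 * n + 3), Lrat_f (6 * n + 2), Lrat_f (6 * n + 1)]
    push_cast
    ring
  have f5 : ((2 * n + 1).factorial : ℝ) = (2 * n + 1) * ((2 * n).factorial : ℝ) := by
    rw [Lrat_f (2 * n)]
    push_cast
    ring
  rw [f4, f3, f5] at hc2
  rw [f1] at hc3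
  rw [f2, f5] at hc4
  have p2 : (0 : ℝ) < ((4 * n).factorial : ℝ) := by positivity
  have p3 : (0 : ℝ) < ((2 * n).factorial : ℝ) := by positivity
  have p4 : (0 : ℝ) < ((6 * n + 1).factorial : ℝ) := by positivity
  generalize ((4 * n).factorial : ℝ) = A at *
  generalize ((2 * n).factorial : ℝ) = B at *
  generalize ((6 * n + 1).factorial : ℝ) = G at *
  generalize (((4 * n).choose (2 * n) : ℕ) : ℝ) = c1 at *
  generalize (((6 * n + 4).choose (2 * n + 1) : ℕ) : ℝ) = c2 at *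
  generalize (((6 * n + 1).choose (2 * n) : ℕ) : ℝ) = c3 at *
  generalize (((4 * n + 2).choose (2 * n + 1) : ℕ) : ℝ) = c4 at *
  have e1 : c1 = A / (B * B) := by
    rw [eq_div_iff (by positivity)]
    linear_combination hc1
  have e2 : c2 = (6 * n + 4) * ((6 * n + 3) * ((6 * n + 2) * G)) /
      ((2 * n + 1) * B * ((4 * n + 3) * ((4 * n + 2) * ((4 * n + 1) * A)))) := by
    rw [eq_div_iff (by positivity)]
    linear_combination hc2
  have e3 : c3 = G / (B * ((4 * n + 1) * A)) := by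
    rw [eq_div_iff (by positivity)]
    linear_combination hc3
  have e4 : c4 = (4 * n + 2) * ((4 * n + 1) * A) / ((2 * n + 1) * B * ((2 * n + 1) * B)) := by
    rw [eq_div_iff (by positivity)]
    linear_combination hc4
  have hn : (0 : ℝ) ≤ n := Nat.cast_nonneg n
  have key : c1 * c2 * (4 * (4 * n + 3) * (4 * n + 1)) = (3 * (6 * n + 4) * (6 * n + 2)) * (c3 * c4) := by
    rw [e1, e2, e3, e4]
    field_simp
    ring
  have hp : 0 ≤ c3 * c4 := by
    rw [e3, e4]
    positivity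
  refine Lrat_le (by positivity) hp key ?_
  nlinarith [mul_nonneg hn hn]

theorem del_lim : Tendsto (fun n : ℕ => ((del n : ℚ) : ℝ) / ODD.Nall n) atTop (𝓝 0) := by
  have h1 := ODD.rho_lim
  have h2 : Tendsto (fun n : ℕ => ((n : ℝ))⁻¹) atTop (𝓝 0) :=
    tendsto_inv_atTop_zero.comp tendsto_natCast_atTop_atTop
  have h3 := h2.mul h1
  rw [zero_mul] at h3
  refine h3.congr' ?_
  filter_upwards [eventually_ge_atTop 1] with n hn
  have hn0 : (n : ℝ) ≠ 0 := by
    have : (0 : ℝ) < n := by exact_mod_cast hn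
    exact this.ne'
  have h4 := ODD.counts n
  have h5 : del n = ODD.F n * ODD.rhoq n := by
    rw [del, h4.1, h4.2.1, ODD.rho_eq]
    ring
  have h6 : (ODD.Nall n : ℝ) = ((ODD.F n : ℚ) : ℝ) := by
    rw [← h4.2.2]
    push_cast
    rfl
  have h7 : ((ODD.F n : ℚ) : ℝ) ≠ 0 := by
    have := Lrat_pos n
    exact_mod_cast this.ne'
  rw [h5, h6]
  push_cast
  field_simp

end ODR
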