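import Pool.Agent.ODR.Lrec
import Pool.Agent.ODR.Lrat

/-!
# ODR-Lin: the two inequalities

Plan. `T = Nall n`, `g = gN (2 n)`, `g(1) = C(6n+1, 2n)` (`gN_one`), for `‖t‖ = 1` every polynomial with nonnegative coefficients satisfies `‖p(t)‖ ≤ p(1)`.
`in_s`: by `Gs_eq` and `sum_eq` (evaluated at `t`; `Sc_one'`, `Sc_zero'`: the constants are `al = -2 T/g(1)` and
`be = -(2 T' + 2 al C(4n,2n))/C(4n+2,2n+1)`, `T' = Nall (n-1)`, `Pc = (1+X) Dc`):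
`(1+t)(2-t)(2t-1) ((1+t) Gs/T - 2 t g(t)/g(1)) = ((1+t)^2 (2-t) (t-1) cZ + t (3 t (1-t) (1+t) Dc(t) + be (1-t)^2 gN (2n+1)(t)))/T` exactly, times `1`. Bounds: `cZ ≤ T`, `‖Dc(t)‖ ≤ T`
(`Dc_bound`; then the term is `3 ‖1-t‖ ‖1+t‖ ‖Pc..‖`; note `Pc(t) = (1+t) Dc(t)` gives `3 t (1-t) Pc(t)`), `‖1-t‖ ≤ 2`, and `|be| gN (2n+1)(1) ≤ 2 (4 + 2 * 2) T = 16 T` by `rat3`, `rat4`
(`gN (2n+1)(1) = C(6n+4, 2n+1)`). Total `‖1-t‖ (4 * 3 + 3 * 2 + 2 * 16) = 50 ‖1-t‖`.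
`in_d`: `rec_eq`: `Pc n (t) - (2 del/g(1)) g(t) = ((1-t)^2/t^2) (e/e') (Pc (n+1)(t) - (del/C(4n+4,2n+2)) gN (2n+2)(t))`, `‖Pc (n+1)(t)‖ ≤ 2 Nall (n+1)`, `|del| ≤ T`, `rat1`, `rat2`:
norm at most `12 ‖1-t‖^2 T`; `(1+t) Gd = (1+t)(1-t) cZ + t Pc n (t)` (`Gd_eq`).
-/

set_option autoImplicit false

namespace ODR

open ODD Polynomial

private theorem lin_gN (N : ℕ) (t : ℂ) (ht : ‖t‖ = 1) :
    ‖(gN N).eval t‖ ≤ (((3 * N + 1).choose N : ℕ) : ℝ) := by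
  have h1 : (((3 * N + 1).choose N : ℕ) : ℝ) =
      ∑ k ∈ Finset.range (N + 1), (((N + k).choose N * (2 * N - k).choose N : ℕ) : ℝ) := by
    have h := gN_one N
    unfold gN at h
    rw [eval_finsetSum] at h
    simp only [eval_mul, eval_C, eval_pow, eval_X, one_pow, mul_one] at h
    exact_mod_cast h.symm
  rw [h1]
  unfold gN
  rw [eval_finsetSum]
  refine (norm_sum_le _ _).trans (Finset.sum_le_sum fun k _ => ?_)
  simp only [eval_mul, eval_C, eval_pow, eval_X]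
  rw [norm_mul, norm_pow, ht, one_pow, mul_one, Complex.norm_natCast]

private theorem lin_g1 (n : ℕ) : (gN (2 * n)).eval 1 = (((6 * n + 1).choose (2 * n) : ℕ) : ℂ) := by
  rw [gN_one]
  have : 3 * (2 * n) + 1 = 6 * n + 1 := by ring
  rw [this]

private theorem lin_g2 (n : ℕ) (t : ℂ) (ht : ‖t‖ = 1) :
    ‖(gN (2 * n + 1)).eval t‖ ≤ (((6 * n + 4).choose (2 * n + 1) : ℕ) : ℝ) := by
  have h := lin_gN (2 * n + 1) t ht
  have : 3 * (2 * n + 1) + 1 = 6 * n + 4 := by ring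
  rwa [this] at h

private theorem lin_g3 (n : ℕ) (t : ℂ) (ht : ‖t‖ = 1) :
    ‖(gN (2 * n + 2)).eval t‖ ≤ (((6 * n + 7).choose (2 * n + 2) : ℕ) : ℝ) := by
  have h := lin_gN (2 * n + 2) t ht
  have : 3 * (2 * n + 2) + 1 = 6 * n + 7 := by ring
  rwa [this] at h

private theorem lin_be (n : ℕ) (hn : 1 ≤ n) :
    ‖(2 * -(Nall (n - 1) : ℂ) - 2 * (-2 * (Nall n : ℂ) / ((6 * n + 1).choose (2 * n) : ℕ)) *
        ((4 * n).choose (2 * n) : ℕ)) / ((4 * n + 2).choose (2 * n + 1) : ℕ)‖ *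
      (((6 * n + 4).choose (2 * n + 1) : ℕ) : ℝ) ≤ 16 * (Nall n : ℝ) := by
  have h3 := rat3 n hn
  have h4 := rat4 n
  have p1 : (0 : ℝ) < (((6 * n + 1).choose (2 * n) : ℕ) : ℝ) := by
    exact_mod_cast Nat.choose_pos (by omega)
  have p2 : (0 : ℝ) < (((4 * n + 2).choose (2 * n + 1) : ℕ) : ℝ) := by
    exact_mod_cast Nat.choose_pos (by omega)
  have p3 : (0 : ℝ) < (Nall n : ℝ) := by exact_mod_cast nall_pos n
  rw [norm_div, Complex.norm_natCast, div_mul_eq_mul_div, div_le_iff₀ p2]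
  have hb : ‖2 * -(Nall (n - 1) : ℂ) - 2 * (-2 * (Nall n : ℂ) / ((6 * n + 1).choose (2 * n) : ℕ)) *
        ((4 * n).choose (2 * n) : ℕ)‖ ≤ 2 * (Nall (n - 1) : ℝ) +
        4 * (Nall n : ℝ) / ((6 * n + 1).choose (2 * n) : ℕ) * ((4 * n).choose (2 * n) : ℕ) := by
    refine (norm_sub_le _ _).trans (add_le_add ?_ ?_)
    · rw [norm_mul, norm_neg, Complex.norm_natCast]
      norm_num
    · rw [norm_mul, norm_mul, norm_div, norm_mul, Complex.norm_natCast, Complex.norm_natCast,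
        Complex.norm_natCast]
      norm_num
      apply le_of_eq
      ring
  refine (mul_le_mul_of_nonneg_right hb (by positivity)).trans ?_
  have e1 : 4 * (Nall n : ℝ) / ((6 * n + 1).choose (2 * n) : ℕ) * ((4 * n).choose (2 * n) : ℕ) *
      (((6 * n + 4).choose (2 * n + 1) : ℕ) : ℝ) ≤
      8 * (Nall n : ℝ) * (((4 * n + 2).choose (2 * n + 1) : ℕ) : ℝ) := by
    have e2 : 4 * (Nall n : ℝ) / ((6 * n + 1).choose (2 * n) : ℕ) * ((4 * n).choose (2 * n) : ℕ) *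
      (((6 * n + 4).choose (2 * n + 1) : ℕ) : ℝ) = 4 * (Nall n : ℝ) *
      ((((4 * n).choose (2 * n) : ℕ) : ℝ) * (((6 * n + 4).choose (2 * n + 1) : ℕ) : ℝ)) /
        ((6 * n + 1).choose (2 * n) : ℕ) := by ring
    rw [e2, div_le_iff₀ p1]
    have := mul_le_mul_of_nonneg_left h4 (by positivity : 0 ≤ 4 * (Nall n : ℝ))
    linarith
  rw [add_mul]
  linarith

private theorem lin_n1 (t : ℂ) (ht : ‖t‖ = 1) : ‖1 + t‖ ≤ 2 := by
  refine (norm_add_le _ _).trans ?_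
  rw [ht, norm_one]
  norm_num

private theorem lin_n2 (t : ℂ) (ht : ‖t‖ = 1) : ‖2 - t‖ ≤ 3 := by
  refine (norm_sub_le _ _).trans ?_
  rw [ht]
  norm_num

private theorem lin_n3 (t : ℂ) (ht : ‖t‖ = 1) : ‖1 - t‖ ≤ 2 := by
  refine (norm_sub_le _ _).trans ?_
  rw [ht, norm_one]
  norm_num

private theorem lin_Pc (n : ℕ) (hn : 1 ≤ n) (t : ℂ) (ht : ‖t‖ = 1) :
    ‖(Pc n).eval t‖ ≤ 2 * (Nall n : ℝ) := by
  have h : (Pc n).eval t = (1 + t) * (Dc n).eval t := by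
    rw [Pc, eval_mul]
    simp
  rw [h, norm_mul]
  exact mul_le_mul (lin_n1 t ht) (Dc_bound n hn t ht) (norm_nonneg _) (by norm_num)

theorem in_s (n : ℕ) (hn : 1 ≤ n) (t : ℂ) (ht : ‖t‖ = 1) :
    ‖(1 + t) * (2 - t) * (2 * t - 1) * ((1 + t) * (Gs n t / (Nall n : ℂ)) -
      2 * t * ((gN (2 * n)).eval t / (gN (2 * n)).eval 1))‖ ≤ 50 * ‖1 - t‖ := by
  have hT : (0 : ℝ) < (Nall n : ℝ) := by exact_mod_cast nall_pos n
  have hT' : (Nall n : ℂ) ≠ 0 := by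
    have := nall_pos n
    exact_mod_cast this.ne'
  have hg : (((6 * n + 1).choose (2 * n) : ℕ) : ℂ) ≠ 0 := by
    have : 0 < (6 * n + 1).choose (2 * n) := Nat.choose_pos (by omega)
    exact_mod_cast this.ne'
  have h := congrArg (eval t) (sum_eq n hn)
  rw [Sc_one' n hn, Sc_zero' n hn] at h
  have hbe := lin_be n hn
  generalize (2 * -(Nall (n - 1) : ℂ) - 2 * (-2 * (Nall n : ℂ) / ((6 * n + 1).choose (2 * n) : ℕ)) *
        ((4 * n).choose (2 * n) : ℕ)) / ((4 * n + 2).choose (2 * n + 1) : ℕ) = b at h hbe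
  simp only [eval_mul, eval_add, eval_pow, eval_sub, eval_one, eval_X, eval_C, eval_ofNat] at h
  have hG := Gs_eq n t
  have hQ : (1 + t) * (2 - t) * (2 * t - 1) * ((1 + t) * (Gs n t / (Nall n : ℂ)) -
      2 * t * ((gN (2 * n)).eval t / (gN (2 * n)).eval 1)) =
      (1 - t) * (-((1 + t) ^ 2 * (2 - t) * (cZ (2 * n) : ℂ)) + 3 * t ^ 2 * (Pc n).eval t +
        t * (1 - t) * (b * (gN (2 * n + 1)).eval t)) / (Nall n : ℂ) := by
    rw [lin_g1]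
    rw [eq_div_iff hT']
    have e1 : (1 + t) * (2 - t) * (2 * t - 1) * ((1 + t) * (Gs n t / (Nall n : ℂ)) -
      2 * t * ((gN (2 * n)).eval t / (((6 * n + 1).choose (2 * n) : ℕ) : ℂ))) * (Nall n : ℂ) =
      (1 + t) ^ 2 * (2 - t) * ((2 * t - 1) * Gs n t) - (1 + t) * (2 - t) * (2 * t - 1) *
        (2 * t * ((gN (2 * n)).eval t / (((6 * n + 1).choose (2 * n) : ℕ) : ℂ))) *
          (Nall n : ℂ) := by
      field_simp
    rw [e1, hG]
    linear_combination t * h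
  rw [hQ, norm_div, norm_mul, Complex.norm_natCast, div_le_iff₀ hT]
  have hb1 : ‖-((1 + t) ^ 2 * (2 - t) * (cZ (2 * n) : ℂ))‖ ≤ 12 * (Nall n : ℝ) := by
    rw [norm_neg, norm_mul, norm_mul, norm_pow, Complex.norm_natCast]
    have h1 := lin_n1 t ht
    have h2 := lin_n2 t ht
    have h3 := cZ_le n hn
    calc ‖1 + t‖ ^ 2 * ‖2 - t‖ * (cZ (2 * n) : ℝ) ≤ 2 ^ 2 * 3 * (Nall n : ℝ) := by
          gcongr
      _ = 12 * (Nall n : ℝ) := by norm_num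
  have hb2 : ‖3 * t ^ 2 * (Pc n).eval t‖ ≤ 6 * (Nall n : ℝ) := by
    rw [norm_mul, norm_mul, norm_pow, ht]
    have := lin_Pc n hn t ht
    norm_num
    linarith
  have hb3 : ‖t * (1 - t) * (b * (gN (2 * n + 1)).eval t)‖ ≤ 32 * (Nall n : ℝ) := by
    rw [norm_mul, norm_mul, norm_mul, ht, one_mul]
    have h1 := lin_n3 t ht
    have h2 : ‖b‖ * ‖(gN (2 * n + 1)).eval t‖ ≤ 16 * (Nall n : ℝ) :=
      (mul_le_mul_of_nonneg_left (lin_g2 n t ht) (norm_nonneg _)).trans hbe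
    calc ‖1 - t‖ * (‖b‖ * ‖(gN (2 * n + 1)).eval t‖) ≤ 2 * (16 * (Nall n : ℝ)) :=
          mul_le_mul h1 h2 (by positivity) (by norm_num)
      _ = 32 * (Nall n : ℝ) := by ring
  have hb : ‖-((1 + t) ^ 2 * (2 - t) * (cZ (2 * n) : ℂ)) + 3 * t ^ 2 * (Pc n).eval t +
        t * (1 - t) * (b * (gN (2 * n + 1)).eval t)‖ ≤ 50 * (Nall n : ℝ) := by
    refine (norm_add_le _ _).trans ?_
    have := norm_add_le (-((1 + t) ^ 2 * (2 - t) * (cZ (2 * n) : ℂ))) (3 * t ^ 2 * (Pc n).eval t)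
    linarith
  calc ‖1 - t‖ * _ ≤ ‖1 - t‖ * (50 * (Nall n : ℝ)) := mul_le_mul_of_nonneg_left hb (norm_nonneg _)
    _ = 50 * ‖1 - t‖ * (Nall n : ℝ) := by ring

private theorem lin_del (n : ℕ) : |((del n : ℚ) : ℝ)| ≤ (Nall n : ℝ) := by
  rw [del, Nall_eq]
  push_cast
  rw [abs_le]
  constructor <;> nlinarith [Nat.cast_nonneg (α := ℝ) (Npos n), Nat.cast_nonneg (α := ℝ) (Nneg n)]

private theorem lin_rec (n : ℕ) (hn : 1 ≤ n) (t : ℂ) (ht : ‖t‖ = 1) :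
    ‖(Pc n).eval t - 2 * ((del n : ℚ) : ℂ) / (gN (2 * n)).eval 1 * (gN (2 * n)).eval t‖ ≤
      12 * ‖1 - t‖ ^ 2 * (Nall n : ℝ) := by
  have h := congrArg (eval t) (rec_eq n hn)
  simp only [eval_mul, eval_add, eval_pow, eval_sub, eval_one, eval_X, eval_C] at h
  have hE' : (0 : ℝ) < (cZ (2 * (n + 1)) : ℝ) := by
    have h := neven_pos (n + 1)
    rw [neven_eq] at h
    exact_mod_cast h
  have h1 := rat1 n
  have h2 := rat2 n
  rw [neven_eq, neven_eq] at h1 h2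
  have p2 : (0 : ℝ) < (((4 * n + 4).choose (2 * n + 2) : ℕ) : ℝ) := by
    exact_mod_cast Nat.choose_pos (by omega)
  have hd := lin_del n
  have hdn : ‖((del n : ℚ) : ℂ)‖ = |((del n : ℚ) : ℝ)| := by
    rw [← Complex.ofReal_ratCast, Complex.norm_real, Real.norm_eq_abs]
  have key : t ^ 2 * ((cZ (2 * (n + 1)) : ℂ) * ((Pc n).eval t -
      2 * ((del n : ℚ) : ℂ) / (gN (2 * n)).eval 1 * (gN (2 * n)).eval t)) =
      (1 - t) ^ 2 * ((cZ (2 * n) : ℂ) * (Pc (n + 1)).eval t -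
        (cZ (2 * n) : ℂ) * ((del n : ℚ) : ℂ) / ((4 * n + 4).choose (2 * n + 2) : ℕ) *
          (gN (2 * n + 2)).eval t) := by
    linear_combination -h
  have hn1 := congrArg norm key
  rw [norm_mul, norm_pow, ht, one_pow, one_mul, norm_mul, Complex.norm_natCast, norm_mul,
    norm_pow] at hn1
  have hb : ‖(cZ (2 * n) : ℂ) * (Pc (n + 1)).eval t -
        (cZ (2 * n) : ℂ) * ((del n : ℚ) : ℂ) / ((4 * n + 4).choose (2 * n + 2) : ℕ) *
          (gN (2 * n + 2)).eval t‖ ≤ 12 * (Nall n : ℝ) * (cZ (2 * (n + 1)) : ℝ) := by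
    refine (norm_sub_le _ _).trans ?_
    have b1 : ‖(cZ (2 * n) : ℂ) * (Pc (n + 1)).eval t‖ ≤
        8 * (Nall n : ℝ) * (cZ (2 * (n + 1)) : ℝ) := by
      rw [norm_mul, Complex.norm_natCast]
      have := lin_Pc (n + 1) (by omega) t ht
      have h3 : (cZ (2 * n) : ℝ) * ‖(Pc (n + 1)).eval t‖ ≤
          (cZ (2 * n) : ℝ) * (2 * (Nall (n + 1) : ℝ)) :=
        mul_le_mul_of_nonneg_left this (by positivity)
      linarith
    have b2 : ‖(cZ (2 * n) : ℂ) * ((del n : ℚ) : ℂ) / ((4 * n + 4).choose (2 * n + 2) : ℕ) *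
          (gN (2 * n + 2)).eval t‖ ≤ 4 * (Nall n : ℝ) * (cZ (2 * (n + 1)) : ℝ) := by
      rw [norm_mul, norm_div, norm_mul, Complex.norm_natCast, Complex.norm_natCast, hdn]
      have hg := lin_g3 n t ht
      rw [div_mul_eq_mul_div, div_le_iff₀ p2]
      calc (cZ (2 * n) : ℝ) * |((del n : ℚ) : ℝ)| * ‖(gN (2 * n + 2)).eval t‖
          ≤ (cZ (2 * n) : ℝ) * (Nall n : ℝ) * (((6 * n + 7).choose (2 * n + 2) : ℕ) : ℝ) := by
            gcongr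
        _ = (Nall n : ℝ) * ((cZ (2 * n) : ℝ) * (((6 * n + 7).choose (2 * n + 2) : ℕ) : ℝ)) := by
            ring
        _ ≤ (Nall n : ℝ) * (4 * ((cZ (2 * (n + 1)) : ℝ) *
              (((4 * n + 4).choose (2 * n + 2) : ℕ) : ℝ))) :=
            mul_le_mul_of_nonneg_left h2 (by positivity)
        _ = _ := by ring
    linarith
  have h5 : (cZ (2 * (n + 1)) : ℝ) * ‖(Pc n).eval t -
      2 * ((del n : ℚ) : ℂ) / (gN (2 * n)).eval 1 * (gN (2 * n)).eval t‖ ≤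
      (cZ (2 * (n + 1)) : ℝ) * (12 * ‖1 - t‖ ^ 2 * (Nall n : ℝ)) := by
    rw [hn1]
    refine (mul_le_mul_of_nonneg_left hb (by positivity)).trans (le_of_eq ?_)
    ring
  exact le_of_mul_le_mul_left h5 hE'

theorem in_d (n : ℕ) (hn : 1 ≤ n) (t : ℂ) (ht : ‖t‖ = 1) :
    ‖(1 + t) * (Gd n t / (Nall n : ℂ))‖ ≤
      2 * ‖1 - t‖ + 2 * |((del n : ℚ) : ℝ) / Nall n| + 12 * ‖1 - t‖ ^ 2 := by
  have hT : (0 : ℝ) < (Nall n : ℝ) := by exact_mod_cast nall_pos n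
  have hdn : ‖((del n : ℚ) : ℂ)‖ = |((del n : ℚ) : ℝ)| := by
    rw [← Complex.ofReal_ratCast, Complex.norm_real, Real.norm_eq_abs]
  have hP : (Pc n).eval t = (1 + t) * (Dc n).eval t := by
    rw [Pc, eval_mul]
    simp
  have e : (1 + t) * (Gd n t / (Nall n : ℂ)) = ((1 + t) * (1 - t) * (cZ (2 * n) : ℂ) +
      t * (((Pc n).eval t - 2 * ((del n : ℚ) : ℂ) / (gN (2 * n)).eval 1 * (gN (2 * n)).eval t) +
        2 * ((del n : ℚ) : ℂ) / (gN (2 * n)).eval 1 * (gN (2 * n)).eval t)) / (Nall n : ℂ) := by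
    rw [Gd_eq, hP]
    ring
  rw [e, norm_div, Complex.norm_natCast, div_le_iff₀ hT]
  have b1 : ‖(1 + t) * (1 - t) * (cZ (2 * n) : ℂ)‖ ≤ 2 * ‖1 - t‖ * (Nall n : ℝ) := by
    rw [norm_mul, norm_mul, Complex.norm_natCast]
    have h1 := lin_n1 t ht
    have h3 := cZ_le n hn
    gcongr
  have b2 := lin_rec n hn t ht
  have b3 : ‖2 * ((del n : ℚ) : ℂ) / (gN (2 * n)).eval 1 * (gN (2 * n)).eval t‖ ≤
      2 * |((del n : ℚ) : ℝ)| := by
    have p1 : (0 : ℝ) < (((6 * n + 1).choose (2 * n) : ℕ) : ℝ) := by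
      exact_mod_cast Nat.choose_pos (by omega)
    have hg := lin_gN (2 * n) t ht
    have e6 : 3 * (2 * n) + 1 = 6 * n + 1 := by ring
    rw [e6] at hg
    rw [lin_g1, norm_mul, norm_div, norm_mul, Complex.norm_natCast, hdn, div_mul_eq_mul_div,
      div_le_iff₀ p1]
    have h2 : ‖(2 : ℂ)‖ = 2 := by norm_num
    rw [h2]
    gcongr
  have b4 : 2 * |((del n : ℚ) : ℝ)| = 2 * |((del n : ℚ) : ℝ) / Nall n| * (Nall n : ℝ) := by
    rw [abs_div, abs_of_pos hT]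
    field_simp
  have b5 : ‖t * (((Pc n).eval t - 2 * ((del n : ℚ) : ℂ) / (gN (2 * n)).eval 1 *
      (gN (2 * n)).eval t) + 2 * ((del n : ℚ) : ℂ) / (gN (2 * n)).eval 1 *
        (gN (2 * n)).eval t)‖ ≤ 12 * ‖1 - t‖ ^ 2 * (Nall n : ℝ) + 2 * |((del n : ℚ) : ℝ)| := by
    rw [norm_mul, ht, one_mul]
    exact (norm_add_le _ _).trans (add_le_add b2 b3)
  refine (norm_add_le _ _).trans ?_
  have e7 : (2 * ‖1 - t‖ + 2 * |((del n : ℚ) : ℝ) / Nall n| + 12 * ‖1 - t‖ ^ 2) * (Nall n : ℝ) =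
      2 * ‖1 - t‖ * (Nall n : ℝ) + (12 * ‖1 - t‖ ^ 2 * (Nall n : ℝ) +
        2 * |((del n : ℚ) : ℝ) / Nall n| * (Nall n : ℝ)) := by ring
  rw [e7, ← b4]
  exact add_le_add b1 b5

end ODR
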