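import Pool.Agent.ODR.Asm

/-!
# ODR-Lrec: the recursion for the matrices, bounds for the coefficients
-/

set_option autoImplicit false

namespace ODR

open ODD Polynomial

theorem rec_eq (k : ℕ) (hk : 1 ≤ k) :
    (1 - X) ^ 2 * (C (cZ (2 * k) : ℂ) * Pc (k + 1)) =
      X ^ 2 * (C (cZ (2 * (k + 1)) : ℂ) * (Pc k -
        C (2 * ((del k : ℚ) : ℂ) / (gN (2 * k)).eval 1) * gN (2 * k))) +
      C ((cZ (2 * k) : ℂ) * ((del k : ℚ) : ℂ) / ((4 * k + 4).choose (2 * k + 2) : ℕ)) *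
        ((1 - X) ^ 2 * gN (2 * k + 2)) := by
  have h := D_rec k hk (Pc k) (Pc (k + 1)) (Pc_natDegree k hk)
    (Pc_natDegree (k + 1) (by omega)) (cZ (2 * k) : ℂ) (cZ (2 * (k + 1)) : ℂ) (Pc_fe k hk)
    (Pc_fe (k + 1) (by omega)) (Pc_pal k hk) (Pc_pal (k + 1) (by omega))
  rw [Pc_zero (k + 1) (by omega), Pc_one k hk, Nat.add_sub_cancel] at h
  exact h

/-- generating function of the sums -/
noncomputable def Gs (n : ℕ) (t : ℂ) : ℂ :=
  ∑ i ∈ Finset.range (2 * n + 1), ((ss n i : ℚ) : ℂ) * t ^ i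

/-- generating function of the differences -/
noncomputable def Gd (n : ℕ) (t : ℂ) : ℂ :=
  ∑ i ∈ Finset.range (2 * n + 1), ((dd n i : ℚ) : ℂ) * t ^ i

theorem Gs_eq (n : ℕ) (t : ℂ) :
    (2 * t - 1) * Gs n t = (t - 1) * (cZ (2 * n) : ℂ) + t * (Sc n).eval t := by
  have h : (Sc n).eval t = (cZ (2 * n) : ℂ) + (2 * t - 1) * ∑ i ∈ Finset.range (2 * n),
      ((ss n (i + 1) : ℚ) : ℂ) * t ^ i := by
    unfold Sc
    rw [eval_add, eval_mul, eval_finsetSum, eval_C]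
    congr 1
    congr 1
    · simp
    · refine Finset.sum_congr rfl fun i hi => ?_
      rw [ss_succ n i (Finset.mem_range.1 hi)]
      simp
  rw [h, Gs, Finset.sum_range_succ', ss_zero]
  have h2 : ∑ i ∈ Finset.range (2 * n), ((ss n (i + 1) : ℚ) : ℂ) * t ^ (i + 1) =
      t * ∑ i ∈ Finset.range (2 * n), ((ss n (i + 1) : ℚ) : ℂ) * t ^ i := by
    rw [Finset.mul_sum]
    refine Finset.sum_congr rfl fun i _ => ?_
    ring
  rw [h2]
  push_cast
  ring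

theorem Gd_eq (n : ℕ) (t : ℂ) :
    Gd n t = (1 - t) * (cZ (2 * n) : ℂ) + t * (Dc n).eval t := by
  have h : (Dc n).eval t = (cZ (2 * n) : ℂ) + ∑ i ∈ Finset.range (2 * n),
      ((dd n (i + 1) : ℚ) : ℂ) * t ^ i := by
    unfold Dc
    rw [eval_add, eval_finsetSum, eval_C]
    congr 1
    refine Finset.sum_congr rfl fun i hi => ?_
    rw [dd_succ n i (Finset.mem_range.1 hi)]
    simp
  rw [h, Gd, Finset.sum_range_succ', dd_zero]
  have h2 : ∑ i ∈ Finset.range (2 * n), ((dd n (i + 1) : ℚ) : ℂ) * t ^ (i + 1) =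
      t * ∑ i ∈ Finset.range (2 * n), ((dd n (i + 1) : ℚ) : ℂ) * t ^ i := by
    rw [Finset.mul_sum]
    refine Finset.sum_congr rfl fun i _ => ?_
    ring
  rw [h2]
  push_cast
  ring

theorem ss_sum (n : ℕ) (hn : 1 ≤ n) :
    ∑ i ∈ Finset.range (2 * n + 1), ss n i = (Nall n : ℚ) := by
  have h := Gs_eq n 1
  rw [Sc_one' n hn] at h
  have h2 : Gs n 1 = (Nall n : ℂ) := by
    linear_combination h
  unfold Gs at h2
  simp only [one_pow, mul_one] at h2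
  exact_mod_cast h2

theorem ss_nonneg (n i : ℕ) : 0 ≤ ss n i := by
  unfold ss
  positivity

theorem dd_le_ss (n i : ℕ) : |dd n i| ≤ ss n i := by
  unfold dd ss
  rw [abs_le]
  constructor <;> nlinarith [Nat.cast_nonneg (α := ℚ) (Nref n 1 i),
    Nat.cast_nonneg (α := ℚ) (Nref n (-1) i)]

theorem cZ_le (n : ℕ) (hn : 1 ≤ n) : (cZ (2 * n) : ℝ) ≤ Nall n := by
  have h : ss n 0 ≤ ∑ i ∈ Finset.range (2 * n + 1), ss n i :=
    Finset.single_le_sum (f := fun i => ss n i) (fun i _ => ss_nonneg n i)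
      (Finset.mem_range.2 (by omega))
  rw [ss_sum n hn, ss_zero] at h
  exact_mod_cast h

theorem Dc_bound (n : ℕ) (hn : 1 ≤ n) (t : ℂ) (ht : ‖t‖ = 1) :
    ‖(Dc n).eval t‖ ≤ Nall n := by
  have h : (Dc n).eval t = ((dd n 0 : ℚ) : ℂ) + ∑ i ∈ Finset.range (2 * n),
      ((dd n (i + 1) : ℚ) : ℂ) * t ^ i := by
    unfold Dc
    have h0 : ∀ i ∈ Finset.range (2 * n), (C ((cU (2 * n) i 1 : ℂ) -
        (cU (2 * n) i (-1) : ℂ)) * X ^ i : ℂ[X]).eval t = ((dd n (i + 1) : ℚ) : ℂ) * t ^ i := by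
      intro i hi
      rw [dd_succ n i (Finset.mem_range.1 hi)]
      simp
    rw [eval_add, eval_finsetSum, eval_C, dd_zero, Finset.sum_congr rfl h0]
    simp
  have hb : ∀ i, ‖((dd n i : ℚ) : ℂ)‖ ≤ ((ss n i : ℚ) : ℝ) := by
    intro i
    have h1 : ‖((dd n i : ℚ) : ℂ)‖ = |((dd n i : ℚ) : ℝ)| := by
      rw [← Complex.ofReal_ratCast, Complex.norm_real, Real.norm_eq_abs]
    rw [h1]
    exact_mod_cast dd_le_ss n i
  have hs : (Nall n : ℝ) = ((ss n 0 : ℚ) : ℝ) + ∑ i ∈ Finset.range (2 * n),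
      ((ss n (i + 1) : ℚ) : ℝ) := by
    have h2 := ss_sum n hn
    rw [Finset.sum_range_succ'] at h2
    have h3 : ((Nall n : ℚ) : ℝ) = ((∑ k ∈ Finset.range (2 * n), ss n (k + 1) + ss n 0 : ℚ) : ℝ) := by
      rw [h2]
    push_cast at h3
    rw [h3, add_comm]
  rw [h, hs]
  refine (norm_add_le _ _).trans (add_le_add (hb 0) ?_)
  refine (norm_sum_le _ _).trans (Finset.sum_le_sum fun i _ => ?_)
  rw [norm_mul, norm_pow, ht, one_pow, mul_one]
  exact hb (i + 1)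

end ODR
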