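import Pool.Agent.ODR.Lin
import Pool.Agent.ODR.Lb3

/-!
# ODR-Lsc: limits of the characteristic functions

Plan. `t_n = exp(i θ/√(3n/4)) → 1`. `in_s` and `(1+t)(2-t)(2t-1) → 2`: `(1+t_n) Gs n t_n/T - 2 t_n g(t_n)/g(1) → 0`, so `Gs n t_n/T - g(t_n)/g(1) → 0` (`|g(t)/g(1)| ≤ 1`), multiply by
`exp(-i n θ/√(3n/4))` (norm one): by `gN_ph` with `u = θ/√(3n/4)` the second term becomes `ph (2n) (u √(2n))`, `u √(2n) = θ √(8/3)` (`n ≥ 1`), and `ph_lim` gives `exp(-(3/16)(8/3) θ^2) = exp(-θ^2/2)`.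
`cs_lim` has the factor `exp(i θ (i - n)/√(3n/4)) = t_n^i exp(-i n θ/√(3n/4))`. `cd_lim`: `in_d`, `del_lim`.
-/

set_option autoImplicit false

namespace ODR

open Filter Topology

private theorem shift (N n : ℕ) (c : ℕ → ℂ) (θ s : ℝ) :
    ∑ i ∈ Finset.range N, c i * Complex.exp (((θ * (((i : ℝ) - n) / s) : ℝ) : ℂ) * Complex.I) =
      (∑ i ∈ Finset.range N, c i * (Complex.exp (((θ / s : ℝ) : ℂ) * Complex.I)) ^ i) *
        Complex.exp (((-(n * (θ / s)) : ℝ) : ℂ) * Complex.I) := by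
  rw [Finset.sum_mul]
  refine Finset.sum_congr rfl fun i _ => ?_
  rw [mul_assoc, ← Complex.exp_nat_mul, ← Complex.exp_add]
  congr 2
  push_cast
  ring

private theorem norm_e (x : ℝ) : ‖Complex.exp ((x : ℂ) * Complex.I)‖ = 1 :=
  Complex.norm_exp_ofReal_mul_I x

private theorem u_lim (θ : ℝ) : Tendsto (fun n : ℕ => θ / √(3 * n / 4)) atTop (𝓝 0) := by
  have h1 : Tendsto (fun n : ℕ => √(3 * n / 4)) atTop atTop := by
    refine Real.tendsto_sqrt_atTop.comp ?_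
    have h2 : Tendsto (fun n : ℕ => (n : ℝ) * (3 / 4)) atTop atTop :=
      tendsto_natCast_atTop_atTop.atTop_mul_const (by norm_num)
    refine h2.congr fun n => ?_
    ring
  exact h1.const_div_atTop θ

private theorem t_lim (θ : ℝ) : Tendsto (fun n : ℕ =>
    Complex.exp (((θ / √(3 * n / 4) : ℝ) : ℂ) * Complex.I)) atTop (𝓝 1) := by
  have h1 : Continuous fun x : ℝ => Complex.exp ((x : ℂ) * Complex.I) := by fun_prop
  have h2 := (h1.tendsto 0).comp (u_lim θ)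
  simpa [Function.comp_def] using h2

private theorem nt_lim (θ : ℝ) : Tendsto (fun n : ℕ =>
    ‖1 - Complex.exp (((θ / √(3 * n / 4) : ℝ) : ℂ) * Complex.I)‖) atTop (𝓝 0) := by
  have h1 := (tendsto_const_nhds (x := (1 : ℂ)) (f := atTop (α := ℕ))).sub (t_lim θ)
  rw [sub_self] at h1
  have h2 := h1.norm
  rwa [norm_zero] at h2

private theorem div_lim (f q : ℕ → ℂ) (c : ℂ) (hc : c ≠ 0) (l : ℂ)
    (hq : Tendsto q atTop (𝓝 c)) (h : Tendsto (fun n => q n * f n) atTop (𝓝 (c * l))) :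
    Tendsto f atTop (𝓝 l) := by
  have h1 := h.div hq hc
  rw [mul_div_cancel_left₀ _ hc] at h1
  refine h1.congr' ?_
  filter_upwards [hq.eventually_ne hc] with n hn
  exact mul_div_cancel_left₀ _ hn

theorem cs_lim (θ : ℝ) : Tendsto (fun n : ℕ => (∑ i ∈ Finset.range (2 * n + 1),
    ((ss n i : ℚ) : ℂ) * Complex.exp (((θ * (((i : ℝ) - n) / √(3 * n / 4)) : ℝ) : ℂ) *
      Complex.I)) / (ODD.Nall n : ℂ)) atTop (𝓝 (Complex.exp ((-(θ ^ 2 / 2) : ℝ) : ℂ))) := by
  set t : ℕ → ℂ := fun n => Complex.exp (((θ / √(3 * n / 4) : ℝ) : ℂ) * Complex.I) with ht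
  set e : ℕ → ℂ := fun n => Complex.exp (((-(n * (θ / √(3 * n / 4))) : ℝ) : ℂ) * Complex.I)
    with he
  have htl : Tendsto t atTop (𝓝 1) := t_lim θ
  have hG : Tendsto (fun n : ℕ => (gN (2 * n)).eval (t n) / (gN (2 * n)).eval 1 * e n) atTop
      (𝓝 (Complex.exp ((-(θ ^ 2 / 2) : ℝ) : ℂ))) := by
    have h2n : Tendsto (fun n : ℕ => 2 * n) atTop atTop :=
      tendsto_id.const_mul_atTop' (by norm_num)
    have h1 := (ph_lim (θ * √(8 / 3))).comp h2n
    have h2 : (-(3 * (θ * √(8 / 3)) ^ 2 / 16) : ℝ) = -(θ ^ 2 / 2) := by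
      rw [mul_pow, Real.sq_sqrt (by norm_num)]
      ring
    rw [h2] at h1
    refine h1.congr' ?_
    filter_upwards [eventually_ge_atTop 1] with n hn
    have h3 := gN_ph n hn (θ / √(3 * n / 4))
    have hn' : (0 : ℝ) < n := by exact_mod_cast hn
    have h4 : θ / √(3 * n / 4) * √((2 * n : ℕ) : ℝ) = θ * √(8 / 3) := by
      have h5 : √(8 / 3) = √((2 * n : ℕ) : ℝ) / √(3 * n / 4) := by
        rw [← Real.sqrt_div (by positivity)]
        congr 1
        push_cast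
        field_simp
        ring
      rw [h5]
      ring
    rw [h4] at h3
    simp only [ht, he, Function.comp_def]
    rw [h3]
    have h6 : Complex.exp (((n * (θ / √(3 * n / 4)) : ℝ) : ℂ) * Complex.I) *
        Complex.exp (((-(n * (θ / √(3 * n / 4))) : ℝ) : ℂ) * Complex.I) = 1 := by
      rw [← Complex.exp_add]
      push_cast
      rw [neg_mul, add_neg_cancel, Complex.exp_zero]
    calc ph (2 * n) (θ * √(8 / 3)) = (Complex.exp (((n * (θ / √(3 * n / 4)) : ℝ) : ℂ) *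
          Complex.I) * Complex.exp (((-(n * (θ / √(3 * n / 4))) : ℝ) : ℂ) * Complex.I)) *
          ph (2 * n) (θ * √(8 / 3)) := by rw [h6, one_mul]
      _ = _ := by ring
  have hq : Tendsto (fun n : ℕ => (1 + t n) * (2 - t n) * (2 * t n - 1)) atTop (𝓝 2) := by
    have h1 := ((tendsto_const_nhds (x := (1 : ℂ))).add htl).mul
      ((tendsto_const_nhds (x := (2 : ℂ))).sub htl)
    have h2 := h1.mul ((htl.const_mul 2).sub (tendsto_const_nhds (x := (1 : ℂ))))
    have h3 : ((1 : ℂ) + 1) * (2 - 1) * (2 * 1 - 1) = 2 := by norm_num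
    rw [h3] at h2
    exact h2
  have hw : Tendsto (fun n : ℕ => (1 + t n) * (Gs n (t n) / (ODD.Nall n : ℂ)) -
      2 * t n * ((gN (2 * n)).eval (t n) / (gN (2 * n)).eval 1)) atTop (𝓝 0) := by
    refine div_lim _ _ 2 two_ne_zero 0 hq ?_
    rw [mul_zero]
    have h1 : Tendsto (fun n : ℕ => 50 * ‖1 - t n‖) atTop (𝓝 0) := by
      have := (nt_lim θ).const_mul 50
      rwa [mul_zero] at this
    refine squeeze_zero_norm' ?_ h1
    filter_upwards [eventually_ge_atTop 1] with n hn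
    exact in_s n hn (t n) (norm_e _)
  have hwe : Tendsto (fun n : ℕ => ((1 + t n) * (Gs n (t n) / (ODD.Nall n : ℂ)) -
      2 * t n * ((gN (2 * n)).eval (t n) / (gN (2 * n)).eval 1)) * e n) atTop (𝓝 0) := by
    rw [tendsto_zero_iff_norm_tendsto_zero] at hw ⊢
    refine hw.congr fun n => ?_
    rw [norm_mul, norm_e, mul_one]
  have h2 : Tendsto (fun n : ℕ => (1 + t n) * (Gs n (t n) / (ODD.Nall n : ℂ) * e n)) atTop
      (𝓝 (2 * Complex.exp ((-(θ ^ 2 / 2) : ℝ) : ℂ))) := by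
    have h3 := hwe.add ((htl.const_mul 2).mul hG)
    rw [zero_add, mul_one] at h3
    refine h3.congr fun n => ?_
    ring
  have h1t : Tendsto (fun n : ℕ => 1 + t n) atTop (𝓝 2) := by
    have h3 := (tendsto_const_nhds (x := (1 : ℂ))).add htl
    rwa [one_add_one_eq_two] at h3
  have h4 := div_lim _ _ 2 two_ne_zero _ h1t h2
  refine h4.congr fun n => ?_
  rw [shift (2 * n + 1) n (fun i => ((ss n i : ℚ) : ℂ)) θ (√(3 * n / 4))]
  simp only [Gs, ht, he]
  ring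

theorem cd_lim (θ : ℝ) : Tendsto (fun n : ℕ => (∑ i ∈ Finset.range (2 * n + 1),
    ((dd n i : ℚ) : ℂ) * Complex.exp (((θ * (((i : ℝ) - n) / √(3 * n / 4)) : ℝ) : ℂ) *
      Complex.I)) / (ODD.Nall n : ℂ)) atTop (𝓝 0) := by
  set t : ℕ → ℂ := fun n => Complex.exp (((θ / √(3 * n / 4) : ℝ) : ℂ) * Complex.I) with ht
  set e : ℕ → ℂ := fun n => Complex.exp (((-(n * (θ / √(3 * n / 4))) : ℝ) : ℂ) * Complex.I)
    with he
  have htl : Tendsto t atTop (𝓝 1) := t_lim θ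
  have h1t : Tendsto (fun n : ℕ => 1 + t n) atTop (𝓝 2) := by
    have h3 := (tendsto_const_nhds (x := (1 : ℂ))).add htl
    rwa [one_add_one_eq_two] at h3
  have hw : Tendsto (fun n : ℕ => Gd n (t n) / (ODD.Nall n : ℂ)) atTop (𝓝 0) := by
    refine div_lim _ _ 2 two_ne_zero 0 h1t ?_
    rw [mul_zero]
    have h1 : Tendsto (fun n : ℕ => 2 * ‖1 - t n‖ + 2 * |((del n : ℚ) : ℝ) / ODD.Nall n| +
        12 * ‖1 - t n‖ ^ 2) atTop (𝓝 0) := by
      have a1 := (nt_lim θ).const_mul 2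
      have a2 := del_lim.abs.const_mul 2
      have a3 := ((nt_lim θ).pow 2).const_mul 12
      have a4 := (a1.add a2).add a3
      have a5 : (2 : ℝ) * 0 + 2 * |(0 : ℝ)| + 12 * 0 ^ 2 = 0 := by norm_num
      rw [a5] at a4
      exact a4
    refine squeeze_zero_norm' ?_ h1
    filter_upwards [eventually_ge_atTop 1] with n hn
    exact in_d n hn (t n) (norm_e _)
  have hwe : Tendsto (fun n : ℕ => Gd n (t n) / (ODD.Nall n : ℂ) * e n) atTop (𝓝 0) := by
    rw [tendsto_zero_iff_norm_tendsto_zero] at hw ⊢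
    refine hw.congr fun n => ?_
    rw [norm_mul, norm_e, mul_one]
  refine hwe.congr fun n => ?_
  rw [shift (2 * n + 1) n (fun i => ((dd n i : ℚ) : ℂ)) θ (√(3 * n / 4))]
  simp only [Gd, ht, he]
  ring

end ODR
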