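import Pool.Agent.ODR.Bod
import Pool.Agent.ODR.Dc

/-!
# ODR-Odt: the odd function in the parameter `t`, `U = (t + w)/(1 + w t)`

Plan. `od_refined` with `M = 2 n`. `w ^ 2 + w + 1 = 0`, `w ^ 3 = 1`. `U - w = t (1 - w^2)/(1 + w t)`, `1 - w U = (1 - w^2)/(1 + w t)`, so
`(U-w)^i (1-wU)^(M-1-i) = (1-w^2)^(M-1) t^i/(1+wt)^(M-1)`; `U - s w^2 = ((1-s) t + w - s w^2)/(1+wt)`. For `s = 1`: `(1-w^2)^2 = w (1-w)^2`,
`w - w^2 = w (1-w)`. For `s = -1`: `1 + w^2 = -w`, `(1+w^2)(1-w^2) = 1 - w`, `w + w^2 = -1`. (The exponent `2 n (2 n - 1)/2` of `od_refined` may be kept.)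
-/

set_option autoImplicit false

namespace ODR

open ODD Polynomial

private lemma odt_gen (w s : ℂ) (hw : w ^ 2 + w + 1 = 0) (M : ℕ) (hM : 1 ≤ M) (t : ℂ)
    (ht : 1 + w * t ≠ 0) :
    Od w s ((t + w) / (1 + w * t) :: List.replicate M 1) * (1 + w * t) ^ M =
      (1 - w) ^ (M * (M - 1) / 2) * ((1 - s * w ^ 2) ^ (M - 1) * (1 - w ^ 2) ^ (M - 1)) *
        ((1 - s * w ^ 2) * (1 - w ^ 2) * (cZ M : ℂ) +
          ((1 - s) * t + w - s * w ^ 2) * (1 - w) * ∑ i ∈ Finset.range M,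
            ((cU M i 1 : ℂ) - s * (cU M i (-1) : ℂ)) * t ^ i) := by
  have hw3 : w ^ 3 = 1 := by linear_combination (w - 1) * hw
  have e1 : (t + w) / (1 + w * t) - w = t * (1 - w ^ 2) / (1 + w * t) := by
    rw [eq_div_iff ht, sub_mul, div_mul_cancel₀ _ ht]; ring
  have e2 : 1 - w * ((t + w) / (1 + w * t)) = (1 - w ^ 2) / (1 + w * t) := by
    rw [eq_div_iff ht, sub_mul, mul_assoc, div_mul_cancel₀ _ ht]; ring
  have e3 : (t + w) / (1 + w * t) - s * w ^ 2 = ((1 - s) * t + w - s * w ^ 2) / (1 + w * t) := by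
    rw [eq_div_iff ht, sub_mul, div_mul_cancel₀ _ ht]
    linear_combination (-s * t) * hw3
  rw [od_refined w s M hM, e1, e2, e3]
  obtain ⟨m, rfl⟩ : ∃ m, M = m + 1 := ⟨M - 1, by omega⟩
  simp only [Nat.add_sub_cancel]
  have hs : ∑ i ∈ Finset.range (m + 1),
      (t * (1 - w ^ 2) / (1 + w * t)) ^ i * ((1 - w ^ 2) / (1 + w * t)) ^ (m - i) *
        ((cU (m + 1) i 1 : ℂ) - s * (cU (m + 1) i (-1) : ℂ)) =
      ((1 - w ^ 2) / (1 + w * t)) ^ m * ∑ i ∈ Finset.range (m + 1),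
            ((cU (m + 1) i 1 : ℂ) - s * (cU (m + 1) i (-1) : ℂ)) * t ^ i := by
    rw [Finset.mul_sum]
    refine Finset.sum_congr rfl fun i hi => ?_
    have hi' : i ≤ m := Nat.lt_succ_iff.1 (Finset.mem_range.1 hi)
    have h1 : ((1 - w ^ 2) / (1 + w * t)) ^ m =
        ((1 - w ^ 2) / (1 + w * t)) ^ i * ((1 - w ^ 2) / (1 + w * t)) ^ (m - i) := by
      rw [← pow_add, Nat.add_sub_cancel' hi']
    rw [h1, mul_div_assoc, mul_pow]
    ring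
  rw [hs]
  generalize ∑ i ∈ Finset.range (m + 1),
            ((cU (m + 1) i 1 : ℂ) - s * (cU (m + 1) i (-1) : ℂ)) * t ^ i = R
  rw [div_pow, div_pow]
  have hq : (1 + w * t) ^ m ≠ 0 := pow_ne_zero _ ht
  have hq1 : (1 + w * t) ^ (m + 1) ≠ 0 := pow_ne_zero _ ht
  have k1 : (1 - w ^ 2) ^ (m + 1) / (1 + w * t) ^ (m + 1) * (1 + w * t) ^ (m + 1) =
      (1 - w ^ 2) ^ m * (1 - w ^ 2) := by
    rw [div_mul_cancel₀ _ hq1, pow_succ]
  have k2 : ((1 - s) * t + w - s * w ^ 2) / (1 + w * t) * ((1 - w ^ 2) ^ m / (1 + w * t) ^ m) *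
      (1 + w * t) ^ (m + 1) = ((1 - s) * t + w - s * w ^ 2) * (1 - w ^ 2) ^ m := by
    rw [pow_succ, div_mul_div_comm, div_mul_eq_mul_div, div_eq_iff (mul_ne_zero ht hq)]
    ring
  linear_combination (1 - w) ^ ((m + 1) * m / 2) * (1 - s * w ^ 2) ^ m *
    ((1 - s * w ^ 2) * (cZ (m + 1) : ℂ) * k1 + (1 - w) * R * k2)

theorem odt_pos (w : ℂ) (hw : w ^ 2 + w + 1 = 0) (n : ℕ) (hn : 1 ≤ n) (t : ℂ)
    (ht : 1 + w * t ≠ 0) :
    Od w 1 ((t + w) / (1 + w * t) :: List.replicate (2 * n) 1) * (1 + w * t) ^ (2 * n) =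
      (1 - w) ^ (2 * n * (2 * n - 1) / 2) * (1 - w ^ 2) ^ (2 * n) * (1 - w ^ 2) ^ (2 * n) *
        (Dc n).eval t := by
  have hw3 : w ^ 3 = 1 := by linear_combination (w - 1) * hw
  rw [odt_gen w 1 hw (2 * n) (by omega) t ht]
  have hD : (Dc n).eval t = (cZ (2 * n) : ℂ) + ∑ i ∈ Finset.range (2 * n),
      ((cU (2 * n) i 1 : ℂ) - 1 * (cU (2 * n) i (-1) : ℂ)) * t ^ i := by
    unfold Dc
    simp only [eval_add, eval_C, eval_finsetSum, eval_mul, eval_pow, eval_X, one_mul]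
  rw [hD]
  generalize ∑ i ∈ Finset.range (2 * n),
      ((cU (2 * n) i 1 : ℂ) - 1 * (cU (2 * n) i (-1) : ℂ)) * t ^ i = R
  have hp : (1 - w ^ 2) ^ (2 * n) = (1 - w ^ 2) ^ (2 * n - 1) * (1 - w ^ 2) := by
    rw [← pow_succ]; congr 1; omega
  have e : ((1 - 1) * t + w - 1 * w ^ 2) * (1 - w) = (1 - w ^ 2) * (1 - w ^ 2) := by
    linear_combination (1 - w) * hw3
  rw [hp]
  linear_combination (1 - w) ^ (2 * n * (2 * n - 1) / 2) * (1 - w ^ 2) ^ (2 * n - 1) *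
    (1 - w ^ 2) ^ (2 * n - 1) * R * e

theorem odt_neg (w : ℂ) (hw : w ^ 2 + w + 1 = 0) (n : ℕ) (hn : 1 ≤ n) (t : ℂ)
    (ht : 1 + w * t ≠ 0) :
    Od w (-1) ((t + w) / (1 + w * t) :: List.replicate (2 * n) 1) * (1 + w * t) ^ (2 * n) =
      (1 - w) ^ (2 * n * (2 * n - 1) / 2) * (1 - w) ^ (2 * n) * (Sc n).eval t := by
  have hw3 : w ^ 3 = 1 := by linear_combination (w - 1) * hw
  rw [odt_gen w (-1) hw (2 * n) (by omega) t ht]
  have hS : (Sc n).eval t = (cZ (2 * n) : ℂ) + (2 * t - 1) * ∑ i ∈ Finset.range (2 * n),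
      ((cU (2 * n) i 1 : ℂ) - -1 * (cU (2 * n) i (-1) : ℂ)) * t ^ i := by
    unfold Sc
    simp only [eval_add, eval_C, eval_finsetSum, eval_mul, eval_pow, eval_X, eval_sub, eval_one,
      eval_ofNat, neg_mul, one_mul, sub_neg_eq_add]
  rw [hS]
  generalize ∑ i ∈ Finset.range (2 * n),
      ((cU (2 * n) i 1 : ℂ) - -1 * (cU (2 * n) i (-1) : ℂ)) * t ^ i = R
  have e1 : (1 - -1 * w ^ 2) * (1 - w ^ 2) = 1 - w := by
    linear_combination (1 - w ^ 2) * hw + hw3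
  have e2 : (1 - -1) * t + w - -1 * w ^ 2 = 2 * t - 1 := by
    linear_combination hw
  have hp : (1 - w) ^ (2 * n) = (1 - w) ^ (2 * n - 1) * (1 - w) := by
    rw [← pow_succ]; congr 1; omega
  rw [← mul_pow, e1, e2, hp]
  ring

end ODR
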